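import Pool.Agent.H856.JN.Cons

/-!
Binary forms with two irreducible factors.
-/

set_option autoImplicit false
set_option linter.unusedSectionVars false
set_option linter.style.haveILetI false

open Function

namespace Pool.Agent.H856.JN

/-- the binary form `y ^ n p(x / y)` of a polynomial of degree `n` -/
noncomputable def binForm {k : Type} [Field k] (p : Polynomial k) : MvPolynomial (Fin 2) k :=
  ∑ i ∈ Finset.range (p.natDegree + 1),
    MvPolynomial.C (p.coeff i) * MvPolynomial.X 0 ^ i * MvPolynomial.X 1 ^ (p.natDegree - i)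

section binary

variable {k : Type} [Field k]

theorem binForm_homogeneous (p : Polynomial k) : (binForm p).IsHomogeneous p.natDegree := by
  unfold binForm
  refine MvPolynomial.IsHomogeneous.sum _ _ _ fun i hi => ?_
  have hi' : i ≤ p.natDegree := by have := Finset.mem_range.1 hi; omega
  have h1 := ((MvPolynomial.isHomogeneous_C (Fin 2) (p.coeff i)).mul
    ((MvPolynomial.isHomogeneous_X k (0 : Fin 2)).pow i)).mul
    ((MvPolynomial.isHomogeneous_X k (1 : Fin 2)).pow (p.natDegree - i))
  have h2 : 0 + 1 * i + 1 * (p.natDegree - i) = p.natDegree := by omega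
  rwa [h2] at h1

variable {L : Type} [Field L] [Algebra k L]

theorem aeval_binForm (p : Polynomial k) (v : Fin 2 → L) :
    MvPolynomial.aeval v (binForm p) = ∑ i ∈ Finset.range (p.natDegree + 1),
      algebraMap k L (p.coeff i) * v 0 ^ i * v 1 ^ (p.natDegree - i) := by
  unfold binForm
  rw [map_sum]
  refine Finset.sum_congr rfl fun i _ => ?_
  simp

theorem aeval_binForm_ne (p : Polynomial k) (v : Fin 2 → L) (h : v 1 ≠ 0) :
    MvPolynomial.aeval v (binForm p) = v 1 ^ p.natDegree * Polynomial.aeval (v 0 / v 1) p := by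
  rw [aeval_binForm, Polynomial.aeval_eq_sum_range, Finset.mul_sum]
  refine Finset.sum_congr rfl fun i hi => ?_
  have hi' : i ≤ p.natDegree := by have := Finset.mem_range.1 hi; omega
  have h1 : v 1 ^ p.natDegree = v 1 ^ (p.natDegree - i) * v 1 ^ i := by
    rw [← pow_add, Nat.sub_add_cancel hi']
  rw [h1, div_pow, Algebra.smul_def]
  field_simp

theorem aeval_binForm_zero {p : Polynomial k} (hp : p.Monic) (v : Fin 2 → L) (h : v 1 = 0) :
    MvPolynomial.aeval v (binForm p) = v 0 ^ p.natDegree := by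
  rw [aeval_binForm, Finset.sum_range_succ, Finset.sum_eq_zero, zero_add, hp.coeff_natDegree]
  · simp
  · intro i hi
    have hi' : p.natDegree - i ≠ 0 := by have := Finset.mem_range.1 hi; omega
    rw [h, zero_pow hi', mul_zero]

variable [Finite L]

theorem zeros_binForm {p : Polynomial k} (hp : p.Monic) (hd : 0 < p.natDegree) :
    zeros (binForm p) L = 1 + (Nat.card L - 1) * Nat.card {t : L // Polynomial.aeval t p = 0} := by
  classical
  unfold zeros
  have h1 : Nat.card L - 1 = Nat.card Lˣ := by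
    letI := Fintype.ofFinite L
    rw [Nat.card_eq_fintype_card, Nat.card_eq_fintype_card, Fintype.card_units]
  rw [h1, ← Nat.card_prod]
  have h2 : (1 : ℕ) = Nat.card Unit := by simp
  conv_rhs => rw [h2]
  rw [← Nat.card_sum]
  refine Nat.card_eq_of_bijective (Sum.elim (fun _ : Unit => (⟨0, ?_⟩ :
      {v : Fin 2 → L // MvPolynomial.aeval v (binForm p) = 0}))
    fun x : Lˣ × {t : L // Polynomial.aeval t p = 0} =>
      ⟨![(x.1 : L) * x.2.1, x.1], ?_⟩) ⟨?_, ?_⟩ |>.symm
  · exact aeval_zero_of hd (binForm_homogeneous p)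
  · rw [aeval_binForm_ne _ _ (Units.ne_zero x.1)]
    show (x.1 : L) ^ p.natDegree * Polynomial.aeval ((x.1 : L) * x.2.1 / x.1) p = 0
    rw [mul_div_cancel_left₀ _ (Units.ne_zero x.1), x.2.2, mul_zero]
  · rintro (u | ⟨c, t⟩) (u' | ⟨c', t'⟩) h
    · rfl
    · exfalso
      have h3 := congrFun (congrArg Subtype.val h) 1
      exact Units.ne_zero c' h3.symm
    · exfalso
      have h3 := congrFun (congrArg Subtype.val h) 1
      exact Units.ne_zero c h3
    · have h3 : (c : L) = c' := congrFun (congrArg Subtype.val h) 1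
      have h4 : (c : L) * t.1 = c' * t'.1 := congrFun (congrArg Subtype.val h) 0
      have h5 : c = c' := Units.ext h3
      subst h5
      have h6 : t = t' := Subtype.ext (mul_left_cancel₀ (Units.ne_zero c) h4)
      rw [h6]
  · rintro ⟨v, hv⟩
    by_cases h3 : v 1 = 0
    · rw [aeval_binForm_zero hp v h3] at hv
      have h4 : v 0 = 0 := pow_eq_zero_iff hd.ne' |>.1 hv
      refine ⟨Sum.inl (), Subtype.ext ?_⟩
      funext i
      fin_cases i
      · exact h4.symm
      · exact h3.symm
    · rw [aeval_binForm_ne p v h3] at hv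
      have h4 := (mul_eq_zero.1 hv).resolve_left (pow_ne_zero _ h3)
      refine ⟨Sum.inr (Units.mk0 _ h3, ⟨_, h4⟩), Subtype.ext ?_⟩
      funext i
      fin_cases i
      · show v 1 * (v 0 / v 1) = v 0
        rw [mul_div_cancel₀ _ h3]
      · rfl

theorem card_roots_irreducible {g : Polynomial k} (hg : Irreducible g) :
    Nat.card {t : L // Polynomial.aeval t g = 0} =
      if g.natDegree ∣ Module.finrank k L then g.natDegree else 0 := by
  classical
  have hF : Fact (Irreducible g) := ⟨hg⟩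
  have h1 : Nat.card {t : L // Polynomial.aeval t g = 0} =
      Nat.card (AdjoinRoot g →ₐ[k] L) := by
    refine Nat.card_congr ((Equiv.subtypeEquivRight fun t => ?_).trans
      (AdjoinRoot.equiv L k g hg.ne_zero).symm)
    rw [Polynomial.mem_aroots, and_iff_right hg.ne_zero]
  have h2 : Module.finrank k (AdjoinRoot g) = g.natDegree := by
    rw [(AdjoinRoot.powerBasis hg.ne_zero).finrank, AdjoinRoot.powerBasis_dim]
  rw [h1]
  split_ifs with h
  · rw [FiniteField.natCard_algHom_of_finrank_dvd (by rwa [h2]), h2]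
  · have h3 : IsEmpty (AdjoinRoot g →ₐ[k] L) := by
      rw [← not_nonempty_iff, FiniteField.nonempty_algHom_iff_finrank_dvd, h2]
      exact h
    exact Nat.card_of_isEmpty

theorem card_roots_mul {g h : Polynomial k} (hg : Irreducible g) (hh : Irreducible h)
    (hgm : g.Monic) (hhm : h.Monic) (hne : g ≠ h) :
    Nat.card {t : L // Polynomial.aeval t (g * h) = 0} =
      Nat.card {t : L // Polynomial.aeval t g = 0} +
        Nat.card {t : L // Polynomial.aeval t h = 0} := by
  classical
  rw [← Nat.card_sum]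
  have hdisj : ∀ t : L, Polynomial.aeval t g = 0 → Polynomial.aeval t h ≠ 0 := by
    intro t h1 h2
    apply hne
    rw [minpoly.eq_of_irreducible_of_monic hg h1 hgm,
      minpoly.eq_of_irreducible_of_monic hh h2 hhm]
  refine (Nat.card_eq_of_bijective (Sum.elim
    (fun t : {t : L // Polynomial.aeval t g = 0} => (⟨t.1, ?_⟩ :
      {t : L // Polynomial.aeval t (g * h) = 0})) fun t => ⟨t.1, ?_⟩) ⟨?_, ?_⟩).symm
  · rw [map_mul, t.2, zero_mul]
  · rw [map_mul, t.2, mul_zero]
  · rintro (s | s) (t | t) hst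
    · have h3 : s.1 = t.1 :=
        congrArg (fun z : {t : L // Polynomial.aeval t (g * h) = 0} => z.1) hst
      exact congrArg Sum.inl (Subtype.ext h3)
    · exfalso
      have h3 : s.1 = t.1 := congrArg Subtype.val hst
      exact hdisj s.1 s.2 (h3 ▸ t.2)
    · exfalso
      have h3 : s.1 = t.1 := congrArg Subtype.val hst
      exact hdisj t.1 t.2 (h3 ▸ s.2)
    · have h3 : s.1 = t.1 :=
        congrArg (fun z : {t : L // Polynomial.aeval t (g * h) = 0} => z.1) hst
      exact congrArg Sum.inr (Subtype.ext h3)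
  · rintro ⟨t, ht⟩
    rw [map_mul] at ht
    rcases mul_eq_zero.1 ht with h1 | h1
    · exact ⟨Sum.inl ⟨t, h1⟩, rfl⟩
    · exact ⟨Sum.inr ⟨t, h1⟩, rfl⟩

end binary

section spectrum

variable {A : Type} [CommRing A] [IsDomain A] [CharZero A]

/-- the roots of unity of order `r` except one -/
def unity' (r : ℕ) (ζ : A) : Multiset A :=
  (Multiset.range (r - 1)).map fun i => ζ ^ (i + 1)

theorem ps_unity' {r : ℕ} (hr : 0 < r) {ζ : A} (hζ : IsPrimitiveRoot ζ r) (n : ℕ) :
    1 + ps (unity' r ζ) n = if r ∣ n then (r : A) else 0 := by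
  have h1 : 1 + ps (unity' r ζ) n = ∑ i ∈ Finset.range r, (ζ ^ n) ^ i := by
    unfold ps unity'
    rw [Multiset.map_map]
    conv_rhs => rw [← Nat.sub_add_cancel hr]
    rw [Finset.sum_range_succ', pow_zero, add_comm]
    congr 1
    show _ = ((Finset.range (r - 1)).val.map fun i => (ζ ^ n) ^ (i + 1)).sum
    congr 1
    refine Multiset.map_congr rfl fun i _ => ?_
    show (ζ ^ (i + 1)) ^ n = (ζ ^ n) ^ (i + 1)
    rw [← pow_mul, ← pow_mul, mul_comm]
  rw [h1]
  split_ifs with h
  · have h2 : ζ ^ n = 1 := (hζ.pow_eq_one_iff_dvd n).2 h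
    rw [h2]
    simp
  · have h2 : ζ ^ n ≠ 1 := fun h3 => h ((hζ.pow_eq_one_iff_dvd n).1 h3)
    have h3 := mul_neg_geom_sum (ζ ^ n) r
    have h4 : (ζ ^ n) ^ r = 1 := by rw [← pow_mul, mul_comm, pow_mul, hζ.pow_eq_one, one_pow]
    rw [h4, sub_self] at h3
    rcases mul_eq_zero.1 h3 with h5 | h5
    · exact absurd (sub_eq_zero.1 h5).symm h2
    · exact h5

theorem mem_unity' {r : ℕ} {ζ x : A} (h : x ∈ unity' r ζ) :
    ∃ i, 0 < i ∧ i < r ∧ x = ζ ^ i := by
  obtain ⟨i, hi, rfl⟩ := Multiset.mem_map.1 h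
  rw [Multiset.mem_range] at hi
  exact ⟨i + 1, by omega, by omega, rfl⟩

variable {k : Type} [Field k] [Finite k]

/-- the eigenvalues of a binary form with two irreducible factors -/
theorem spectrum_binForm {g h : Polynomial k} (hg : Irreducible g) (hh : Irreducible h)
    (hgm : g.Monic) (hhm : h.Monic) (hne : g ≠ h) {ζ ξ : A}
    (hζ : IsPrimitiveRoot ζ g.natDegree) (hξ : IsPrimitiveRoot ξ h.natDegree) :
    IsSpectrum (binForm (g * h)) ((1 : A) ::ₘ (unity' g.natDegree ζ + unity' h.natDegree ξ)) := by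
  intro L _ _ _
  have hg0 : 0 < g.natDegree := hg.natDegree_pos
  have hh0 : 0 < h.natDegree := hh.natDegree_pos
  have hd : 0 < (g * h).natDegree := by
    rw [hgm.natDegree_mul hhm]; omega
  have hL : 1 ≤ Nat.card L := Nat.card_pos
  rw [zeros_binForm (hgm.mul hhm) hd, card_roots_mul hg hh hgm hhm hne,
    card_roots_irreducible hg, card_roots_irreducible hh]
  have h1 := ps_unity' hg0 hζ (Module.finrank k L)
  have h2 := ps_unity' hh0 hξ (Module.finrank k L)
  have h3 : (((1 : A) ::ₘ (unity' g.natDegree ζ + unity' h.natDegree ξ)).map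
      fun a => a ^ Module.finrank k L).sum = 1 + (ps (unity' g.natDegree ζ) (Module.finrank k L) +
        ps (unity' h.natDegree ξ) (Module.finrank k L)) := by
    simp [ps]
  rw [h3, Fintype.card_fin]
  push_cast [Nat.cast_sub hL]
  have h4 : (((if g.natDegree ∣ Module.finrank k L then g.natDegree else 0 : ℕ)) : A) =
      if g.natDegree ∣ Module.finrank k L then (g.natDegree : A) else 0 := by
    split_ifs <;> simp
  have h5 : (((if h.natDegree ∣ Module.finrank k L then h.natDegree else 0 : ℕ)) : A) =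
      if h.natDegree ∣ Module.finrank k L then (h.natDegree : A) else 0 := by
    split_ifs <;> simp
  rw [← h1, ← h2]
  ring

/-- these eigenvalues are not powers of `q` modulo `ℓ` -/
theorem unity_not_power {ℓ : ℕ} {Ω : Type} [Field Ω] [CharP Ω ℓ] (hℓ : ℓ.Prime)
    (φ : A →+* Ω) {q r : ℕ} {ζ : A} (hζ : IsPrimitiveRoot ζ r)
    (hr : Nat.Coprime r (ℓ * orderOf (q : ZMod ℓ))) {b : A} (hb : b ∈ unity' r ζ) :
    ¬ IsQPower q φ b := by
  rintro ⟨j, hj⟩
  obtain ⟨i, hi0, hir, rfl⟩ := mem_unity' hb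
  have hr0 : 0 < r := by omega
  have hcop : Nat.Coprime r ℓ := hr.coprime_dvd_right (dvd_mul_right _ _)
  have hcop' : Nat.Coprime r (orderOf (q : ZMod ℓ)) := hr.coprime_dvd_right (dvd_mul_left _ _)
  -- `φ ζ` is a primitive root of unity
  have hne : ((r : ℕ) : Ω) ≠ 0 := by
    rw [Ne, CharP.cast_eq_zero_iff Ω ℓ]
    intro h
    rw [Nat.coprime_comm, Nat.Prime.coprime_iff_not_dvd hℓ] at hcop
    exact hcop h
  have hprim : IsPrimitiveRoot (φ ζ) r := by
    have hcyc : (Polynomial.cyclotomic r A).IsRoot ζ := hζ.isRoot_cyclotomic hr0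
    have : NeZero ((r : ℕ) : Ω) := ⟨hne⟩
    rw [← Polynomial.isRoot_cyclotomic_iff, ← Polynomial.map_cyclotomic r φ]
    exact hcyc.map
  -- the order of `q`
  have hq1 : ((q : ℕ) : Ω) ^ orderOf (q : ZMod ℓ) = 1 := by
    have h1 : ((q : ZMod ℓ)) ^ orderOf (q : ZMod ℓ) = 1 := pow_orderOf_eq_one _
    have h2 := congrArg (ZMod.castHom dvd_rfl Ω) h1
    rw [map_pow, map_natCast, map_one] at h2
    exact h2
  have h3 : (φ ζ ^ i) ^ orderOf (q : ZMod ℓ) = 1 := by
    rw [← map_pow, hj, ← pow_mul, mul_comm, pow_mul, hq1, one_pow]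
  rw [← pow_mul] at h3
  have h4 := (hprim.pow_eq_one_iff_dvd _).1 h3
  have h5 := hcop'.dvd_of_dvd_mul_right h4
  exact absurd (Nat.le_of_dvd hi0 h5) (by omega)

end spectrum

end Pool.Agent.H856.JN
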