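import Pool.Agent.H856.JN.Binary

/-!
Towers of hypersurfaces `F(x) + f_1(y_1, z_1) + ... + f_n(y_n, z_n) = 0`.
-/

set_option autoImplicit false
set_option linter.unusedSectionVars false

open Function MvPolynomial

namespace Pool.Agent.H856.JN

/-- the variables of `F`, and `n` pairs of further variables -/
def Vars (ι : Type) : ℕ → Type
  | 0 => ι
  | n + 1 => Vars ι n ⊕ Fin 2

instance fintypeVars (ι : Type) [Fintype ι] : ∀ n, Fintype (Vars ι n)
  | 0 => inferInstanceAs (Fintype ι)
  | n + 1 =>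
    haveI := fintypeVars ι n
    inferInstanceAs (Fintype (Vars ι n ⊕ Fin 2))

instance nonemptyVars (ι : Type) [Nonempty ι] : ∀ n, Nonempty (Vars ι n)
  | 0 => inferInstanceAs (Nonempty ι)
  | n + 1 => inferInstanceAs (Nonempty (Vars ι n ⊕ Fin 2))

/-- the form `F(x) + f_0(y_0, z_0) + ... + f_(n-1)(y_(n-1), z_(n-1))` -/
noncomputable def towerForm {k ι : Type} [Field k] (F : MvPolynomial ι k)
    (f : ℕ → MvPolynomial (Fin 2) k) : ∀ n, MvPolynomial (Vars ι n) k
  | 0 => F
  | n + 1 => joinForm (towerForm F f n) (f n)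

/-- the eigenvalues: `α` for `n = 0`, and then the products of `q`, of the previous ones and of the
ones of the binary form, together with the new ones -/
noncomputable def towerSpectrum {A : Type} [CommRing A] (q : ℕ) (α : Multiset A)
    (β ρ : ℕ → Multiset A) : ℕ → Multiset A
  | 0 => α
  | n + 1 => (mprod (towerSpectrum q α β ρ n) (β n)).map (fun x => (q : A) * x) + ρ n

section homog

variable {k ι ι' : Type} [Field k]

theorem joinForm_homogeneous {d : ℕ} {F : MvPolynomial ι k} (hF : F.IsHomogeneous d)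
    {G : MvPolynomial ι' k} (hG : G.IsHomogeneous d) : (joinForm F G).IsHomogeneous d :=
  (hF.rename_isHomogeneous).add (hG.rename_isHomogeneous)

theorem towerForm_homogeneous {d : ℕ} {F : MvPolynomial ι k} (hF : F.IsHomogeneous d)
    {f : ℕ → MvPolynomial (Fin 2) k} :
    ∀ n, (∀ i < n, (f i).IsHomogeneous d) → (towerForm F f n).IsHomogeneous d
  | 0, _ => hF
  | n + 1, hf => joinForm_homogeneous (towerForm_homogeneous hF n fun i hi => hf i (by omega))
    (hf n (by omega))

end homog

section chain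

variable {k : Type} [Field k] [Finite k] {ι : Type} [Fintype ι] [Nonempty ι]
  {A : Type} [CommRing A] [IsDomain A] [CharZero A] {ℓ a : ℕ} (hℓ : ℓ.Prime)
  (hk : (ℓ : k) ≠ 0) {Ω : Type} [Field Ω] [CharP Ω ℓ] (φ : A →+* Ω)

/-- the product of powers -/
theorem IsQPower.mul {q : ℕ} {x y : A} (hx : IsQPower q φ x) (hy : IsQPower q φ y) :
    IsQPower q φ (x * y) := by
  obtain ⟨i, hi⟩ := hx
  obtain ⟨j, hj⟩ := hy
  exact ⟨i + j, by rw [map_mul, hi, hj, pow_add]⟩

theorem IsQPower.pow {q : ℕ} {x : A} (hx : IsQPower q φ x) (n : ℕ) :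
    IsQPower q φ (x ^ n) := by
  obtain ⟨i, hi⟩ := hx
  exact ⟨i * n, by rw [map_pow, hi, ← pow_mul]⟩

theorem isQPower_one {q : ℕ} : IsQPower q φ (1 : A) := ⟨0, by simp⟩

include hℓ hk in
/-- no interaction -/
theorem no_interaction {M m : ℕ} {x b : A} (hx : φ x = 0 ∨ IsQPower (Nat.card k) φ (x ^ M))
    (hb : b ^ m = 1) (hm : 0 < m) (hcop : Nat.Coprime M m)
    (hnb : ¬ IsQPower (Nat.card k) φ b) : ¬ IsQPower (Nat.card k) φ (x * b) := by
  intro hxb
  have hq := coprime_card hℓ hk
  have hx' : IsQPower (Nat.card k) φ (x ^ M) := by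
    refine hx.resolve_left fun h0 => ?_
    obtain ⟨j, hj⟩ := hxb
    rw [map_mul, h0, zero_mul] at hj
    exact pow_ne_zero j (q_ne (Ω := Ω) hℓ hq) hj.symm
  have h1 : PP (Nat.card k) Ω (φ x ^ M) := by
    obtain ⟨j, hj⟩ := hx'
    exact ⟨j, by rw [← map_pow, hj]⟩
  have h2 : PP (Nat.card k) Ω (φ x ^ M * φ b ^ M) := by
    obtain ⟨j, hj⟩ := hxb
    rw [← mul_pow, ← map_mul, hj]
    exact ⟨j * M, (pow_mul _ _ _).symm⟩
  have h3 : PP (Nat.card k) Ω (φ b ^ M) := PP.of_mul hℓ hq h1 h2
  have h4 : φ b ^ m = 1 := by rw [← map_pow, hb, map_one]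
  have h5 : M ^ m.totient ≡ 1 [MOD m] := Nat.ModEq.pow_totient hcop
  have h6 : φ b ^ M ^ m.totient = φ b := by
    have := pow_eq_pow_of_modEq h5 h4
    rwa [pow_one] at this
  have h7 : PP (Nat.card k) Ω (φ b ^ M ^ m.totient) := by
    have h8 : m.totient = (m.totient - 1) + 1 :=
      (Nat.sub_add_cancel (Nat.totient_pos.2 hm)).symm
    rw [h8, pow_succ', pow_mul]
    exact h3.pow _
  rw [h6] at h7
  exact hnb h7

/-- the conditions on the polynomials `g_i`, `h_i`, `i < n`: they are monic, irreducible and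
different, their degrees have the sum `ℓ ^ a` and the product `m_i`, which is prime to `M`, to `ℓ`, to
the order of `q` modulo `ℓ`, and to the other `m_j` -/
structure Admissible (k : Type) [Field k] (ℓ a M : ℕ) (g h : ℕ → Polynomial k) (n : ℕ) :
    Prop where
  irr : ∀ i < n, Irreducible (g i) ∧ Irreducible (h i)
  monic : ∀ i < n, (g i).Monic ∧ (h i).Monic
  ne : ∀ i < n, g i ≠ h i
  deg : ∀ i < n, (g i).natDegree + (h i).natDegree = ℓ ^ a
  cop : ∀ i < n, Nat.Coprime ((g i).natDegree * (h i).natDegree)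
    (M * (ℓ * orderOf (Nat.card k : ZMod ℓ)))
  pair : ∀ i < n, ∀ j < n, i ≠ j → Nat.Coprime ((g i).natDegree * (h i).natDegree)
    ((g j).natDegree * (h j).natDegree)

theorem Admissible.mono {k : Type} [Field k] {ℓ a M : ℕ} {g h : ℕ → Polynomial k} {n n' : ℕ}
    (H : Admissible k ℓ a M g h n) (hn : n' ≤ n) : Admissible k ℓ a M g h n' where
  irr i hi := H.irr i (hi.trans_le hn)
  monic i hi := H.monic i (hi.trans_le hn)
  ne i hi := H.ne i (hi.trans_le hn)
  deg i hi := H.deg i (hi.trans_le hn)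
  cop i hi := H.cop i (hi.trans_le hn)
  pair i hi j hj := H.pair i (hi.trans_le hn) j (hj.trans_le hn)

/-- the eigenvalues of the binary forms: the roots of unity of the order of the degree of one of the
two factors, where one is counted only once -/
noncomputable def binSpectrum {A : Type} [CommRing A] (r s : ℕ) (ζ ξ : A) : Multiset A :=
  1 ::ₘ (unity' r ζ + unity' s ξ)

variable {M : ℕ} {g h : ℕ → Polynomial k} {ζ ξ : ℕ → A}
  {F : MvPolynomial ι k} (hF : F.IsHomogeneous (ℓ ^ a)) {α : Multiset A}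
  (hM : ∀ x ∈ α, φ x = 0 ∨ IsQPower (Nat.card k) φ (x ^ M)) {ρ : ℕ → Multiset A}

/-- the spectrum of the tower -/
noncomputable abbrev tsp (α : Multiset A) (g h : ℕ → Polynomial k) (ζ ξ : ℕ → A)
    (ρ : ℕ → Multiset A) (n : ℕ) : Multiset A :=
  towerSpectrum (Nat.card k) α
    (fun i => binSpectrum (g i).natDegree (h i).natDegree (ζ i) (ξ i)) ρ n

theorem unit_pow {r s : ℕ} {z w b : A} (hz : IsPrimitiveRoot z r) (hw : IsPrimitiveRoot w s)
    (hb : b ∈ unity' r z + unity' s w) : b ^ (r * s) = 1 := by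
  rcases Multiset.mem_add.1 hb with hb | hb
  · obtain ⟨j, _, _, rfl⟩ := mem_unity' hb
    rw [← pow_mul, mul_comm, mul_assoc, pow_mul, hz.pow_eq_one, one_pow]
  · obtain ⟨j, _, _, rfl⟩ := mem_unity' hb
    rw [← pow_mul, mul_comm, mul_comm r, mul_assoc, pow_mul, hw.pow_eq_one, one_pow]

include hℓ in
theorem unit_not {r s : ℕ} {z w b : A} (hz : IsPrimitiveRoot z r) (hw : IsPrimitiveRoot w s)
    (hrs : Nat.Coprime (r * s) (ℓ * orderOf (Nat.card k : ZMod ℓ)))
    (hb : b ∈ unity' r z + unity' s w) : ¬ IsQPower (Nat.card k) φ b := by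
  rcases Multiset.mem_add.1 hb with hb | hb
  · exact unity_not_power hℓ φ hz (hrs.coprime_dvd_left (dvd_mul_right _ _)) hb
  · exact unity_not_power hℓ φ hw (hrs.coprime_dvd_left (dvd_mul_left _ _)) hb

theorem prod_coprime {n N : ℕ} (hgh : Admissible k ℓ a M g h N) (hn : n < N) : Nat.Coprime
    (M * ∏ i ∈ Finset.range n, ((g i).natDegree * (h i).natDegree))
    ((g n).natDegree * (h n).natDegree) := by
  refine Nat.Coprime.mul_left ?_ ?_
  · exact ((hgh.cop n hn).coprime_dvd_right (dvd_mul_right _ _)).symm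
  · refine Nat.Coprime.prod_left fun i hi => ?_
    have := Finset.mem_range.1 hi
    exact hgh.pair i (by omega) n hn (by omega)

theorem bin_homogeneous {N : ℕ} (hgh : Admissible k ℓ a M g h N) {i : ℕ} (hi : i < N) :
    (binForm (g i * h i)).IsHomogeneous (ℓ ^ a) := by
  have h1 := binForm_homogeneous (g i * h i)
  rwa [(hgh.monic i hi).1.natDegree_mul (hgh.monic i hi).2, hgh.deg i hi] at h1

open Classical in
include hℓ hk hF hM in
theorem tower_main (c n : ℕ) (hgh : Admissible k ℓ a M g h n)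
    (hζ : ∀ i < n, IsPrimitiveRoot (ζ i) (g i).natDegree)
    (hξ : ∀ i < n, IsPrimitiveRoot (ξ i) (h i).natDegree)
    (hs : ∀ i ≤ n, IsSpectrum (towerForm F (fun i => binForm (g i * h i)) i)
      (tsp α g h ζ ξ ρ i)) :
    (∀ x ∈ tsp α g h ζ ξ ρ n, φ x = 0 ∨ IsQPower (Nat.card k) φ
      (x ^ (M * ∏ i ∈ Finset.range n, ((g i).natDegree * (h i).natDegree)))) ∧
    (tsp α g h ζ ξ ρ n).count ((Nat.card k : A) ^ (c + n)) =
      α.count ((Nat.card k : A) ^ c) := by
  induction n with
  | zero =>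
    refine ⟨?_, rfl⟩
    intro x hx
    rw [Finset.prod_range_zero, mul_one]
    exact hM x hx
  | succ n ih =>
    have hn : n < n + 1 := Nat.lt_succ_self n
    obtain ⟨ih1, ih2⟩ := ih (hgh.mono hn.le) (fun i hi => hζ i (by omega))
      (fun i hi => hξ i (by omega)) fun i hi => hs i (by omega)
    have hsn := hs n (by omega)
    have hsn' := hs (n + 1) le_rfl
    have hbin : IsSpectrum (binForm (g n * h n)) ((1 : A) ::ₘ
        (unity' (g n).natDegree (ζ n) + unity' (h n).natDegree (ξ n))) :=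
      spectrum_binForm (hgh.irr n hn).1 (hgh.irr n hn).2 (hgh.monic n hn).1 (hgh.monic n hn).2
        (hgh.ne n hn) (hζ n hn) (hξ n hn)
    have hhom : (towerForm F (fun i => binForm (g i * h i)) n).IsHomogeneous (ℓ ^ a) :=
      towerForm_homogeneous hF n (fun i hi => bin_homogeneous hgh (hi.trans hn))
    have h0 : IsQPower (Nat.card k) φ (1 : A) := isQPower_one φ
    have hbh := bin_homogeneous hgh hn
    have hpos : 0 < (g n).natDegree * (h n).natDegree :=
      Nat.mul_pos (hgh.irr n hn).1.natDegree_pos (hgh.irr n hn).2.natDegree_pos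
    have h1 : ∀ b ∈ unity' (g n).natDegree (ζ n) + unity' (h n).natDegree (ξ n),
        ¬ IsQPower (Nat.card k) φ b := fun b hb => unit_not hℓ φ (hζ n hn) (hξ n hn)
          ((hgh.cop n hn).coprime_dvd_right (dvd_mul_left _ _)) hb
    have h2 : ∀ x ∈ tsp α g h ζ ξ ρ n,
        ∀ b ∈ unity' (g n).natDegree (ζ n) + unity' (h n).natDegree (ξ n),
          ¬ IsQPower (Nat.card k) φ (x * b) := fun x hx b hb =>
      no_interaction hℓ hk φ (ih1 x hx) (unit_pow (hζ n hn) (hξ n hn) hb) hpos
        (prod_coprime hgh hn) (h1 b hb)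
    constructor
    · intro x hx
      rw [Finset.prod_range_succ, ← mul_assoc]
      set N := M * ∏ i ∈ Finset.range n, ((g i).natDegree * (h i).natDegree) with hN
      set m := (g n).natDegree * (h n).natDegree with hm
      -- products
      have hprod : ∀ y ∈ tsp α g h ζ ξ ρ n, ∀ b ∈ (1 : A) ::ₘ
          (unity' (g n).natDegree (ζ n) + unity' (h n).natDegree (ξ n)), ∀ j : ℕ, ∀ z : A,
          φ z = (Nat.card k : Ω) ^ j * (φ y * φ b) →
          φ z = 0 ∨ IsQPower (Nat.card k) φ (z ^ (N * m)) := by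
        intro y hy b hb j z hz
        rcases ih1 y hy with h3 | ⟨e, he⟩
        · left
          rw [hz, h3, zero_mul, mul_zero]
        · right
          have hb1 : b ^ m = 1 := by
            rcases Multiset.mem_cons.1 hb with rfl | hb
            · exact one_pow _
            · exact unit_pow (hζ n hn) (hξ n hn) hb
          refine ⟨j * (N * m) + e * m, ?_⟩
          have h5 : φ b ^ (N * m) = 1 := by
            rw [mul_comm, pow_mul, ← map_pow, hb1, map_one, one_pow]
          have h6 : φ y ^ (N * m) = (Nat.card k : Ω) ^ (e * m) := by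
            rw [pow_mul, ← map_pow, he, ← pow_mul]
          rw [map_pow, hz, mul_pow, mul_pow, h5, h6, mul_one, ← pow_mul, ← pow_add]
      have hx' : x ∈ (mprod (tsp α g h ζ ξ ρ n) ((1 : A) ::ₘ
          (unity' (g n).natDegree (ζ n) + unity' (h n).natDegree (ξ n)))).map
            (fun x => (Nat.card k : A) * x) + ρ n := hx
      rcases Multiset.mem_add.1 hx' with h3 | h3
      · obtain ⟨z, hz, rfl⟩ := Multiset.mem_map.1 h3
        obtain ⟨y, hy, b, hb, rfl⟩ := mem_mprod.1 hz
        exact hprod y hy b hb 1 _ (by simp)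
      · rcases rest_mem hℓ hk hhom hbh hsn hbin hsn' φ h0 h1 h2 x h3 with
          h4 | ⟨y, hy, b, hb, j, hj⟩
        · exact Or.inl h4
        · exact hprod y hy b hb j x hj
    · rw [← ih2]
      have h3 := count_join hℓ hk hhom hbh hsn hbin hsn' φ h1 h2
        (c' := 0) (pow_zero _).symm (c + n)
      exact h3

end chain

end Pool.Agent.H856.JN
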