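import Pool.Agent.H856.JN.Count

/-!
The zeta function of a torsor modulo `ℓ`.
-/

set_option autoImplicit false

open PowerSeries Function

namespace Pool.Agent.H856.JN

section comp

variable {T U μ : Type*} [CommGroup μ] [Finite μ] {q : ℕ} {τ : T → T} {σ : U → U} {π : T → U}
  {act : μ → T → T} (h : IsTorsor q τ σ π act) {ℓ a : ℕ} (hℓ : ℓ.Prime)
  (hμ : Nat.card μ = ℓ ^ a) (hq : 2 ≤ q) (hqℓ : Nat.Coprime q ℓ) (hU : IsFSet σ)
  (Ω : Type*) [Field Ω] [CharP Ω ℓ]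

include h hμ hℓ hqℓ hq hU

omit [CharP Ω ℓ] in
theorem Ot_zero {m e : ℕ} (hm : 0 < m) [CharP Ω ℓ] (he : ¬ e ∣ oo q Ω m * ℓ ^ a) :
    Ot τ σ π m e = 0 := by
  unfold Ot
  have h1 : IsEmpty {x // minimalPeriod τ x = m * e ∧ minimalPeriod σ (π x) = m} := by
    constructor
    rintro ⟨x, hx1, hx2⟩
    have h2 := per_dvd h hℓ hμ hq hqℓ Ω hm hx2
    rw [hx1] at h2
    exact he (Nat.dvd_of_mul_dvd_mul_left hm h2)
  rw [Nat.card_of_isEmpty, Nat.zero_div]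

theorem Ot_shape {m e : ℕ} (hm : 0 < m) (he : Ot τ σ π m e ≠ 0) :
    e = 1 ∨ oo q Ω m ∣ e := by
  have h1 : Nonempty {x // minimalPeriod τ x = m * e ∧ minimalPeriod σ (π x) = m} := by
    by_contra hne
    rw [not_nonempty_iff] at hne
    apply he
    unfold Ot
    rw [Nat.card_of_isEmpty, Nat.zero_div]
  obtain ⟨x, hx1, hx2⟩ := h1
  exact per_shape h hℓ hμ Ω hx2 hm hx1

theorem local_factor {m : ℕ} (hm : 0 < m) :
    ∏ e ∈ (oo q Ω m * ℓ ^ a).divisors, (1 - (X : Ω⟦X⟧) ^ (m * e)) ^ Ot τ σ π m e =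
      ∏ i ∈ Finset.range (ℓ ^ a), (1 - C (((q ^ m : ℕ) : Ω) ^ i) * X ^ m) ^ Or σ m := by
  have hF : Fact ℓ.Prime := ⟨hℓ⟩
  have hchar : CharP (Ω⟦X⟧) ℓ := charP_of_injective_ringHom (C_injective (R := Ω)) ℓ
  set hh := oo q Ω m with hhdef
  have hh0 : 0 < hh := oo_pos hℓ hqℓ Ω m
  have hne : hh * ℓ ^ a ≠ 0 := (Nat.mul_pos hh0 (pow_pos hℓ.pos a)).ne'
  have hcop : Nat.Coprime hh ℓ := by
    rw [Nat.coprime_comm, Nat.Prime.coprime_iff_not_dvd hℓ]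
    intro h1
    have h2 := h1.trans (oo_dvd hℓ hqℓ Ω m)
    have h3 := Nat.le_of_dvd (by have := hℓ.two_le; omega) h2
    have := hℓ.two_le
    omega
  obtain ⟨c, hc⟩ : hh ∣ ℓ ^ a - 1 := by
    refine (oo_dvd hℓ hqℓ Ω m).trans ?_
    have := Nat.sub_dvd_pow_sub_pow ℓ 1 a
    rwa [one_pow] at this
  have hℓa : ℓ ^ a = hh * c + 1 := by
    have : 1 ≤ ℓ ^ a := Nat.one_le_pow _ _ hℓ.pos
    omega
  rw [Finset.prod_pow]
  have hR : ∏ i ∈ Finset.range (ℓ ^ a), (1 - C (((q ^ m : ℕ) : Ω) ^ i) * (X : Ω⟦X⟧) ^ m) =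
      (1 - X ^ m) * (1 - (X ^ m) ^ hh) ^ c := by
    rw [hℓa]
    exact prod_unity' rfl hh0 c _
  rw [hR]
  have hsum := sum_Ot h hℓ hμ hq hqℓ hU Ω hm
  rw [← hhdef] at hsum
  -- factors with `e` divisible by `hh`
  have hfac : ∀ e ∈ (hh * ℓ ^ a).divisors, hh ∣ e →
      (1 - (X : Ω⟦X⟧) ^ (m * e)) ^ Ot τ σ π m e =
        (1 - (X ^ m) ^ hh) ^ (e / hh * Ot τ σ π m e) := by
    intro e he hd
    obtain ⟨e', rfl⟩ := hd
    have h1 : e' ∣ ℓ ^ a := by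
      have := (Nat.mem_divisors.1 he).1
      exact Nat.dvd_of_mul_dvd_mul_left hh0 this
    obtain ⟨j, _, rfl⟩ := (Nat.dvd_prime_pow hℓ).1 h1
    rw [Nat.mul_div_cancel_left _ hh0, pow_mul (1 - ((X : Ω⟦X⟧) ^ m) ^ hh)]
    congr 1
    have h3 := sub_pow_char_pow (p := ℓ) (n := j) (1 : Ω⟦X⟧) ((X ^ m) ^ hh)
    rw [one_pow, ← pow_mul, ← pow_mul] at h3
    rw [← mul_assoc, ← pow_mul]
    exact h3.symm
  by_cases h1 : hh = 1
  · rw [h1, pow_one, ← pow_succ', ← pow_mul]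
    have h2 : ∏ e ∈ (hh * ℓ ^ a).divisors, (1 - (X : Ω⟦X⟧) ^ (m * e)) ^ Ot τ σ π m e =
        ∏ e ∈ (hh * ℓ ^ a).divisors, (1 - (X : Ω⟦X⟧) ^ m) ^ (e * Ot τ σ π m e) := by
      refine Finset.prod_congr rfl fun e he => ?_
      rw [hfac e he (h1 ▸ one_dvd e), h1, pow_one, Nat.div_one]
    rw [h1] at h2 hsum
    rw [h2, Finset.prod_pow_eq_pow_sum, hsum]
    congr 1
    rw [hℓa, h1, one_mul]
  · have hmem : 1 ∈ (hh * ℓ ^ a).divisors := Nat.mem_divisors.2 ⟨one_dvd _, hne⟩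
    have hO1 : Ot τ σ π m 1 = Or σ m := Ot_one h hℓ hμ hq hqℓ hU Ω hm h1
    rw [← Finset.mul_prod_erase _ _ hmem, mul_one, hO1, mul_pow, ← pow_mul]
    rw [← Finset.add_sum_erase _ _ hmem, hO1, one_mul] at hsum
    congr 1
    have h2 : ∏ e ∈ (hh * ℓ ^ a).divisors.erase 1, (1 - (X : Ω⟦X⟧) ^ (m * e)) ^ Ot τ σ π m e =
        ∏ e ∈ (hh * ℓ ^ a).divisors.erase 1,
          (1 - ((X : Ω⟦X⟧) ^ m) ^ hh) ^ (e / hh * Ot τ σ π m e) := by
      refine Finset.prod_congr rfl fun e he => ?_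
      have he' := Finset.mem_erase.1 he
      by_cases h0 : Ot τ σ π m e = 0
      · rw [h0, mul_zero, pow_zero, pow_zero]
      · exact hfac e he'.2 ((Ot_shape h hℓ hμ hq hqℓ hU Ω hm h0).resolve_left he'.1)
    rw [h2, Finset.prod_pow_eq_pow_sum]
    congr 1
    have h3 : hh * ∑ e ∈ (hh * ℓ ^ a).divisors.erase 1, e / hh * Ot τ σ π m e =
        ∑ e ∈ (hh * ℓ ^ a).divisors.erase 1, e * Ot τ σ π m e := by
      rw [Finset.mul_sum]
      refine Finset.sum_congr rfl fun e he => ?_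
      have he' := Finset.mem_erase.1 he
      by_cases h0 : Ot τ σ π m e = 0
      · rw [h0]; simp
      · rw [← mul_assoc, Nat.mul_div_cancel'
          ((Ot_shape h hℓ hμ hq hqℓ hU Ω hm h0).resolve_left he'.1)]
    have h4 : Or σ m + hh * ∑ e ∈ (hh * ℓ ^ a).divisors.erase 1, e / hh * Ot τ σ π m e =
        ℓ ^ a * Or σ m := by rw [h3]; exact hsum
    have h5 : hh * ∑ e ∈ (hh * ℓ ^ a).divisors.erase 1, e / hh * Ot τ σ π m e =
        hh * (c * Or σ m) := by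
      have h6 : Or σ m + hh * (c * Or σ m) = ℓ ^ a * Or σ m := by rw [hℓa]; ring
      omega
    exact Nat.eq_of_mul_eq_mul_left hh0 h5

/-- **The zeta function of a torsor modulo `ℓ`.** -/
theorem comparison : Ze Ω τ = ∏ i ∈ Finset.range (ℓ ^ a), rescale ((q : Ω) ^ i) (Ze Ω σ) := by
  have hT := h.isFSet hℓ hμ hq hqℓ hU
  refine eq_of_cg fun N => ?_
  set M := N + ℓ * ℓ ^ a with hM
  -- the left hand side
  have hL : Cg N (Ze Ω τ) (∏ m ∈ Finset.Icc 1 N, ∏ e ∈ Finset.Icc 1 M,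
      (1 - (X : Ω⟦X⟧) ^ (m * e)) ^ Ot τ σ π m e) := by
    refine (eul_cg (R := Ω) (Or τ) N).trans ?_
    have h1 : ∏ n ∈ Finset.Icc 1 N, (1 - (X : Ω⟦X⟧) ^ n) ^ Or τ n =
        ∏ n ∈ Finset.Icc 1 N, ∏ p ∈ n.divisorsAntidiagonal,
          (1 - (X : Ω⟦X⟧) ^ (p.1 * p.2)) ^ Ot τ σ π p.1 p.2 := by
      refine Finset.prod_congr rfl fun n hn => ?_
      have hn' := (Finset.mem_Icc.1 hn).1
      rw [Or_eq_sum h hU hT hn', ← Finset.prod_pow_eq_pow_sum,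
        ← Nat.map_div_right_divisors, Finset.prod_map]
      refine Finset.prod_congr rfl fun m hm => ?_
      show _ = (1 - (X : Ω⟦X⟧) ^ (m * (n / m))) ^ Ot τ σ π m (n / m)
      rw [Nat.mul_div_cancel' (Nat.mem_divisors.1 hm).1]
    rw [h1]
    set A := (Finset.Icc 1 N ×ˢ Finset.Icc 1 M) with hA
    rw [← Finset.prod_product', ← hA]
    have h2 : ∏ n ∈ Finset.Icc 1 N, ∏ p ∈ n.divisorsAntidiagonal,
          (1 - (X : Ω⟦X⟧) ^ (p.1 * p.2)) ^ Ot τ σ π p.1 p.2 =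
        ∏ p ∈ A.filter fun p => p.1 * p.2 ≤ N,
          (1 - (X : Ω⟦X⟧) ^ (p.1 * p.2)) ^ Ot τ σ π p.1 p.2 := by
      rw [← Finset.prod_fiberwise_of_maps_to (s := A.filter fun p => p.1 * p.2 ≤ N)
        (t := Finset.Icc 1 N) (g := fun p => p.1 * p.2)]
      · refine Finset.prod_congr rfl fun n hn => ?_
        have hn' := Finset.mem_Icc.1 hn
        refine Finset.prod_congr ?_ fun _ _ => rfl
        ext ⟨x, y⟩
        simp only [Nat.mem_divisorsAntidiagonal, Finset.mem_filter, hA, Finset.mem_product,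
          Finset.mem_Icc]
        constructor
        · rintro ⟨rfl, h0⟩
          have hx : 0 < x := Nat.pos_of_ne_zero fun h => h0 (by rw [h, zero_mul])
          have hy : 0 < y := Nat.pos_of_ne_zero fun h => h0 (by rw [h, mul_zero])
          have h3 : x ≤ x * y := Nat.le_mul_of_pos_right x hy
          have h4 : y ≤ x * y := Nat.le_mul_of_pos_left y hx
          refine ⟨⟨⟨⟨hx, h3.trans hn'.2⟩, hy, ?_⟩, hn'.2⟩, rfl⟩
          exact (h4.trans hn'.2).trans (Nat.le_add_right _ _)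
        · rintro ⟨⟨_, h3⟩, h4⟩
          exact ⟨h4, by omega⟩
      · intro p hp
        simp only [Finset.mem_filter, hA, Finset.mem_product, Finset.mem_Icc] at hp
        rw [Finset.mem_Icc]
        exact ⟨Nat.mul_pos hp.1.1.1 hp.1.2.1, hp.2⟩
    rw [h2, ← Finset.prod_filter_mul_prod_filter_not A (fun p => p.1 * p.2 ≤ N)]
    have h3 : Cg N (∏ p ∈ A.filter fun p => ¬ p.1 * p.2 ≤ N,
        (1 - (X : Ω⟦X⟧) ^ (p.1 * p.2)) ^ Ot τ σ π p.1 p.2)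
        (∏ p ∈ A.filter fun p => ¬ p.1 * p.2 ≤ N, (1 : Ω⟦X⟧)) := by
      refine Cg.prod _ fun p hp => cg_one ?_ _
      exact not_le.1 (Finset.mem_filter.1 hp).2
    rw [Finset.prod_const_one] at h3
    have h4 := (Cg.refl N (∏ p ∈ A.filter fun p => p.1 * p.2 ≤ N,
          (1 - (X : Ω⟦X⟧) ^ (p.1 * p.2)) ^ Ot τ σ π p.1 p.2)).mul h3.symm
    rwa [mul_one] at h4
  refine hL.trans ?_
  -- the local factors
  have h5 : ∀ m ∈ Finset.Icc 1 N, ∏ e ∈ Finset.Icc 1 M,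
      (1 - (X : Ω⟦X⟧) ^ (m * e)) ^ Ot τ σ π m e =
      ∏ i ∈ Finset.range (ℓ ^ a), (1 - C (((q ^ m : ℕ) : Ω) ^ i) * X ^ m) ^ Or σ m := by
    intro m hm
    have hm' := (Finset.mem_Icc.1 hm).1
    rw [← local_factor h hℓ hμ hq hqℓ hU Ω hm']
    symm
    refine Finset.prod_subset ?_ ?_
    · intro e he
      have he' := Nat.mem_divisors.1 he
      rw [Finset.mem_Icc]
      refine ⟨Nat.pos_of_mem_divisors he, ?_⟩
      have h6 := Nat.le_of_dvd (Nat.pos_of_ne_zero he'.2) he'.1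
      have h7 : oo q Ω m ≤ ℓ := by
        have := Nat.le_of_dvd (by have := hℓ.two_le; omega) (oo_dvd hℓ hqℓ Ω m)
        omega
      have h8 : oo q Ω m * ℓ ^ a ≤ ℓ * ℓ ^ a := Nat.mul_le_mul_right _ h7
      omega
    · intro e _ he
      have hne : oo q Ω m * ℓ ^ a ≠ 0 :=
        (Nat.mul_pos (oo_pos hℓ hqℓ Ω m) (pow_pos hℓ.pos a)).ne'
      have h6 : ¬ e ∣ oo q Ω m * ℓ ^ a := fun h7 => he (Nat.mem_divisors.2 ⟨h7, hne⟩)
      rw [Ot_zero h hℓ hμ hq hqℓ hU Ω hm' h6, pow_zero]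
  rw [Finset.prod_congr rfl h5, Finset.prod_comm]
  refine Cg.prod _ fun i _ => ?_
  have h6 : rescale ((q : Ω) ^ i) (∏ m ∈ Finset.Icc 1 N, (1 - (X : Ω⟦X⟧) ^ m) ^ Or σ m) =
      ∏ m ∈ Finset.Icc 1 N, (1 - C (((q ^ m : ℕ) : Ω) ^ i) * X ^ m) ^ Or σ m := by
    rw [map_prod]
    refine Finset.prod_congr rfl fun m _ => ?_
    rw [map_pow, map_sub, map_one, map_pow, rescale_X, mul_pow, ← map_pow]
    congr 4
    push_cast
    rw [← pow_mul, ← pow_mul, mul_comm]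
  rw [← h6]
  have h7 := eul_cg (R := Ω) (Or σ) N
  rw [cg_iff] at h7 ⊢
  intro j hj
  rw [coeff_rescale, coeff_rescale, ← h7 j hj]
  rfl

end comp

end Pool.Agent.H856.JN
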