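import Pool.Agent.H856.JN.Main

/-!
Consequences: which eigenvalues of the join are powers of `q` modulo `ℓ`.
-/

set_option autoImplicit false
set_option linter.unusedSectionVars false

open Function MvPolynomial

namespace Pool.Agent.H856.JN

/-- `x` is modulo `ℓ` (that is, after the reduction `φ`) a power of `q` -/
def IsQPower (q : ℕ) {A Ω : Type} [CommRing A] [CommRing Ω] (φ : A →+* Ω) (x : A) : Prop :=
  ∃ j : ℕ, φ x = (q : Ω) ^ j

section powers

variable {q : ℕ} {Ω : Type} [Field Ω] {ℓ : ℕ} [CharP Ω ℓ]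

/-- the powers of `q` in `Ω` -/
def PP (q : ℕ) (Ω : Type) [Field Ω] (x : Ω) : Prop := ∃ j : ℕ, x = (q : Ω) ^ j

theorem q_pow (hℓ : ℓ.Prime) (hq : Nat.Coprime q ℓ) : ((q : ℕ) : Ω) ^ (ℓ - 1) = 1 := by
  have h2 := Nat.ModEq.pow_totient hq
  rw [Nat.totient_prime hℓ] at h2
  have h3 := (CharP.natCast_eq_natCast Ω ℓ).2 h2
  push_cast at h3
  exact h3

theorem q_ne (hℓ : ℓ.Prime) (hq : Nat.Coprime q ℓ) : ((q : ℕ) : Ω) ≠ 0 := by
  intro h0
  have h1 := q_pow (Ω := Ω) hℓ hq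
  have h2 : ℓ - 1 ≠ 0 := by have := hℓ.two_le; omega
  rw [h0, zero_pow h2] at h1
  exact zero_ne_one h1

theorem PP.ne (hℓ : ℓ.Prime) (hq : Nat.Coprime q ℓ) {x : Ω} (h : PP q Ω x) : x ≠ 0 := by
  obtain ⟨j, rfl⟩ := h
  exact pow_ne_zero _ (q_ne hℓ hq)

theorem PP.mul {x y : Ω} (hx : PP q Ω x) (hy : PP q Ω y) : PP q Ω (x * y) := by
  obtain ⟨i, rfl⟩ := hx
  obtain ⟨j, rfl⟩ := hy
  exact ⟨i + j, (pow_add _ _ _).symm⟩

theorem PP.pow {x : Ω} (hx : PP q Ω x) (n : ℕ) : PP q Ω (x ^ n) := by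
  obtain ⟨i, rfl⟩ := hx
  exact ⟨i * n, (pow_mul _ _ _).symm⟩

theorem PP.inv (hℓ : ℓ.Prime) (hq : Nat.Coprime q ℓ) {x : Ω} (hx : PP q Ω x) :
    PP q Ω x⁻¹ := by
  obtain ⟨i, rfl⟩ := hx
  refine ⟨(ℓ - 2) * i, ?_⟩
  rw [pow_mul]
  have h1 := q_pow (Ω := Ω) hℓ hq
  have h2 : ℓ - 1 = (ℓ - 2) + 1 := by have := hℓ.two_le; omega
  rw [h2, pow_succ] at h1
  rw [← inv_pow]
  congr 1
  exact (eq_inv_of_mul_eq_one_left h1).symm

theorem PP.of_mul (hℓ : ℓ.Prime) (hq : Nat.Coprime q ℓ) {x y : Ω} (hx : PP q Ω x)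
    (hxy : PP q Ω (x * y)) : PP q Ω y := by
  have h1 := (hx.inv hℓ hq).mul hxy
  rwa [← mul_assoc, inv_mul_cancel₀ (hx.ne hℓ hq), one_mul] at h1

theorem PP_q_mul (hℓ : ℓ.Prime) (hq : Nat.Coprime q ℓ) (e : ℕ) (x : Ω) :
    PP q Ω ((q : Ω) ^ e * x) ↔ PP q Ω x :=
  ⟨fun h => PP.of_mul hℓ hq ⟨e, rfl⟩ h, fun h => PP.mul ⟨e, rfl⟩ h⟩

end powers

section prods

variable {Ω : Type} [Field Ω]

theorem prod_Em {ι : Type} (s : Finset ι) (f : ι → Multiset Ω) :
    ∏ i ∈ s, Em (f i) = Em (∑ i ∈ s, f i) := by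
  classical
  induction s using Finset.induction_on with
  | empty => simp [Em]
  | insert a s ha ih => rw [Finset.prod_insert ha, Finset.sum_insert ha, Em_add, ih]

theorem countP_sum {ι : Type} (s : Finset ι) (f : ι → Multiset Ω) (P : Ω → Prop)
    [DecidablePred P] : (∑ i ∈ s, f i).countP P = ∑ i ∈ s, (f i).countP P := by
  classical
  induction s using Finset.induction_on with
  | empty => simp
  | insert a s ha ih => rw [Finset.sum_insert ha, Finset.sum_insert ha, Multiset.countP_add, ih]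

end prods

section main

variable {k : Type} [Field k] [Finite k] {ι ι' : Type} [Fintype ι] [Fintype ι'] [Nonempty ι]
  [Nonempty ι'] {A : Type} [CommRing A] [IsDomain A] [CharZero A] {ℓ a : ℕ} (hℓ : ℓ.Prime)
  (hk : (ℓ : k) ≠ 0) {F : MvPolynomial ι k} (hF : F.IsHomogeneous (ℓ ^ a))
  {G : MvPolynomial ι' k} (hG : G.IsHomogeneous (ℓ ^ a)) {α β' ρ : Multiset A} {b₀ : A}
  (hα : IsSpectrum F α) (hβ : IsSpectrum G (b₀ ::ₘ β'))
  (hρ : IsSpectrum (joinForm F G)
    ((mprod α (b₀ ::ₘ β')).map (fun x => (Nat.card k : A) * x) + ρ))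
  {Ω : Type} [Field Ω] [CharP Ω ℓ] (φ : A →+* Ω)
  (h0 : IsQPower (Nat.card k) φ b₀) (h1 : ∀ b ∈ β', ¬ IsQPower (Nat.card k) φ b)
  (h2 : ∀ x ∈ α, ∀ b ∈ β', ¬ IsQPower (Nat.card k) φ (x * b))

include hℓ hk hF hG hα hβ hρ h0 h1 h2 in
/-- no other eigenvalue is a power of `q` modulo `ℓ` -/
theorem rest_not_power : ∀ r ∈ ρ, ¬ IsQPower (Nat.card k) φ r := by
  classical
  have hq := coprime_card hℓ hk
  have hid := identity hℓ hk hF hG hα hβ hρ φ
  simp only [← Em_add, prod_Em] at hid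
  have hc := Em_count hid (P := PP (Nat.card k) Ω) fun x hx => hx.ne hℓ hq
  rw [Multiset.countP_add, countP_sum, countP_sum] at hc
  simp only [Multiset.countP_add] at hc
  have hmap : ∀ (γ : Multiset Ω) (e : ℕ),
      (γ.map fun x => (Nat.card k : Ω) ^ e * x).countP (PP (Nat.card k) Ω) =
        γ.countP (PP (Nat.card k) Ω) := by
    intro γ e
    rw [Multiset.countP_map, ← Multiset.countP_eq_card_filter]
    exact Multiset.countP_congr rfl fun x _ => by rw [PP_q_mul hℓ hq]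
  have hone : ∀ e : ℕ, ({(Nat.card k : Ω) ^ e} : Multiset Ω).countP (PP (Nat.card k) Ω) = 1 := by
    intro e
    have : ({(Nat.card k : Ω) ^ e} : Multiset Ω) = (Nat.card k : Ω) ^ e ::ₘ 0 := rfl
    rw [this, Multiset.countP_cons_of_pos _ ⟨e, rfl⟩, Multiset.countP_zero]
  have hβ0 : (((b₀ ::ₘ β').map φ).countP (PP (Nat.card k) Ω)) = 1 := by
    rw [Multiset.map_cons, Multiset.countP_cons_of_pos (p := PP (Nat.card k) Ω) _ h0]
    have : (β'.map φ).countP (PP (Nat.card k) Ω) = 0 := by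
      rw [Multiset.countP_eq_zero]
      intro x hx hP
      obtain ⟨b, hb, rfl⟩ := Multiset.mem_map.1 hx
      exact h1 b hb hP
    rw [this]
  have hprod : (mprod (α.map φ) ((b₀ ::ₘ β').map φ)).countP (PP (Nat.card k) Ω) =
      (α.map φ).countP (PP (Nat.card k) Ω) := by
    rw [countP_mprod, hβ0, mul_one]
    intro x' hx' y' hy'
    obtain ⟨x, hx, rfl⟩ := Multiset.mem_map.1 hx'
    obtain ⟨y, hy, rfl⟩ := Multiset.mem_map.1 hy'
    rcases Multiset.mem_cons.1 hy with rfl | hy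
    · constructor
      · intro h
        exact ⟨PP.of_mul hℓ hq h0 (by rwa [mul_comm]), h0⟩
      · exact fun h => h.1.mul h.2
    · constructor
      · intro h
        refine absurd ?_ (h2 x hx y hy)
        obtain ⟨j, hj⟩ := h
        exact ⟨j, by rw [map_mul, hj]⟩
      · exact fun h => absurd h.2 (h1 y hy)
  simp only [hmap, hone, hβ0, hprod, Finset.sum_const, Finset.card_range, smul_eq_mul] at hc
  have h3 : (ρ.map φ).countP (PP (Nat.card k) Ω) = 0 := by
    rw [add_comm 1] at hc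
    omega
  intro r hr hP
  rw [Multiset.countP_eq_zero] at h3
  exact h3 (φ r) (Multiset.mem_map_of_mem φ hr) hP

include hℓ hk hF hG hα hβ hρ h0 h1 h2 in
/-- the other eigenvalues modulo `ℓ` -/
theorem rest_mem : ∀ r ∈ ρ, φ r = 0 ∨ ∃ x ∈ α, ∃ b ∈ b₀ ::ₘ β', ∃ j : ℕ,
    φ r = (Nat.card k : Ω) ^ j * (φ x * φ b) := by
  intro r hr
  by_cases hr0 : φ r = 0
  · exact Or.inl hr0
  refine Or.inr ?_
  have hid := identity hℓ hk hF hG hα hβ hρ φ
  simp only [← Em_add, prod_Em] at hid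
  have h3 := Em_mem hid (x := φ r)
    (Multiset.mem_add.2 (Or.inl (Multiset.mem_map_of_mem φ hr))) hr0
  obtain ⟨i, _, hi⟩ := Multiset.mem_sum.1 h3
  rcases Multiset.mem_add.1 hi with h4 | h4
  · rw [Multiset.mem_singleton] at h4
    exact absurd ⟨_, h4⟩
      (rest_not_power hℓ hk hF hG hα hβ hρ φ h0 h1 h2 r hr)
  · obtain ⟨x, hx, hx'⟩ := Multiset.mem_map.1 h4
    obtain ⟨y', hy', z', hz', rfl⟩ := mem_mprod.1 hx
    obtain ⟨y, hy, rfl⟩ := Multiset.mem_map.1 hy'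
    obtain ⟨z, hz, rfl⟩ := Multiset.mem_map.1 hz'
    exact ⟨y, hy, z, hz, i + 1, hx'.symm⟩

open Classical in
include hℓ hk hF hG hα hβ hρ h1 h2 in
/-- the multiplicity of the eigenvalue of the Tate classes -/
theorem count_join {c' : ℕ} (hb : b₀ = (Nat.card k : A) ^ c') (c : ℕ) :
    ((mprod α (b₀ ::ₘ β')).map (fun x => (Nat.card k : A) * x) + ρ).count
      ((Nat.card k : A) ^ (c + c' + 1)) = α.count ((Nat.card k : A) ^ c) := by
  have h0 : IsQPower (Nat.card k) φ b₀ := ⟨c', by rw [hb, map_pow, map_natCast]⟩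
  have hrest := rest_not_power hℓ hk hF hG hα hβ hρ φ h0 h1 h2
  rw [Multiset.count_add]
  have h3 : ρ.count ((Nat.card k : A) ^ (c + c' + 1)) = 0 := by
    rw [Multiset.count_eq_zero]
    intro h
    exact hrest _ h ⟨c + c' + 1, by rw [map_pow, map_natCast]⟩
  rw [h3, add_zero]
  have hq0 : (Nat.card k : A) ≠ 0 := Nat.cast_ne_zero.2 Nat.card_pos.ne'
  have h4 : (mprod α (b₀ ::ₘ β')) = α.map (fun x => x * b₀) + mprod α β' := by
    clear hα hβ hρ h2 hrest
    induction α using Multiset.induction_on with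
    | empty => simp [mprod]
    | cons x α ih =>
      rw [mprod_cons, mprod_cons, ih, Multiset.map_cons, Multiset.map_cons, Multiset.cons_add,
        Multiset.cons_add]
      congr 1
      rw [← add_assoc, ← add_assoc, add_comm (Multiset.map (fun b => x * b) β')]
  rw [h4, Multiset.map_add, Multiset.count_add, Multiset.map_map]
  have h5 : ((mprod α β').map fun x => (Nat.card k : A) * x).count
      ((Nat.card k : A) ^ (c + c' + 1)) = 0 := by
    rw [Multiset.count_eq_zero]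
    intro h
    obtain ⟨x, hx, hx'⟩ := Multiset.mem_map.1 h
    obtain ⟨y, hy, z, hz, rfl⟩ := mem_mprod.1 hx
    apply h2 y hy z hz
    refine ⟨c + c', ?_⟩
    rw [pow_succ'] at hx'
    rw [mul_left_cancel₀ hq0 hx', map_pow, map_natCast]
  rw [h5, add_zero]
  have hinj : Injective ((fun x => (Nat.card k : A) * x) ∘ fun x => x * b₀) := by
    intro x y hxy
    have h6 : (Nat.card k : A) * (x * b₀) = (Nat.card k : A) * (y * b₀) := hxy
    exact mul_right_cancel₀ (by rw [hb]; exact pow_ne_zero _ hq0) (mul_left_cancel₀ hq0 h6)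
  have h6 : (Nat.card k : A) ^ (c + c' + 1) =
      ((fun x => (Nat.card k : A) * x) ∘ fun x => x * b₀) ((Nat.card k : A) ^ c) := by
    show _ = (Nat.card k : A) * ((Nat.card k : A) ^ c * b₀)
    rw [hb]
    ring
  rw [h6, Multiset.count_map_eq_count' _ _ hinj]

end main

end Pool.Agent.H856.JN
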