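import Pool.Agent.H856.JN.Tors

/-!
Numbers of orbits on a torsor.
-/

set_option autoImplicit false

open PowerSeries Function

namespace Pool.Agent.H856.JN

/-- the number of orbits of length `m e` above orbits of length `m` -/
noncomputable def Ot {T U : Type*} (τ : T → T) (σ : U → U) (π : T → U) (m e : ℕ) : ℕ :=
  Nat.card {x // minimalPeriod τ x = m * e ∧ minimalPeriod σ (π x) = m} / (m * e)

section count

variable {T U μ : Type*} [CommGroup μ] {q : ℕ} {τ : T → T} {σ : U → U} {π : T → U}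
  {act : μ → T → T} (h : IsTorsor q τ σ π act) {ℓ a : ℕ} (hℓ : ℓ.Prime)
  (hμ : Nat.card μ = ℓ ^ a) (hq : 2 ≤ q) (hqℓ : Nat.Coprime q ℓ) (hU : IsFSet σ)
  (Ω : Type*) [Field Ω] [CharP Ω ℓ]

include hℓ hqℓ in
theorem cast_ne (m : ℕ) : ((q ^ m : ℕ) : Ω) ≠ 0 := by
  intro h0
  rw [CharP.cast_eq_zero_iff Ω ℓ] at h0
  have h1 : ℓ ∣ q := hℓ.dvd_of_dvd_pow h0
  have h2 : ℓ ∣ Nat.gcd q ℓ := Nat.dvd_gcd h1 dvd_rfl
  rw [hqℓ.gcd_eq_one] at h2
  exact hℓ.one_lt.ne' (Nat.dvd_one.1 h2)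

/-- the order of `q ^ m` modulo `ℓ` -/
noncomputable def oo (q : ℕ) (Ω : Type*) [Field Ω] (m : ℕ) : ℕ := orderOf ((q ^ m : ℕ) : Ω)

include hℓ hqℓ in
theorem oo_dvd (m : ℕ) : oo q Ω m ∣ ℓ - 1 := by
  unfold oo
  refine orderOf_dvd_of_pow_eq_one ?_
  have h1 : Nat.Coprime (q ^ m) ℓ := hqℓ.pow_left m
  have h2 := Nat.ModEq.pow_totient h1
  rw [Nat.totient_prime hℓ] at h2
  have h3 := (CharP.natCast_eq_natCast Ω ℓ).2 h2
  push_cast at h3 ⊢
  exact h3

include hℓ hqℓ in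
theorem oo_pos (m : ℕ) : 0 < oo q Ω m :=
  Nat.pos_of_dvd_of_pos (oo_dvd hℓ hqℓ Ω m) (by have := hℓ.two_le; omega)

theorem oo_spec (m : ℕ) (n : ℕ) : (q ^ m) ^ n ≡ 1 [MOD ℓ] ↔ oo q Ω m ∣ n := by
  unfold oo
  rw [orderOf_dvd_iff_pow_eq_one, ← CharP.natCast_eq_natCast Ω ℓ]
  push_cast
  rfl

include hℓ hqℓ hq in
theorem dvd_Sm' {m : ℕ} (hm : 0 < m) : ℓ ^ a ∣ Sm (q ^ m) (oo q Ω m * ℓ ^ a) := by
  have h2 : 2 ≤ q ^ m := hq.trans (Nat.le_self_pow hm.ne' q)
  rw [Sm_mul h2]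
  refine Dvd.dvd.mul_left ?_ _
  refine dvd_Sm ?_ ((oo_spec Ω m _).2 dvd_rfl) a
  exact h2.trans (Nat.le_self_pow (oo_pos hℓ hqℓ Ω m).ne' _)

include h hμ hℓ hqℓ hq in
theorem per_dvd {m : ℕ} (hm : 0 < m) {x : T} (hx : minimalPeriod σ (π x) = m) :
    minimalPeriod τ x ∣ m * (oo q Ω m * ℓ ^ a) := by
  obtain ⟨ξ, hξ⟩ := h.exists_xi hx
  refine IsPeriodicPt.minimalPeriod_dvd ?_
  show τ^[m * (oo q Ω m * ℓ ^ a)] x = x
  rw [h.iter_fix hξ]
  obtain ⟨c, hc⟩ := dvd_Sm' (a := a) hℓ hq hqℓ Ω hm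
  rw [hc, pow_mul, ← hμ, pow_card_eq_one', one_pow]

include h hμ hℓ hqℓ hq hU in
theorem IsTorsor.isFSet [Finite μ] : IsFSet τ := by
  constructor
  · intro x
    have hm := hU.pos (π x)
    refine minimalPeriod_pos_iff_mem_periodicPts.1 ?_
    have hF : Fact ℓ.Prime := ⟨hℓ⟩
    refine Nat.pos_of_dvd_of_pos
      (per_dvd (Ω := ZMod ℓ) h hℓ hμ hq hqℓ hm rfl) ?_
    exact Nat.mul_pos hm (Nat.mul_pos (oo_pos hℓ hqℓ (ZMod ℓ) _) (pow_pos hℓ.pos a))
  · intro n hn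
    have h1 : {x | τ^[n] x = x} ⊆ π ⁻¹' {u | σ^[n] u = u} := by
      intro x hx
      show σ^[n] (π x) = π x
      rw [← h.iter_comm, show τ^[n] x = x from hx]
    refine Set.Finite.subset ?_ h1
    refine Set.Finite.preimage' (hU.fin n hn) fun u _ => ?_
    obtain ⟨x, rfl⟩ := h.surj u
    refine (Set.finite_range fun a => act a x).subset ?_
    intro y hy
    obtain ⟨b, hb⟩ := h.trans x y (Eq.symm hy)
    exact ⟨b, hb⟩

include h hμ hℓ in
/-- the possible lengths -/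
theorem per_shape {m e : ℕ} {x : T} (hx : minimalPeriod σ (π x) = m)
    (hm : 0 < m) (he : minimalPeriod τ x = m * e) : e = 1 ∨ oo q Ω m ∣ e := by
  by_cases h1 : e = 1
  · exact Or.inl h1
  refine Or.inr ?_
  obtain ⟨ξ, hξ⟩ := h.exists_xi hx
  have h2 : ξ ^ Sm (q ^ m) e = 1 := by
    rw [← h.iter_fix hξ, ← he, iterate_minimalPeriod]
  have h3 : ξ ≠ 1 := by
    rintro rfl
    apply h1
    rw [h.one] at hξ
    have h4 : IsPeriodicPt τ m x := hξ.symm
    have h5 := h4.minimalPeriod_dvd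
    rw [he] at h5
    have h6 : m * e ∣ m * 1 := by rwa [mul_one]
    exact Nat.dvd_one.1 (Nat.dvd_of_mul_dvd_mul_left hm h6)
  have h4 : orderOf ξ ∣ Nat.card μ := orderOf_dvd_natCard ξ
  rw [hμ] at h4
  obtain ⟨j, _, hj⟩ := (Nat.dvd_prime_pow hℓ).1 h4
  have h5 : j ≠ 0 := by
    rintro rfl
    rw [pow_zero] at hj
    exact h3 (orderOf_eq_one_iff.1 hj)
  have h6 : ℓ ∣ Sm (q ^ m) e := by
    refine dvd_trans ?_ (orderOf_dvd_of_pow_eq_one h2)
    rw [hj]
    exact dvd_pow_self ℓ h5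
  exact (oo_spec Ω m e).1 (modEq_of_dvd_Sm h6)

include h hU in
theorem card_Ot {m e : ℕ} (hm : 0 < m) (he : 0 < e) (hT : IsFSet τ) :
    Nat.card {x // minimalPeriod τ x = m * e ∧ minimalPeriod σ (π x) = m} =
      m * e * Ot τ σ π m e := by
  unfold Ot
  rw [Nat.mul_div_cancel']
  refine dvd_natCard (σ := τ) (Nat.mul_pos hm he) _ ?_ ?_ fun x hx => hx.1
  · exact (hT.fin_per (Nat.mul_pos hm he)).subset fun x hx => hx.1
  · intro x hx
    refine ⟨?_, ?_⟩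
    · rw [minimalPeriod_apply (hT.per x)]
      exact hx.1
    · rw [h.comm, minimalPeriod_apply (hU.per _)]
      exact hx.2

include h hU in
theorem Or_eq_sum (hT : IsFSet τ) {n : ℕ} (hn : 0 < n) :
    Or τ n = ∑ m ∈ n.divisors, Ot τ σ π m (n / m) := by
  have h1 := hT.card_per hn
  rw [card_eq_sum _ (hT.fin_per hn) (fun x => minimalPeriod σ (π x)) n.divisors] at h1
  · have h2 : ∀ m ∈ n.divisors, Nat.card {x // minimalPeriod τ x = n ∧
        minimalPeriod σ (π x) = m} = n * Ot τ σ π m (n / m) := by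
      intro m hm
      have hm' := (Nat.mem_divisors.1 hm).1
      have hmn : m * (n / m) = n := Nat.mul_div_cancel' hm'
      have hm0 : 0 < m := Nat.pos_of_dvd_of_pos hm' hn
      have h3 := card_Ot h hU hm0 (Nat.div_pos (Nat.le_of_dvd hn hm') hm0) hT
      rw [hmn] at h3
      exact h3
    rw [Finset.sum_congr rfl h2, ← Finset.mul_sum] at h1
    exact (Nat.eq_of_mul_eq_mul_left hn h1).symm
  · intro x hx
    rw [Nat.mem_divisors]
    refine ⟨?_, hn.ne'⟩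
    rw [← hx]
    exact h.dvd x

include h in
theorem card_fib {m : ℕ} : Nat.card {x // minimalPeriod σ (π x) = m} =
    Nat.card {u // minimalPeriod σ u = m} * Nat.card μ := by
  rw [← Nat.card_prod]
  have hs : ∀ u, π (surjInv h.surj u) = u := fun u => surjInv_eq h.surj u
  refine Nat.card_congr ?_
  refine (((h.equiv _ hs).subtypeEquiv (p := fun p : U × μ => minimalPeriod σ p.1 = m) ?_).symm).trans
    ?_
  · intro p
    show _ ↔ minimalPeriod σ (π (act p.2 _)) = m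
    rw [h.fib, hs]
  · exact Equiv.prodSubtypeFstEquivSubtypeProd (p := fun u => minimalPeriod σ u = m)

include h hμ hℓ hqℓ hq hU in
theorem sum_Ot [Finite μ] {m : ℕ} (hm : 0 < m) :
    ∑ e ∈ (oo q Ω m * ℓ ^ a).divisors, e * Ot τ σ π m e = ℓ ^ a * Or σ m := by
  have hT := h.isFSet hℓ hμ hq hqℓ hU
  have h1 := card_fib h (m := m)
  rw [hU.card_per hm, hμ] at h1
  have hne : oo q Ω m * ℓ ^ a ≠ 0 := (Nat.mul_pos (oo_pos hℓ hqℓ Ω m) (pow_pos hℓ.pos a)).ne'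
  have hfin : {x | minimalPeriod σ (π x) = m}.Finite := by
    refine (hT.fin (m * (oo q Ω m * ℓ ^ a)) (Nat.mul_pos hm (Nat.pos_of_ne_zero hne))).subset ?_
    intro x hx
    have h2 : IsPeriodicPt τ (m * (oo q Ω m * ℓ ^ a)) x :=
      isPeriodicPt_iff_minimalPeriod_dvd.2 (per_dvd h hℓ hμ hq hqℓ Ω hm hx)
    exact h2
  rw [card_eq_sum _ hfin (fun x => minimalPeriod τ x / m) (oo q Ω m * ℓ ^ a).divisors] at h1
  · have h2 : ∀ e ∈ (oo q Ω m * ℓ ^ a).divisors, Nat.card {x // minimalPeriod σ (π x) = m ∧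
        minimalPeriod τ x / m = e} = m * (e * Ot τ σ π m e) := by
      intro e he
      have he0 : 0 < e := Nat.pos_of_mem_divisors he
      rw [← mul_assoc, ← card_Ot h hU hm he0 hT]
      refine Nat.card_congr (Equiv.subtypeEquivRight fun x => ?_)
      constructor
      · rintro ⟨hx1, hx2⟩
        refine ⟨?_, hx1⟩
        rw [← hx2, Nat.mul_div_cancel']
        rw [← hx1]
        exact h.dvd x
      · rintro ⟨hx1, hx2⟩
        refine ⟨hx2, ?_⟩
        rw [hx1, Nat.mul_div_cancel_left _ hm]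
    rw [Finset.sum_congr rfl h2, ← Finset.mul_sum] at h1
    refine Nat.eq_of_mul_eq_mul_left hm ?_
    rw [h1]
    ring
  · intro x hx
    rw [Nat.mem_divisors]
    refine ⟨?_, hne⟩
    have h3 := per_dvd h hℓ hμ hq hqℓ Ω hm hx
    have h4 : m ∣ minimalPeriod τ x := hx ▸ h.dvd x
    rw [← Nat.mul_div_cancel' h4] at h3
    exact Nat.dvd_of_mul_dvd_mul_left hm h3

include h hμ hℓ hqℓ hq hU in
theorem Ot_one [Finite μ] {m : ℕ} (hm : 0 < m) (hne : oo q Ω m ≠ 1) :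
    Ot τ σ π m 1 = Or σ m := by
  have hT := h.isFSet hℓ hμ hq hqℓ hU
  have h1 := card_Ot h hU hm one_pos hT
  rw [mul_one] at h1
  refine Nat.eq_of_mul_eq_mul_left hm ?_
  rw [← h1, ← hU.card_per hm]
  refine Nat.card_eq_of_bijective
    (fun x : {x // minimalPeriod τ x = m ∧ minimalPeriod σ (π x) = m} =>
      (⟨π x.1, x.2.2⟩ : {u // minimalPeriod σ u = m})) ⟨?_, ?_⟩
  · rintro ⟨x, hx1, hx2⟩ ⟨y, hy1, hy2⟩ hxy
    have hxy' : π x = π y := congrArg Subtype.val hxy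
    obtain ⟨b, hb⟩ := h.trans x y hxy'
    have hτx : τ^[m] x = x := by rw [← hx1, iterate_minimalPeriod]
    have hτy : τ^[m] y = y := by
      conv_lhs => rw [← hy1]
      exact iterate_minimalPeriod
    have h2 : act (b ^ q ^ m) x = act b x := by
      have := h.iter_frob m b x
      rw [hb, hτy, hτx] at this
      rw [← this, hb]
    have h3 := h.inj h2
    have h2le : 1 ≤ q ^ m := Nat.one_le_pow _ _ (by omega)
    have h4 : b ^ (q ^ m - 1) = 1 := by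
      have h5 : b ^ (q ^ m - 1) * b = 1 * b := by
        rw [← pow_succ, Nat.sub_add_cancel h2le, one_mul]
        exact h3
      exact mul_right_cancel h5
    have h5 : b ^ (ℓ ^ a) = 1 := by rw [← hμ]; exact pow_card_eq_one'
    have h6 : Nat.Coprime (q ^ m - 1) (ℓ ^ a) := by
      refine Nat.Coprime.pow_right a ?_
      rw [Nat.coprime_comm, Nat.Prime.coprime_iff_not_dvd hℓ]
      intro h7
      apply hne
      have h8 : q ^ m ≡ 1 [MOD ℓ] := ((Nat.modEq_iff_dvd' h2le).2 h7).symm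
      have h9 := (oo_spec (q := q) Ω m 1).1 (by rwa [pow_one])
      exact Nat.dvd_one.1 h9
    have h7 : b = 1 := by
      have h8 := Nat.dvd_gcd (orderOf_dvd_of_pow_eq_one h4) (orderOf_dvd_of_pow_eq_one h5)
      rw [h6.gcd_eq_one] at h8
      exact orderOf_eq_one_iff.1 (Nat.dvd_one.1 h8)
    rw [h7, h.one] at hb
    exact Subtype.ext hb
  · rintro ⟨u, hu⟩
    obtain ⟨x, rfl⟩ := h.surj u
    obtain ⟨ξ, hξ⟩ := h.exists_xi hu
    have h2le : 1 ≤ q ^ m := Nat.one_le_pow _ _ (by omega)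
    have h6 : (Nat.card μ).Coprime (q ^ m - 1) := by
      rw [hμ]
      refine Nat.Coprime.pow_left a ?_
      rw [Nat.Prime.coprime_iff_not_dvd hℓ]
      intro h7
      apply hne
      have h8 : q ^ m ≡ 1 [MOD ℓ] := ((Nat.modEq_iff_dvd' h2le).2 h7).symm
      have h9 := (oo_spec (q := q) Ω m 1).1 (by rwa [pow_one])
      exact Nat.dvd_one.1 h9
    set ζ := (powCoprime h6).symm ξ⁻¹ with hζ
    have h7 : ζ ^ (q ^ m - 1) = ξ⁻¹ := (powCoprime h6).apply_symm_apply ξ⁻¹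
    have h8 : τ^[m] (act ζ x) = act ζ x := by
      rw [h.iter_frob, ← hξ, ← h.mul]
      congr 1
      have h9 : ζ ^ q ^ m = ζ ^ (q ^ m - 1) * ζ := by
        rw [← pow_succ, Nat.sub_add_cancel h2le]
      rw [h9, h7, mul_comm, mul_comm ξ⁻¹ ζ, ← mul_assoc, mul_comm ξ ζ, mul_assoc,
        mul_inv_cancel, mul_one]
    have h9 : minimalPeriod σ (π (act ζ x)) = m := by rw [h.fib]; exact hu
    refine ⟨⟨act ζ x, ?_, h9⟩, ?_⟩
    · refine Nat.dvd_antisymm ?_ ?_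
      · have : IsPeriodicPt τ m (act ζ x) := h8
        exact this.minimalPeriod_dvd
      · have := h.dvd (act ζ x)
        rwa [h9] at this
    · exact Subtype.ext (h.fib _ _)

end count

end Pool.Agent.H856.JN
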