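import Mathlib

/-!
Euler products `∏ (1 - X ^ m) ^ (o m)` as power series, their logarithmic derivatives, and the
products `∏ (1 - a X)` over multisets.
-/

set_option autoImplicit false

open PowerSeries

namespace Pool.Agent.H856.JN

section cg

variable {R : Type*} [CommRing R]

/-- congruence modulo `X ^ (n + 1)` -/
def Cg (n : ℕ) (f g : R⟦X⟧) : Prop := (X : R⟦X⟧) ^ (n + 1) ∣ f - g

theorem Cg.refl (n : ℕ) (f : R⟦X⟧) : Cg n f f := by simp [Cg]

theorem Cg.of_eq {n : ℕ} {f g : R⟦X⟧} (h : f = g) : Cg n f g := h ▸ Cg.refl n f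

theorem Cg.symm {n : ℕ} {f g : R⟦X⟧} (h : Cg n f g) : Cg n g f := by
  have := (dvd_neg (a := (X : R⟦X⟧) ^ (n + 1))).2 h
  rwa [neg_sub] at this

theorem Cg.trans {n : ℕ} {f g h : R⟦X⟧} (h1 : Cg n f g) (h2 : Cg n g h) : Cg n f h := by
  have := dvd_add h1 h2
  rwa [sub_add_sub_cancel] at this

theorem Cg.mul {n : ℕ} {f g f' g' : R⟦X⟧} (h1 : Cg n f g) (h2 : Cg n f' g') :
    Cg n (f * f') (g * g') := by
  have h := dvd_add (h1.mul_right f') (h2.mul_left g)
  unfold Cg
  convert h using 1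
  ring

theorem Cg.prod {n : ℕ} {ι : Type*} (s : Finset ι) {f g : ι → R⟦X⟧}
    (h : ∀ i ∈ s, Cg n (f i) (g i)) : Cg n (∏ i ∈ s, f i) (∏ i ∈ s, g i) := by
  classical
  induction s using Finset.induction_on with
  | empty => simpa using Cg.refl n _
  | insert a s ha ih =>
    rw [Finset.prod_insert ha, Finset.prod_insert ha]
    exact (h a (Finset.mem_insert_self _ _)).mul
      (ih fun i hi => h i (Finset.mem_insert_of_mem hi))

theorem Cg.pow {n : ℕ} {f g : R⟦X⟧} (h : Cg n f g) (e : ℕ) : Cg n (f ^ e) (g ^ e) := by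
  induction e with
  | zero => simpa using Cg.refl n _
  | succ e ih => rw [pow_succ, pow_succ]; exact ih.mul h

theorem cg_iff {n : ℕ} {f g : R⟦X⟧} : Cg n f g ↔ ∀ i ≤ n, coeff i f = coeff i g := by
  unfold Cg
  rw [X_pow_dvd_iff]
  constructor
  · intro h i hi
    have := h i (by omega)
    rwa [map_sub, sub_eq_zero] at this
  · intro h i hi
    rw [map_sub, h i (by omega), sub_self]

theorem eq_of_cg {f g : R⟦X⟧} (h : ∀ n, Cg n f g) : f = g := by
  ext n
  exact cg_iff.1 (h n) n le_rfl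

theorem cg_one {n m : ℕ} (h : n < m) (e : ℕ) : Cg n ((1 - (X : R⟦X⟧) ^ m) ^ e) 1 := by
  have h1 : Cg n (1 - (X : R⟦X⟧) ^ m) 1 := by
    unfold Cg
    have : (X : R⟦X⟧) ^ (n + 1) ∣ X ^ m := pow_dvd_pow _ h
    simpa using this
  simpa using h1.pow e

end cg

section eul

variable (R : Type*) [CommRing R]

/-- the product `∏ (1 - X ^ m) ^ (o m)`, `m ≥ 1` -/
noncomputable def Eul (o : ℕ → ℕ) : R⟦X⟧ :=
  mk fun n => coeff n (∏ m ∈ Finset.Icc 1 n, (1 - (X : R⟦X⟧) ^ m) ^ o m)

variable {R}

theorem prod_stable (o : ℕ → ℕ) {n N : ℕ} (h : n ≤ N) :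
    Cg n (∏ m ∈ Finset.Icc 1 N, (1 - (X : R⟦X⟧) ^ m) ^ o m)
      (∏ m ∈ Finset.Icc 1 n, (1 - (X : R⟦X⟧) ^ m) ^ o m) := by
  have h1 : Finset.Icc 1 n ⊆ Finset.Icc 1 N := Finset.Icc_subset_Icc le_rfl h
  rw [← Finset.prod_sdiff h1]
  have h2 : Cg n (∏ m ∈ Finset.Icc 1 N \ Finset.Icc 1 n, (1 - (X : R⟦X⟧) ^ m) ^ o m)
      (∏ m ∈ Finset.Icc 1 N \ Finset.Icc 1 n, (1 : R⟦X⟧)) := by
    refine Cg.prod _ fun m hm => cg_one ?_ _
    simp only [Finset.mem_sdiff, Finset.mem_Icc, not_and, not_le] at hm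
    exact hm.2 hm.1.1
  rw [Finset.prod_const_one] at h2
  simpa using h2.mul (Cg.refl n (∏ m ∈ Finset.Icc 1 n, (1 - (X : R⟦X⟧) ^ m) ^ o m))

theorem eul_cg (o : ℕ → ℕ) (n : ℕ) :
    Cg n (Eul R o) (∏ m ∈ Finset.Icc 1 n, (1 - (X : R⟦X⟧) ^ m) ^ o m) := by
  rw [cg_iff]
  intro i hi
  rw [Eul, coeff_mk]
  exact (cg_iff.1 (prod_stable o hi) i le_rfl).symm

theorem map_eul {R' : Type*} [CommRing R'] (φ : R →+* R') (o : ℕ → ℕ) :
    PowerSeries.map φ (Eul R o) = Eul R' o := by
  ext n
  rw [coeff_map, Eul, Eul, coeff_mk, coeff_mk, ← coeff_map]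
  congr 1
  rw [map_prod]
  refine Finset.prod_congr rfl fun m _ => ?_
  rw [map_pow, map_sub, map_one, map_pow, map_X]

theorem eul_zero (o : ℕ → ℕ) : constantCoeff (Eul R o) = 1 := by
  rw [← coeff_zero_eq_constantCoeff_apply, Eul, coeff_mk]
  simp

/-- `X f' = - f G` -/
def Ghost (f G : R⟦X⟧) : Prop := X * derivative R f = -(f * G)

theorem Ghost.mul {f g F G : R⟦X⟧} (hf : Ghost f F) (hg : Ghost g G) :
    Ghost (f * g) (F + G) := by
  unfold Ghost at *
  rw [Derivation.leibniz, smul_eq_mul, smul_eq_mul]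
  linear_combination f * hg + g * hf

theorem ghost_one : Ghost (1 : R⟦X⟧) 0 := by
  unfold Ghost
  simp

theorem Ghost.prod {ι : Type*} (s : Finset ι) {f F : ι → R⟦X⟧}
    (h : ∀ i ∈ s, Ghost (f i) (F i)) : Ghost (∏ i ∈ s, f i) (∑ i ∈ s, F i) := by
  classical
  induction s using Finset.induction_on with
  | empty => simpa using ghost_one
  | insert a s ha ih =>
    rw [Finset.prod_insert ha, Finset.sum_insert ha]
    exact (h a (Finset.mem_insert_self _ _)).mul
      (ih fun i hi => h i (Finset.mem_insert_of_mem hi))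

theorem Ghost.pow {f F : R⟦X⟧} (h : Ghost f F) (e : ℕ) : Ghost (f ^ e) (e • F) := by
  induction e with
  | zero => simpa using ghost_one
  | succ e ih =>
    rw [pow_succ, succ_nsmul]
    exact ih.mul h

/-- the series `∑ m X ^ (m j)`, `j ≥ 1` -/
noncomputable def Gm (R : Type*) [CommRing R] (m : ℕ) : R⟦X⟧ :=
  mk fun s => if s ≠ 0 ∧ m ∣ s then (m : R) else 0

theorem ghost_Gm {m : ℕ} (hm : 0 < m) : Ghost (1 - (X : R⟦X⟧) ^ m) (Gm R m) := by
  unfold Ghost
  have h1 : (1 - (X : R⟦X⟧) ^ m) * Gm R m = (m : R⟦X⟧) * X ^ m := by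
    ext s
    have hc : (m : R⟦X⟧) = C (m : R) := by simp
    rw [sub_mul, one_mul, map_sub, hc, coeff_C_mul, coeff_X_pow, mul_comm (X ^ m : R⟦X⟧),
      coeff_mul_X_pow', Gm, coeff_mk]
    by_cases hs : m ≤ s
    · rw [if_pos hs, coeff_mk]
      by_cases hs' : s = m
      · subst hs'
        simp [hm.ne']
      · have hne : s - m ≠ 0 := by omega
        have hs0 : s ≠ 0 := by omega
        rw [if_neg hs', mul_zero]
        by_cases hd : m ∣ s
        · have hd' : m ∣ s - m := Nat.dvd_sub hd dvd_rfl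
          rw [if_pos ⟨hs0, hd⟩, if_pos ⟨hne, hd'⟩, sub_self]
        · have hd' : ¬ m ∣ s - m := by
            intro h
            apply hd
            have := dvd_add h (dvd_refl m)
            rwa [Nat.sub_add_cancel hs] at this
          rw [if_neg (fun h => hd h.2), if_neg (fun h => hd' h.2), sub_self]
    · rw [if_neg hs]
      have h2 : ¬ (s ≠ 0 ∧ m ∣ s) := by
        rintro ⟨h0, hd⟩
        exact hs (Nat.le_of_dvd (Nat.pos_of_ne_zero h0) hd)
      rw [if_neg h2, if_neg (by omega), mul_zero, sub_zero]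
  rw [h1, map_sub, Derivation.leibniz_pow, Derivation.map_one_eq_zero, derivative_X]
  obtain ⟨n, rfl⟩ : ∃ n, m = n + 1 := ⟨m - 1, by omega⟩
  simp only [Nat.add_sub_cancel, smul_eq_mul, mul_one, zero_sub, nsmul_eq_mul]
  ring

theorem ghost_iff {f G : R⟦X⟧} :
    Ghost f G ↔ ∀ n : ℕ, (n : R) * coeff n f = -coeff n (f * G) := by
  unfold Ghost
  constructor
  · intro h n
    have h1 := congrArg (coeff n) h
    rw [map_neg] at h1
    rw [← h1]
    rcases n with _ | n
    · simp
    · rw [coeff_succ_X_mul, coeff_derivative]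
      push_cast
      ring
  · intro h
    ext n
    rw [map_neg, ← h n]
    rcases n with _ | n
    · simp
    · rw [coeff_succ_X_mul, coeff_derivative]
      push_cast
      ring

theorem coeff_mul_congr {f f' G G' : R⟦X⟧} {n : ℕ} (h : Cg n f f') (h' : Cg n G G') :
    coeff n (f * G) = coeff n (f' * G') := cg_iff.1 (h.mul h') n le_rfl

/-- the power sums of an Euler product -/
theorem ghost_eul (o : ℕ → ℕ) (N : ℕ → ℕ) (hN : ∀ s, 0 < s → N s = ∑ m ∈ s.divisors, m * o m) :
    Ghost (Eul R o) (mk fun s => if s = 0 then 0 else (N s : R)) := by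
  rw [ghost_iff]
  intro n
  have h1 : Ghost (∏ m ∈ Finset.Icc 1 n, (1 - (X : R⟦X⟧) ^ m) ^ o m)
      (∑ m ∈ Finset.Icc 1 n, o m • Gm R m) :=
    Ghost.prod _ fun m hm => (ghost_Gm (Finset.mem_Icc.1 hm).1).pow _
  have h2 := ghost_iff.1 h1 n
  rw [cg_iff.1 (eul_cg o n) n le_rfl, h2]
  congr 1
  refine coeff_mul_congr (eul_cg o n).symm ?_
  rw [cg_iff]
  intro s hs
  rw [coeff_mk, map_sum]
  split_ifs with h0
  · subst h0
    refine Finset.sum_eq_zero fun m _ => ?_
    rw [map_nsmul, Gm, coeff_mk, if_neg (by simp), smul_zero]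
  · rw [hN s (Nat.pos_of_ne_zero h0)]
    push_cast
    symm
    have h3 : s.divisors ⊆ Finset.Icc 1 n := by
      intro m hm
      rw [Nat.mem_divisors] at hm
      rw [Finset.mem_Icc]
      exact ⟨Nat.pos_of_dvd_of_pos hm.1 (Nat.pos_of_ne_zero h0),
        (Nat.le_of_dvd (Nat.pos_of_ne_zero h0) hm.1).trans hs⟩
    rw [← Finset.sum_subset h3]
    · refine Finset.sum_congr rfl fun m hm => ?_
      rw [Nat.mem_divisors] at hm
      rw [map_nsmul, Gm, coeff_mk, if_pos ⟨h0, hm.1⟩, nsmul_eq_mul, mul_comm]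
    · intro m _ hm
      rw [Nat.mem_divisors] at hm
      rw [map_nsmul, Gm, coeff_mk, if_neg (fun h => hm ⟨h.2, h0⟩), smul_zero]

/-- a series with constant coefficient one is determined by its power sums -/
theorem ghost_unique {A : Type*} [CommRing A] [IsDomain A] [CharZero A] {f g G : A⟦X⟧}
    (hf : Ghost f G) (hg : Ghost g G) (hf0 : constantCoeff f = 1) (hg0 : constantCoeff g = 1)
    (hG : constantCoeff G = 0) : f = g := by
  rw [ghost_iff] at hf hg
  have key : ∀ n, ∀ i ≤ n, coeff i f = coeff i g := by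
    intro n
    induction n with
    | zero =>
      intro i hi
      obtain rfl : i = 0 := by omega
      rw [coeff_zero_eq_constantCoeff_apply, coeff_zero_eq_constantCoeff_apply, hf0, hg0]
    | succ n ih =>
      intro i hi
      rcases Nat.lt_or_ge i (n + 1) with h | h
      · exact ih i (by omega)
      · obtain rfl : i = n + 1 := by omega
        have h1 := hf (n + 1)
        have h2 := hg (n + 1)
        have h3 : coeff (n + 1) (f * G) = coeff (n + 1) (g * G) := by
          rw [coeff_mul, coeff_mul]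
          refine Finset.sum_congr rfl fun x hx => ?_
          have hx' := Finset.HasAntidiagonal.mem_antidiagonal.1 hx
          by_cases hx2 : x.2 = 0
          · rw [hx2, coeff_zero_eq_constantCoeff_apply, hG, mul_zero, mul_zero]
          · rw [ih x.1 (by omega)]
        rw [h3, ← h2] at h1
        exact mul_left_cancel₀ (Nat.cast_ne_zero.2 (Nat.succ_ne_zero n)) h1
  ext n
  exact key n n le_rfl

end eul

section mset

variable {R : Type*} [CommRing R]

/-- `∏ (1 - a X)` -/
noncomputable def Em (α : Multiset R) : R⟦X⟧ := (α.map fun a => 1 - C a * X).prod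

/-- the power sums `∑ a ^ s` -/
def ps (α : Multiset R) (s : ℕ) : R := (α.map fun a => a ^ s).sum

/-- the generating series of a sequence -/
noncomputable def gs (N : ℕ → R) : R⟦X⟧ := mk fun s => if s = 0 then 0 else N s

theorem gs_add (N M : ℕ → R) : gs (fun s => N s + M s) = gs N + gs M := by
  ext s
  rw [map_add, gs, gs, gs, coeff_mk, coeff_mk, coeff_mk]
  split_ifs <;> simp

theorem gs_zero (N : ℕ → R) : constantCoeff (gs N) = 0 := by
  rw [← coeff_zero_eq_constantCoeff_apply, gs, coeff_mk, if_pos rfl]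

theorem gs_congr {N M : ℕ → R} (h : ∀ s, 0 < s → N s = M s) : gs N = gs M := by
  ext s
  rw [gs, gs, coeff_mk, coeff_mk]
  split_ifs with h0
  · rfl
  · exact h s (Nat.pos_of_ne_zero h0)

theorem ghost_lin (a : R) : Ghost (1 - C a * X) (gs fun s => a ^ s) := by
  unfold Ghost
  have h1 : (1 - C a * (X : R⟦X⟧)) * gs (fun s => a ^ s) = C a * X := by
    ext s
    rw [sub_mul, one_mul, map_sub, mul_assoc, coeff_C_mul, mul_comm X, coeff_C_mul, gs]
    rcases s with _ | s
    · simp
    · rw [coeff_succ_mul_X, coeff_mk, coeff_mk, if_neg (Nat.succ_ne_zero s), coeff_X]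
      rcases s with _ | s
      · simp
      · rw [if_neg (Nat.succ_ne_zero s), if_neg (by omega)]
        ring
  rw [h1, map_sub, Derivation.leibniz, derivative_X, Derivation.map_one_eq_zero, derivative_C]
  simp only [smul_eq_mul, mul_one, mul_zero, add_zero, zero_sub]
  ring

theorem ghost_Em (α : Multiset R) : Ghost (Em α) (gs (ps α)) := by
  induction α using Multiset.induction_on with
  | empty =>
    have h1 : gs (ps (0 : Multiset R)) = 0 := by
      ext s
      simp [gs, ps]
    rw [h1]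
    simpa [Em] using ghost_one
  | cons a α ih =>
    have h1 : Em (a ::ₘ α) = (1 - C a * X) * Em α := by simp [Em]
    have h2 : gs (ps (a ::ₘ α)) = gs (fun s => a ^ s) + gs (ps α) := by
      rw [← gs_add]
      congr 1
      funext s
      simp [ps]
    rw [h1, h2]
    exact (ghost_lin a).mul ih

theorem Em_zero (α : Multiset R) : constantCoeff (Em α) = 1 := by
  induction α using Multiset.induction_on with
  | empty => simp [Em]
  | cons a α ih =>
    have h1 : Em (a ::ₘ α) = (1 - C a * X) * Em α := by simp [Em]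
    rw [h1, map_mul, ih]
    simp

theorem Em_add (α β : Multiset R) : Em (α + β) = Em α * Em β := by
  simp [Em]

theorem ps_add (α β : Multiset R) (s : ℕ) : ps (α + β) s = ps α s + ps β s := by
  simp [ps]

theorem map_Em {R' : Type*} [CommRing R'] (φ : R →+* R') (α : Multiset R) :
    PowerSeries.map φ (Em α) = Em (α.map φ) := by
  induction α using Multiset.induction_on with
  | empty => simp [Em]
  | cons a α ih =>
    have h1 : Em (a ::ₘ α) = (1 - C a * X) * Em α := by simp [Em]
    have h2 : Em ((a ::ₘ α).map φ) = (1 - C (φ a) * X) * Em (α.map φ) := by simp [Em]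
    rw [h1, h2, map_mul, ih]
    simp

theorem rescale_Em (c : R) (α : Multiset R) : rescale c (Em α) = Em (α.map fun a => c * a) := by
  induction α using Multiset.induction_on with
  | empty => simp [Em]
  | cons a α ih =>
    have h1 : Em (a ::ₘ α) = (1 - C a * X) * Em α := by simp [Em]
    have h2 : Em ((a ::ₘ α).map fun a => c * a) = (1 - C (c * a) * X) *
      Em (α.map fun a => c * a) := by simp [Em]
    rw [h1, h2, map_mul, ih]
    congr 1
    ext n
    rw [coeff_rescale, map_sub, map_sub, coeff_C_mul, coeff_C_mul, coeff_X, coeff_one]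
    split_ifs with h1 h2 h3
    · omega
    · subst h1; simp
    · subst h3; simp
    · simp

end mset

end Pool.Agent.H856.JN
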