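import Pool.Agent.H856.JN.Eul

/-!
Sets with an operator `σ` all of whose points are periodic: numbers of orbits, zeta functions, and
the comparison modulo `ℓ` of the zeta functions along a torsor under a group of `ℓ`-power order.
-/

set_option autoImplicit false

open PowerSeries Function

namespace Pool.Agent.H856.JN

/-- All points are periodic and the powers `σ ^ n`, `n > 0`, have finitely many fixed points. -/
structure IsFSet {S : Type*} (σ : S → S) : Prop where
  per : ∀ x, x ∈ periodicPts σ
  fin : ∀ n, 0 < n → {x | σ^[n] x = x}.Finite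

/-- the number of fixed points of `σ ^ s` -/
noncomputable def Np {S : Type*} (σ : S → S) (s : ℕ) : ℕ := Nat.card {x // σ^[s] x = x}

/-- the number of orbits with `m` elements -/
noncomputable def Or {S : Type*} (σ : S → S) (m : ℕ) : ℕ :=
  Nat.card {x // minimalPeriod σ x = m} / m

section basic

variable {S : Type*} {σ : S → S}

/-- a finite stable set of points of period `n` has a number of elements divisible by `n` -/
theorem dvd_ncard [DecidableEq S] {n : ℕ} (hn : 0 < n) : ∀ (c : ℕ) (D : Finset S), D.card = c →
    (∀ x ∈ D, σ x ∈ D) → (∀ x ∈ D, minimalPeriod σ x = n) → n ∣ D.card := by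
  intro c
  induction c using Nat.strong_induction_on with
  | _ c ih =>
    intro D hc hst hper
    rcases D.eq_empty_or_nonempty with rfl | ⟨x, hx⟩
    · simp
    have hit : ∀ y ∈ D, ∀ i, σ^[i] y ∈ D := by
      intro y hy i
      induction i with
      | zero => exact hy
      | succ i ihi => rw [iterate_succ_apply']; exact hst _ ihi
    set O : Finset S := (Finset.range n).image fun i => σ^[i] x with hO
    have hOD : O ⊆ D := by
      intro y hy
      obtain ⟨i, _, rfl⟩ := Finset.mem_image.1 hy
      exact hit x hx i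
    have hcard : O.card = n := by
      rw [hO, Finset.card_image_of_injOn, Finset.card_range]
      intro i hi j hj hij
      have hp := hper x hx
      refine (iterate_eq_iterate_iff_of_lt_minimalPeriod (f := σ) (x := x) ?_ ?_).1 hij
      · rw [hp]; exact Finset.mem_range.1 hi
      · rw [hp]; exact Finset.mem_range.1 hj
    have hxp : σ^[n] x = x := by
      have := iterate_minimalPeriod (f := σ) (x := x)
      rwa [hper x hx] at this
    have hmemO : ∀ i, σ^[i] x ∈ O := by
      intro i
      rw [hO, Finset.mem_image]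
      refine ⟨i % n, Finset.mem_range.2 (Nat.mod_lt _ hn), ?_⟩
      have := iterate_mod_minimalPeriod_eq (f := σ) (x := x) (n := i)
      rwa [hper x hx] at this
    have hst' : ∀ y ∈ D \ O, σ y ∈ D \ O := by
      intro y hy
      rw [Finset.mem_sdiff] at hy ⊢
      refine ⟨hst y hy.1, fun h => hy.2 ?_⟩
      obtain ⟨i, _, hi⟩ := Finset.mem_image.1 h
      have hyn : σ^[n] y = y := by
        have := iterate_minimalPeriod (f := σ) (x := y)
        rwa [hper y hy.1] at this
      have h1 : y = σ^[(n - 1) + i] x := by
        rw [iterate_add_apply, hi, ← iterate_succ_apply, Nat.succ_eq_add_one,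
          Nat.sub_add_cancel hn, hyn]
      rw [h1]
      exact hmemO _
    have h2 : (D \ O).card + O.card = D.card := by
      rw [← Finset.card_union_of_disjoint Finset.sdiff_disjoint,
        Finset.sdiff_union_of_subset hOD]
    have h3 := ih (D \ O).card (by omega) (D \ O) rfl hst' fun y hy =>
      hper y (Finset.mem_sdiff.1 hy).1
    rw [← h2, hcard]
    exact dvd_add h3 dvd_rfl

theorem dvd_natCard {n : ℕ} (hn : 0 < n) (P : S → Prop) (hfin : {x | P x}.Finite)
    (hst : ∀ x, P x → P (σ x)) (hper : ∀ x, P x → minimalPeriod σ x = n) :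
    n ∣ Nat.card {x // P x} := by
  classical
  have h1 : Nat.card {x // P x} = hfin.toFinset.card := by
    rw [← Set.ncard_eq_toFinset_card _ hfin]
    rfl
  rw [h1]
  refine dvd_ncard (σ := σ) hn _ _ rfl ?_ ?_
  · intro x hx
    rw [Set.Finite.mem_toFinset] at hx ⊢
    exact hst x hx
  · intro x hx
    rw [Set.Finite.mem_toFinset] at hx
    exact hper x hx

theorem IsFSet.pos (h : IsFSet σ) (x : S) : 0 < minimalPeriod σ x :=
  minimalPeriod_pos_of_mem_periodicPts (h.per x)

theorem IsFSet.fin_per (h : IsFSet σ) {m : ℕ} (hm : 0 < m) :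
    {x | minimalPeriod σ x = m}.Finite := by
  refine (h.fin m hm).subset fun x hx => ?_
  have := iterate_minimalPeriod (f := σ) (x := x)
  rwa [show minimalPeriod σ x = m from hx] at this

theorem IsFSet.card_per (h : IsFSet σ) {m : ℕ} (hm : 0 < m) :
    Nat.card {x // minimalPeriod σ x = m} = m * Or σ m := by
  unfold Or
  rw [Nat.mul_div_cancel']
  exact dvd_natCard hm _ (h.fin_per hm) (fun x hx => by
    rw [minimalPeriod_apply (h.per x)]; exact hx) fun x hx => hx

/-- partition of a finite set -/
theorem card_eq_sum {T ι : Type*} [DecidableEq ι] (P : T → Prop) (hP : {x | P x}.Finite)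
    (f : T → ι) (s : Finset ι) (hs : ∀ x, P x → f x ∈ s) :
    Nat.card {x // P x} = ∑ i ∈ s, Nat.card {x // P x ∧ f x = i} := by
  classical
  have hmem : ∀ x, x ∈ hP.toFinset ↔ P x := fun x => by rw [Set.Finite.mem_toFinset]; rfl
  have h1 : Nat.card {x // P x} = hP.toFinset.card := Nat.subtype_card _ hmem
  have h2 : ∀ i, Nat.card {x // P x ∧ f x = i} = (hP.toFinset.filter fun x => f x = i).card := by
    intro i
    refine Nat.subtype_card _ fun x => ?_
    rw [Finset.mem_filter, hmem]
  rw [h1, Finset.card_eq_sum_card_fiberwise (f := f) (t := s)]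
  · exact Finset.sum_congr rfl fun i _ => (h2 i).symm
  · intro x hx
    exact hs x ((hmem x).1 hx)

theorem IsFSet.Np_eq (h : IsFSet σ) {s : ℕ} (hs : 0 < s) :
    Np σ s = ∑ m ∈ s.divisors, m * Or σ m := by
  unfold Np
  rw [card_eq_sum (fun x => σ^[s] x = x) (h.fin s hs) (minimalPeriod σ) s.divisors]
  · refine Finset.sum_congr rfl fun m hm => ?_
    have hm' := Nat.mem_divisors.1 hm
    rw [← h.card_per (Nat.pos_of_dvd_of_pos hm'.1 hs)]
    refine Nat.card_congr (Equiv.subtypeEquivRight fun x => ?_)
    constructor
    · exact fun hx => hx.2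
    · intro hx
      refine ⟨?_, hx⟩
      have : IsPeriodicPt σ s x := isPeriodicPt_iff_minimalPeriod_dvd.2 (hx ▸ hm'.1)
      exact this
  · intro x hx
    have : IsPeriodicPt σ s x := hx
    exact Nat.mem_divisors.2 ⟨this.minimalPeriod_dvd, hs.ne'⟩

/-- the inverse of the zeta function -/
noncomputable def Ze (R : Type*) [CommRing R] {S : Type*} (σ : S → S) : R⟦X⟧ := Eul R (Or σ)

theorem IsFSet.ghost (R : Type*) [CommRing R] (h : IsFSet σ) :
    Ghost (Ze R σ) (gs fun s => (Np σ s : R)) :=
  ghost_eul (Or σ) (Np σ) fun _ hs => h.Np_eq hs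

end basic

end Pool.Agent.H856.JN
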