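import Pool.Agent.H856.JN.Chain

/-!
The eigenvalues of the join `F(x) + G(y)` modulo `ℓ`, without any assumption on their shape.
-/

set_option autoImplicit false
set_option linter.unusedSectionVars false

open Function MvPolynomial

namespace Pool.Agent.H856.JN

section identity

variable {k : Type} [Field k] [Finite k] {ι ι' : Type} [Fintype ι] [Fintype ι'] [Nonempty ι]
  [Nonempty ι'] {A : Type} [CommRing A] [IsDomain A] [CharZero A] {ℓ a : ℕ} (hℓ : ℓ.Prime)
  (hk : (ℓ : k) ≠ 0) {F : MvPolynomial ι k} (hF : F.IsHomogeneous (ℓ ^ a))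
  {G : MvPolynomial ι' k} (hG : G.IsHomogeneous (ℓ ^ a)) {α β γ : Multiset A}
  (hα : IsSpectrum F α) (hβ : IsSpectrum G β) (hγ : IsSpectrum (joinForm F G) γ)
  {Ω : Type} [Field Ω] [CharP Ω ℓ] (φ : A →+* Ω)

include hℓ hk hF hG hα hβ hγ in
/-- the identity of the characteristic polynomials -/
theorem identity_gen : Em (γ.map φ) * (∏ i ∈ Finset.range (ℓ ^ a - 1),
      (Em ((α.map φ).map fun x => (Nat.card k : Ω) ^ (i + 1 + (Fintype.card ι' - 1)) * x) *
      Em ((β.map φ).map fun x => (Nat.card k : Ω) ^ (i + 1 + (Fintype.card ι - 1)) * x))) =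
    Em ((mprod (α.map φ) (β.map φ)).map fun x => (Nat.card k : Ω) ^ 1 * x) *
      ∏ i ∈ Finset.range (ℓ ^ a - 1),
      (Em {(Nat.card k : Ω) ^ (i + 1 + ((Fintype.card ι - 1) + (Fintype.card ι' - 1)))} *
      Em ((mprod (α.map φ) (β.map φ)).map fun x => (Nat.card k : Ω) ^ (i + 1) * x)) := by
  set K := AlgebraicClosure k with hK
  have hd : 0 < ℓ ^ a := pow_pos hℓ.pos a
  have hT := isTorsor (K := K) hd hF hG
  set τ := frq (isCone_DT (K := K) hd hF hG) with hτ
  set σF := frq (isCone_DF (K := K) hd hF) with hσF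
  set σG := frq (isCone_DF (K := K) hd hG) with hσG
  have hUF : IsFSet σF := isFSet_frq _
  have hUG : IsFSet σG := isFSet_frq _
  have hU : IsFSet (Prod.map σF σG) := isFSet_prod hUF hUG
  have hTF : IsFSet τ := isFSet_frq _
  have hlK : NeZero ((ℓ ^ a : ℕ) : K) := by
    refine ⟨?_⟩
    rw [Nat.cast_pow, ← map_natCast (algebraMap k K)]
    exact pow_ne_zero _ ((map_ne_zero _).2 hk)
  have hl0 : NeZero (ℓ ^ a) := ⟨hd.ne'⟩
  have hμ : Nat.card (rootsOfUnity (ℓ ^ a) K) = ℓ ^ a :=
    HasEnoughRootsOfUnity.natCard_rootsOfUnity K _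
  have hcomp := comparison hT hℓ hμ (two_le_card k) (coprime_card hℓ hk) hU Ω
  -- the first relation
  have h1 : Ze A τ * Em ((mprod α β).map fun x => (Nat.card k : A) ^ 1 * x) =
      Ze A (Prod.map σF σG) * Em γ := by
    have hg : gs (fun s => (Np τ s : A)) +
          gs (ps ((mprod α β).map fun x => (Nat.card k : A) ^ 1 * x)) =
        gs (fun s => (Np (Prod.map σF σG) s : A)) + gs (ps γ) := by
      rw [← gs_add, ← gs_add]
      refine gs_congr fun s hs => ?_
      have h2 := Np_DT K hd hF hG hα hβ hγ hs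
      rw [ps_map_mul, ps_mprod, pow_one]
      rw [Np_prod, Nat.cast_mul]
      linear_combination h2
    refine ghost_unique ((hTF.ghost A).mul (ghost_Em _))
      (g := Ze A (Prod.map σF σG) * Em γ) ?_ ?_ ?_ ?_
    · rw [hg]
      exact (hU.ghost A).mul (ghost_Em γ)
    · rw [map_mul, Ze, eul_zero, Em_zero, mul_one]
    · rw [map_mul, Ze, eul_zero, Em_zero, mul_one]
    · rw [map_add, gs_zero, gs_zero, add_zero]
  -- the second relation
  have h2 : Ze A (Prod.map σF σG) *
      (Em (α.map fun x => (Nat.card k : A) ^ (Fintype.card ι' - 1) * x) *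
        Em (β.map fun x => (Nat.card k : A) ^ (Fintype.card ι - 1) * x)) =
      Em {(Nat.card k : A) ^ ((Fintype.card ι - 1) + (Fintype.card ι' - 1))} *
        Em (mprod α β) := by
    have hg : gs (fun s => (Np (Prod.map σF σG) s : A)) +
        (gs (ps (α.map fun x => (Nat.card k : A) ^ (Fintype.card ι' - 1) * x)) +
          gs (ps (β.map fun x => (Nat.card k : A) ^ (Fintype.card ι - 1) * x))) =
        gs (ps {(Nat.card k : A) ^ ((Fintype.card ι - 1) + (Fintype.card ι' - 1))}) +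
          gs (ps (mprod α β)) := by
      rw [← gs_add, ← gs_add, ← gs_add]
      refine gs_congr fun s hs => ?_
      rw [ps_map_mul, ps_map_mul, ps_mprod, Np_prod, Nat.cast_mul, Np_DF K hd hF hα hs,
        Np_DF K hd hG hβ hs]
      have h3 : ps {(Nat.card k : A) ^ ((Fintype.card ι - 1) + (Fintype.card ι' - 1))} s =
          ((Nat.card k : A) ^ s) ^ (Fintype.card ι - 1) *
            ((Nat.card k : A) ^ s) ^ (Fintype.card ι' - 1) := by
        rw [← pow_add, ← pow_mul, mul_comm s, pow_mul]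
        simp [ps]
      rw [h3, ← pow_mul, ← pow_mul, ← pow_mul, ← pow_mul, mul_comm s, mul_comm s]
      ring
    refine ghost_unique ((hU.ghost A).mul ((ghost_Em _).mul (ghost_Em _)))
      (g := Em {(Nat.card k : A) ^ ((Fintype.card ι - 1) + (Fintype.card ι' - 1))} *
        Em (mprod α β)) ?_ ?_ ?_ ?_
    · rw [hg]
      exact (ghost_Em _).mul (ghost_Em _)
    · rw [map_mul, map_mul, Ze, eul_zero, Em_zero, Em_zero]; ring
    · rw [map_mul, Em_zero, Em_zero]; ring
    · rw [map_add, map_add, gs_zero, gs_zero, gs_zero]; ring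
  -- reduction
  have hZ : ∀ {S : Type} (σ : S → S), PowerSeries.map φ (Ze A σ) = Ze Ω σ := fun σ =>
    map_eul φ (Or σ)
  have h3 := congrArg (PowerSeries.map φ) h1
  have h4 := congrArg (PowerSeries.map φ) h2
  rw [map_mul, map_mul, hZ, hZ, map_Em, map_Em] at h3
  rw [map_mul, map_mul, map_mul, hZ, map_Em, map_Em, map_Em, map_Em, map_mprod,
    Multiset.map_map, Multiset.map_map, Multiset.map_singleton] at h4
  have h5 : ∀ (γ : Multiset A) (e : ℕ), γ.map (φ ∘ fun x => (Nat.card k : A) ^ e * x) =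
      (γ.map φ).map fun x => (Nat.card k : Ω) ^ e * x := by
    intro γ e
    rw [Multiset.map_map]
    refine Multiset.map_congr rfl fun x _ => ?_
    simp
  rw [Multiset.map_map, h5, map_mprod] at h3
  rw [h5, h5, map_pow, map_natCast] at h4
  have h6 : Em (γ.map φ) = Em ((mprod (α.map φ) (β.map φ)).map
      fun x => (Nat.card k : Ω) ^ 1 * x) * ∏ i ∈ Finset.range (ℓ ^ a - 1),
      PowerSeries.rescale ((Nat.card k : Ω) ^ (i + 1)) (Ze Ω (Prod.map σF σG)) := by
    have h7 : Ze Ω (Prod.map σF σG) ≠ 0 := by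
      intro h0
      have h8 : PowerSeries.constantCoeff (Ze Ω (Prod.map σF σG)) = 1 := eul_zero _
      rw [h0, map_zero] at h8
      exact zero_ne_one h8
    refine mul_left_cancel₀ h7 ?_
    rw [← h3, hcomp]
    have h9 : ∏ i ∈ Finset.range (ℓ ^ a),
        PowerSeries.rescale ((Nat.card k : Ω) ^ i) (Ze Ω (Prod.map σF σG)) =
        (∏ i ∈ Finset.range (ℓ ^ a - 1),
          PowerSeries.rescale ((Nat.card k : Ω) ^ (i + 1)) (Ze Ω (Prod.map σF σG))) *
          Ze Ω (Prod.map σF σG) := by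
      conv_lhs => rw [← Nat.sub_add_cancel hd]
      rw [Finset.prod_range_succ', pow_zero, PowerSeries.rescale_one, RingHom.id_apply]
    rw [h9]
    ring
  rw [h6, mul_assoc, ← Finset.prod_mul_distrib]
  congr 1
  refine Finset.prod_congr rfl fun i _ => ?_
  have h7 := congrArg (PowerSeries.rescale ((Nat.card k : Ω) ^ (i + 1))) h4
  have h8 : ∀ (γ : Multiset Ω) (e : ℕ), (γ.map fun x => (Nat.card k : Ω) ^ e * x).map
      (fun x => (Nat.card k : Ω) ^ (i + 1) * x) =
      γ.map fun x => (Nat.card k : Ω) ^ (i + 1 + e) * x := by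
    intro γ e
    rw [Multiset.map_map]
    refine Multiset.map_congr rfl fun x _ => ?_
    show (Nat.card k : Ω) ^ (i + 1) * ((Nat.card k : Ω) ^ e * x) = _
    rw [← mul_assoc, ← pow_add]
  rw [map_mul, map_mul, map_mul, rescale_Em, rescale_Em, rescale_Em, rescale_Em, h8, h8,
    Multiset.map_singleton, ← pow_add] at h7
  exact h7

end identity

section residues

variable {Ω : Type} [Field Ω] {ℓ : ℕ} [CharP Ω ℓ] {q : ℕ}

theorem orderOf_eq (Ω : Type) [Field Ω] {ℓ : ℕ} [CharP Ω ℓ] (hℓ : ℓ.Prime) (q : ℕ) :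
    orderOf (q : Ω) = orderOf (q : ZMod ℓ) := by
  have := Fact.mk hℓ
  have h1 : (q : Ω) = ZMod.castHom (dvd_refl ℓ) Ω (q : ZMod ℓ) := by simp
  rw [h1]
  exact orderOf_injective (ZMod.castHom (dvd_refl ℓ) Ω).toMonoidHom
    (ZMod.castHom (dvd_refl ℓ) Ω).injective _

theorem order_dvd (hℓ : ℓ.Prime) (hq : Nat.Coprime q ℓ) (a : ℕ) :
    orderOf (q : ZMod ℓ) ∣ ℓ ^ a - 1 := by
  have := Fact.mk hℓ
  have h1 : orderOf (q : ZMod ℓ) ∣ ℓ - 1 := by
    rw [← orderOf_eq (ZMod ℓ) hℓ]
    exact orderOf_dvd_of_pow_eq_one (q_pow (Ω := ZMod ℓ) hℓ hq)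
  refine h1.trans ?_
  simpa using Nat.sub_dvd_pow_sub_pow ℓ 1 a

theorem order_pos (hℓ : ℓ.Prime) (hq : Nat.Coprime q ℓ) : 0 < orderOf (q : ZMod ℓ) := by
  have := Fact.mk hℓ
  refine orderOf_pos_iff.2 (isOfFinOrder_iff_pow_eq_one.2 ⟨ℓ - 1, ?_, ?_⟩)
  · have := hℓ.two_le
    omega
  · exact q_pow (Ω := ZMod ℓ) hℓ hq

open Classical in
/-- how often a number is one of the powers -/
theorem count_residues (hℓ : ℓ.Prime) (hq : Nat.Coprime q ℓ) (a s j : ℕ) (z : Ω) :
    ((Finset.range (ℓ ^ a - 1)).filter fun i => (q : Ω) ^ (i + 1 + s) * z = (q : Ω) ^ j).card =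
      if PP q Ω z then (ℓ ^ a - 1) / orderOf (q : ZMod ℓ) else 0 := by
  split_ifs with hz
  · obtain ⟨m, rfl⟩ := hz
    have ho := order_pos hℓ hq
    set o := orderOf (q : ZMod ℓ) with hodef
    have h1 : ∀ i : ℕ, (q : Ω) ^ (i + 1 + s) * (q : Ω) ^ m = (q : Ω) ^ j ↔
        i ≡ (j + o * (1 + s + m)) - (1 + s + m) [MOD o] := by
      intro i
      rw [← pow_add]
      have h2 : ∀ x y : ℕ, (q : Ω) ^ x = (q : Ω) ^ y ↔ x ≡ y [MOD o] := by
        intro x y
        rw [hodef, ← orderOf_eq Ω hℓ]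
        have hqu : IsUnit (q : Ω) := (q_ne (Ω := Ω) hℓ hq).isUnit
        obtain ⟨u, hu⟩ := hqu
        rw [← hu, orderOf_units, ← pow_eq_pow_iff_modEq, ← Units.val_pow_eq_pow_val,
          ← Units.val_pow_eq_pow_val, Units.val_inj]
      rw [h2]
      have h3 : (1 + s + m) ≤ j + o * (1 + s + m) :=
        (Nat.le_mul_of_pos_left _ ho).trans (Nat.le_add_left _ _)
      constructor
      · intro h
        have h4 : i + (1 + s + m) ≡ ((j + o * (1 + s + m)) - (1 + s + m)) + (1 + s + m)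
            [MOD o] := by
          rw [Nat.sub_add_cancel h3]
          have h5 : j + o * (1 + s + m) ≡ j [MOD o] := by
            unfold Nat.ModEq
            rw [Nat.add_mul_mod_self_left]
          refine Nat.ModEq.trans ?_ h5.symm
          rwa [show i + (1 + s + m) = i + 1 + s + m by ring]
        exact Nat.ModEq.add_right_cancel' _ h4
      · intro h
        have h4 := Nat.ModEq.add_right (1 + s + m) h
        rw [Nat.sub_add_cancel h3] at h4
        have h5 : j + o * (1 + s + m) ≡ j [MOD o] := by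
          unfold Nat.ModEq
          rw [Nat.add_mul_mod_self_left]
        have h6 := h4.trans h5
        rwa [show i + (1 + s + m) = i + 1 + s + m by ring] at h6
    have h7 : ((Finset.range (ℓ ^ a - 1)).filter fun i =>
        (q : Ω) ^ (i + 1 + s) * (q : Ω) ^ m = (q : Ω) ^ j).card =
        Nat.count (· ≡ (j + o * (1 + s + m)) - (1 + s + m) [MOD o]) (ℓ ^ a - 1) := by
      rw [Nat.count_eq_card_filter_range]
      congr 1
      ext i
      simp only [Finset.mem_filter, Finset.mem_range]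
      rw [h1]
    rw [h7, Nat.count_modEq_card _ ho]
    have h8 : (ℓ ^ a - 1) % o = 0 := Nat.mod_eq_zero_of_dvd (order_dvd hℓ hq a)
    rw [h8]
    simp
  · rw [Finset.card_eq_zero, Finset.filter_eq_empty_iff]
    intro i _ h
    exact hz (PP.of_mul hℓ hq ⟨i + 1 + s, rfl⟩ ⟨j, h⟩)

open Classical in
/-- the sum over all the twists -/
theorem count_twists (hℓ : ℓ.Prime) (hq : Nat.Coprime q ℓ) (a s j : ℕ) (m : Multiset Ω) :
    ∑ i ∈ Finset.range (ℓ ^ a - 1), (m.map fun x => (q : Ω) ^ (i + 1 + s) * x).countP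
      (fun x => x = (q : Ω) ^ j) =
      (ℓ ^ a - 1) / orderOf (q : ZMod ℓ) * m.countP (PP q Ω) := by
  induction m using Multiset.induction_on with
  | empty => simp
  | cons z m ih =>
    have h1 : ∀ i, ((z ::ₘ m).map fun x => (q : Ω) ^ (i + 1 + s) * x).countP
        (fun x => x = (q : Ω) ^ j) =
        (m.map fun x => (q : Ω) ^ (i + 1 + s) * x).countP (fun x => x = (q : Ω) ^ j) +
          if (q : Ω) ^ (i + 1 + s) * z = (q : Ω) ^ j then 1 else 0 := by
      intro i
      rw [Multiset.map_cons, Multiset.countP_cons]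
    rw [Finset.sum_congr rfl fun i _ => h1 i, Finset.sum_add_distrib, ih, Finset.sum_boole,
      count_residues hℓ hq, Multiset.countP_cons, mul_add]
    congr 1
    split_ifs <;> simp

end residues

end Pool.Agent.H856.JN
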