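import Pool.Agent.H856.JN.Gen

/-!
The numbers of the eigenvalues which are powers of `q` modulo `ℓ`.
-/

set_option autoImplicit false
set_option linter.unusedSectionVars false

open Function MvPolynomial

namespace Pool.Agent.H856.JN

open Classical in
/-- the number of the elements of `γ` which are equal to `q ^ j` modulo `ℓ` -/
noncomputable def cntAt (q : ℕ) {A Ω : Type} [CommRing A] [CommRing Ω] (φ : A →+* Ω) (j : ℕ)
    (γ : Multiset A) : ℕ :=
  γ.countP fun x => φ x = (q : Ω) ^ j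

open Classical in
/-- the number of the elements of `γ` which are powers of `q` modulo `ℓ` -/
noncomputable def cntPow (q : ℕ) {A Ω : Type} [CommRing A] [CommRing Ω] (φ : A →+* Ω)
    (γ : Multiset A) : ℕ :=
  γ.countP fun x => IsQPower q φ x

/-- the products `q a b` for `a` in `α` and `b` in `β` -/
def joinPart {A : Type} [CommRing A] (q : ℕ) (α β : Multiset A) : Multiset A :=
  (mprod α β).map fun x => (q : A) * x

section basics

variable {A Ω : Type} [CommRing A] [Field Ω] {q ℓ : ℕ} [CharP Ω ℓ] (φ : A →+* Ω)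

open Classical in
theorem cntAt_add (j : ℕ) (γ δ : Multiset A) :
    cntAt q φ j (γ + δ) = cntAt q φ j γ + cntAt q φ j δ := Multiset.countP_add _ _ _

open Classical in
theorem cntPow_add (γ δ : Multiset A) :
    cntPow q φ (γ + δ) = cntPow q φ γ + cntPow q φ δ := Multiset.countP_add _ _ _

open Classical in
theorem cntAt_eq_zero {j : ℕ} {γ : Multiset A} :
    cntAt q φ j γ = 0 ↔ ∀ x ∈ γ, φ x ≠ (q : Ω) ^ j := Multiset.countP_eq_zero

open Classical in
theorem cntPow_eq_zero {γ : Multiset A} :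
    cntPow q φ γ = 0 ↔ ∀ x ∈ γ, ¬ IsQPower q φ x := Multiset.countP_eq_zero

open Classical in
theorem countP_at (j : ℕ) (γ : Multiset A) :
    (γ.map φ).countP (fun x => x = (q : Ω) ^ j) = cntAt q φ j γ := by
  rw [Multiset.countP_map, ← Multiset.countP_eq_card_filter, cntAt]

open Classical in
theorem countP_pow (γ : Multiset A) :
    (γ.map φ).countP (PP q Ω) = cntPow q φ γ := by
  rw [Multiset.countP_map, ← Multiset.countP_eq_card_filter, cntPow]
  rfl

open Classical in
theorem cntAt_joinPart (hℓ : ℓ.Prime) (hq : Nat.Coprime q ℓ) (j : ℕ) (α β : Multiset A) :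
    cntAt q φ (j + 1) (joinPart q α β) = cntAt q φ j (mprod α β) := by
  unfold cntAt joinPart
  rw [Multiset.countP_map, ← Multiset.countP_eq_card_filter]
  refine Multiset.countP_congr rfl fun x _ => ?_
  rw [map_mul, map_natCast, pow_succ']
  exact propext ⟨fun h => mul_left_cancel₀ (q_ne (Ω := Ω) hℓ hq) h, fun h => by rw [h]⟩

end basics

section main

variable {k : Type} [Field k] [Finite k] {ι ι' : Type} [Fintype ι] [Fintype ι'] [Nonempty ι]
  [Nonempty ι'] {A : Type} [CommRing A] [IsDomain A] [CharZero A] {ℓ a : ℕ} (hℓ : ℓ.Prime)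
  (hk : (ℓ : k) ≠ 0) {F : MvPolynomial ι k} (hF : F.IsHomogeneous (ℓ ^ a))
  {G : MvPolynomial ι' k} (hG : G.IsHomogeneous (ℓ ^ a)) {α β γ : Multiset A}
  (hα : IsSpectrum F α) (hβ : IsSpectrum G β) (hγ : IsSpectrum (joinForm F G) γ)
  {Ω : Type} [Field Ω] [CharP Ω ℓ] (φ : A →+* Ω)

include hℓ hk hF hG hα hβ hγ in
/-- **The formula** for the numbers of the eigenvalues which are powers of `q` modulo `ℓ`. -/
theorem formula (j : ℕ) : cntAt (Nat.card k) φ (j + 1) γ +
      (ℓ ^ a - 1) / orderOf (Nat.card k : ZMod ℓ) *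
        (cntPow (Nat.card k) φ α + cntPow (Nat.card k) φ β) =
    cntAt (Nat.card k) φ j (mprod α β) +
      (ℓ ^ a - 1) / orderOf (Nat.card k : ZMod ℓ) * (1 + cntPow (Nat.card k) φ (mprod α β)) := by
  classical
  have hq := coprime_card hℓ hk
  have hid := identity_gen hℓ hk hF hG hα hβ hγ φ
  simp only [← Em_add, prod_Em] at hid
  have hc := Em_count hid (P := fun x => x = (Nat.card k : Ω) ^ (j + 1)) fun x hx => by
    rw [hx]
    exact pow_ne_zero _ (q_ne (Ω := Ω) hℓ hq)
  rw [Multiset.countP_add, Multiset.countP_add, countP_sum, countP_sum] at hc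
  simp only [Multiset.countP_add, Finset.sum_add_distrib] at hc
  rw [count_twists hℓ hq, count_twists hℓ hq] at hc
  have h1 : ∀ (e : ℕ), ∑ i ∈ Finset.range (ℓ ^ a - 1),
      ({(Nat.card k : Ω) ^ (i + 1 + e)} : Multiset Ω).countP
        (fun x => x = (Nat.card k : Ω) ^ (j + 1)) =
      (ℓ ^ a - 1) / orderOf (Nat.card k : ZMod ℓ) := by
    intro e
    have h2 := count_twists (Ω := Ω) hℓ hq a e (j + 1) {1}
    have h3 : (({1} : Multiset Ω).countP (PP (Nat.card k) Ω)) = 1 := by
      have : ({1} : Multiset Ω) = 1 ::ₘ 0 := rfl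
      rw [this, Multiset.countP_cons_of_pos _ ⟨0, by simp⟩, Multiset.countP_zero]
    rw [h3, mul_one] at h2
    rw [← h2]
    refine Finset.sum_congr rfl fun i _ => ?_
    rw [Multiset.map_singleton, mul_one]
  have h4 : ∑ i ∈ Finset.range (ℓ ^ a - 1), ((mprod (α.map φ) (β.map φ)).map
      fun x => (Nat.card k : Ω) ^ (i + 1) * x).countP
        (fun x => x = (Nat.card k : Ω) ^ (j + 1)) =
      (ℓ ^ a - 1) / orderOf (Nat.card k : ZMod ℓ) *
        (mprod (α.map φ) (β.map φ)).countP (PP (Nat.card k) Ω) := by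
    have h2 := count_twists (Ω := Ω) hℓ hq a 0 (j + 1) (mprod (α.map φ) (β.map φ))
    simpa using h2
  rw [h1, h4, ← map_mprod, countP_pow, countP_pow, countP_pow, countP_at] at hc
  have h5 : (((mprod α β).map φ).map fun x => (Nat.card k : Ω) ^ 1 * x).countP
      (fun x => x = (Nat.card k : Ω) ^ (j + 1)) = cntAt (Nat.card k) φ j (mprod α β) := by
    rw [← cntAt_joinPart φ hℓ hq, ← countP_at, joinPart, Multiset.map_map, Multiset.map_map]
    congr 1
    refine Multiset.map_congr rfl fun x _ => ?_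
    simp
  rw [h5] at hc
  rw [mul_add, mul_add, mul_one]
  linarith

include hℓ hk hF hG hα hβ hγ in
/-- the case that the correction is zero -/
theorem formula_zero (h : cntPow (Nat.card k) φ α + cntPow (Nat.card k) φ β =
    1 + cntPow (Nat.card k) φ (mprod α β)) (j : ℕ) :
    cntAt (Nat.card k) φ (j + 1) γ = cntAt (Nat.card k) φ j (mprod α β) := by
  have h1 := formula hℓ hk hF hG hα hβ hγ φ j
  rw [h] at h1
  exact Nat.add_right_cancel h1

open Classical in
include hℓ hk hF hG hα hβ hγ in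
/-- the multiplicities -/
theorem formula_exact (h : cntPow (Nat.card k) φ α + cntPow (Nat.card k) φ β =
    1 + cntPow (Nat.card k) φ (mprod α β)) (hle : joinPart (Nat.card k) α β ≤ γ) (j : ℕ) :
    γ.count ((Nat.card k : A) ^ (j + 1)) = (mprod α β).count ((Nat.card k : A) ^ j) := by
  have hq := coprime_card hℓ hk
  have h1 := formula_zero hℓ hk hF hG hα hβ hγ φ h j
  obtain ⟨ρ, rfl⟩ := Multiset.le_iff_exists_add.1 hle
  rw [cntAt_add, cntAt_joinPart φ hℓ hq] at h1
  have h2 : cntAt (Nat.card k) φ (j + 1) ρ = 0 := by omega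
  rw [cntAt_eq_zero] at h2
  have h3 : ρ.count ((Nat.card k : A) ^ (j + 1)) = 0 := by
    rw [Multiset.count_eq_zero]
    intro hm
    exact h2 _ hm (by rw [map_pow, map_natCast])
  have hq0 : (Nat.card k : A) ≠ 0 := Nat.cast_ne_zero.2 Nat.card_pos.ne'
  rw [Multiset.count_add, h3, add_zero, joinPart, pow_succ',
    Multiset.count_map_eq_count' (fun x => (Nat.card k : A) * x) _ (mul_right_injective₀ hq0)]

include hℓ hk hF hG hα hβ hγ in
/-- the eigenvalues modulo `ℓ` -/
theorem gen_mem : ∀ g ∈ γ, φ g = 0 ∨ IsQPower (Nat.card k) φ g ∨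
    ∃ x ∈ α, ∃ b ∈ β, ∃ j : ℕ, φ g = (Nat.card k : Ω) ^ j * (φ x * φ b) := by
  intro r hr
  by_cases hr0 : φ r = 0
  · exact Or.inl hr0
  refine Or.inr ?_
  have hid := identity_gen hℓ hk hF hG hα hβ hγ φ
  simp only [← Em_add, prod_Em] at hid
  have h3 := Em_mem hid (x := φ r)
    (Multiset.mem_add.2 (Or.inl (Multiset.mem_map_of_mem φ hr))) hr0
  have h5 : ∀ i : ℕ, φ r ∈ (mprod (α.map φ) (β.map φ)).map
      (fun x => (Nat.card k : Ω) ^ i * x) →
      ∃ x ∈ α, ∃ b ∈ β, ∃ j : ℕ, φ r = (Nat.card k : Ω) ^ j * (φ x * φ b) := by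
    intro i h4
    obtain ⟨x, hx, hx'⟩ := Multiset.mem_map.1 h4
    obtain ⟨y', hy', z', hz', rfl⟩ := mem_mprod.1 hx
    obtain ⟨y, hy, rfl⟩ := Multiset.mem_map.1 hy'
    obtain ⟨z, hz, rfl⟩ := Multiset.mem_map.1 hz'
    exact ⟨y, hy, z, hz, i, hx'.symm⟩
  rcases Multiset.mem_add.1 h3 with h3 | h3
  · exact Or.inr (h5 1 h3)
  · obtain ⟨i, _, hi⟩ := Multiset.mem_sum.1 h3
    rcases Multiset.mem_add.1 hi with h4 | h4
    · rw [Multiset.mem_singleton] at h4
      exact Or.inl ⟨_, h4⟩
    · exact Or.inr (h5 _ h4)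

end main

section cons

variable {A Ω : Type} [CommRing A] [Field Ω] {q ℓ : ℕ} [CharP Ω ℓ] (φ : A →+* Ω)

theorem mprod_cons_right (α β' : Multiset A) (b : A) :
    mprod α (b ::ₘ β') = α.map (fun x => x * b) + mprod α β' := by
  induction α using Multiset.induction_on with
  | empty => simp [mprod]
  | cons x α ih =>
    rw [mprod_cons, mprod_cons, ih, Multiset.map_cons, Multiset.map_cons, Multiset.cons_add,
      Multiset.cons_add]
    congr 1
    rw [← add_assoc, ← add_assoc, add_comm (Multiset.map (fun b => x * b) β')]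

open Classical in
/-- the condition for the case that only one eigenvalue `q ^ c'` of `G` matters -/
theorem cond_of_simple (hℓ : ℓ.Prime) (hq : Nat.Coprime q ℓ) {α β' : Multiset A} {c' : ℕ}
    (h1 : ∀ b ∈ β', ¬ IsQPower q φ b) (h2 : ∀ x ∈ α, ∀ b ∈ β', ¬ IsQPower q φ (x * b)) :
    cntPow q φ α + cntPow q φ ((q : A) ^ c' ::ₘ β') =
      1 + cntPow q φ (mprod α ((q : A) ^ c' ::ₘ β')) ∧
    ∀ c, cntAt q φ (c + c') (mprod α ((q : A) ^ c' ::ₘ β')) = cntAt q φ c α := by
  have h0 : IsQPower q φ ((q : A) ^ c') := ⟨c', by rw [map_pow, map_natCast]⟩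
  have h3 : cntPow q φ (mprod α β') = 0 := by
    rw [cntPow_eq_zero]
    intro x hx
    obtain ⟨y, hy, z, hz, rfl⟩ := mem_mprod.1 hx
    exact h2 y hy z hz
  have h4 : cntPow q φ ((q : A) ^ c' ::ₘ β') = 1 := by
    unfold cntPow
    rw [Multiset.countP_cons_of_pos (p := fun x => IsQPower q φ x) _ h0]
    have := (cntPow_eq_zero φ).2 h1
    unfold cntPow at this
    rw [this]
  have h5 : cntPow q φ (α.map fun x => x * (q : A) ^ c') = cntPow q φ α := by
    unfold cntPow
    rw [Multiset.countP_map, ← Multiset.countP_eq_card_filter]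
    refine Multiset.countP_congr rfl fun x _ => propext ⟨?_, ?_⟩
    swap
    · rintro ⟨i, hi⟩
      obtain ⟨j, hj⟩ := h0
      exact ⟨i + j, by rw [map_mul, hi, hj, pow_add]⟩
    intro h
    obtain ⟨i, hi⟩ := h
    obtain ⟨j, hj⟩ := PP.of_mul (x := φ ((q : A) ^ c')) (y := φ x) hℓ hq h0
      ⟨i, by rw [← map_mul, mul_comm]; exact hi⟩
    exact ⟨j, hj⟩
  have h6 : ∀ c, cntAt q φ (c + c') (α.map fun x => x * (q : A) ^ c') = cntAt q φ c α := by
    intro c
    unfold cntAt
    rw [Multiset.countP_map, ← Multiset.countP_eq_card_filter]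
    refine Multiset.countP_congr rfl fun x _ => ?_
    rw [map_mul, map_pow, map_natCast, pow_add]
    exact propext ⟨fun h => mul_right_cancel₀ (pow_ne_zero _ (q_ne (Ω := Ω) hℓ hq)) h,
      fun h => by rw [h]⟩
  have h7 : ∀ j, cntAt q φ j (mprod α β') = 0 := by
    intro j
    rw [cntAt_eq_zero]
    intro x hx h
    exact (cntPow_eq_zero φ).1 h3 x hx ⟨j, h⟩
  constructor
  · rw [mprod_cons_right, cntPow_add, h3, h4, h5]
    ring
  · intro c
    rw [mprod_cons_right, cntAt_add, h6, h7, add_zero]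

open Classical in
theorem count_of_simple [IsDomain A] (hq0 : (q : A) ≠ 0) {α β' : Multiset A} {c' : ℕ}
    (h2 : ∀ x ∈ α, ∀ b ∈ β', ¬ IsQPower q φ (x * b)) (c : ℕ) :
    (mprod α ((q : A) ^ c' ::ₘ β')).count ((q : A) ^ (c + c')) = α.count ((q : A) ^ c) := by
  rw [mprod_cons_right, Multiset.count_add]
  have h5 : (mprod α β').count ((q : A) ^ (c + c')) = 0 := by
    rw [Multiset.count_eq_zero]
    intro h
    obtain ⟨y, hy, z, hz, hyz⟩ := mem_mprod.1 h
    apply h2 y hy z hz
    exact ⟨c + c', by rw [hyz, map_pow, map_natCast]⟩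
  rw [h5, add_zero, pow_add]
  exact Multiset.count_map_eq_count' (fun x => x * (q : A) ^ c') _
    (mul_left_injective₀ (pow_ne_zero _ hq0)) _

end cons

end Pool.Agent.H856.JN
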