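import Pool.Agent.H856.JN.Gen2

/-!
Towers of hypersurfaces, without any assumption on the shape of the eigenvalues.
-/

set_option autoImplicit false
set_option linter.unusedSectionVars false

open Function MvPolynomial

namespace Pool.Agent.H856.JN

section chain

variable {k : Type} [Field k] [Finite k] {ι : Type} [Fintype ι] [Nonempty ι]
  {A : Type} [CommRing A] [IsDomain A] [CharZero A] {ℓ a : ℕ} (hℓ : ℓ.Prime)
  (hk : (ℓ : k) ≠ 0) {Ω : Type} [Field Ω] [CharP Ω ℓ] (φ : A →+* Ω)
  {M : ℕ} {g h : ℕ → Polynomial k} {ζ ξ : ℕ → A}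
  {F : MvPolynomial ι k} (hF : F.IsHomogeneous (ℓ ^ a)) {γ : ℕ → Multiset A}
  (hM : ∀ x ∈ γ 0, φ x = 0 ∨ IsQPower (Nat.card k) φ (x ^ M))

open Classical in
include hℓ hk hF hM in
theorem tower_gen (n : ℕ) (hgh : Admissible k ℓ a M g h n)
    (hζ : ∀ i < n, IsPrimitiveRoot (ζ i) (g i).natDegree)
    (hξ : ∀ i < n, IsPrimitiveRoot (ξ i) (h i).natDegree)
    (hs : ∀ i ≤ n, IsSpectrum (towerForm F (fun i => binForm (g i * h i)) i) (γ i)) :
    (∀ x ∈ γ n, φ x = 0 ∨ IsQPower (Nat.card k) φ
      (x ^ (M * ∏ i ∈ Finset.range n, ((g i).natDegree * (h i).natDegree)))) ∧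
    (∀ c, cntAt (Nat.card k) φ (c + n) (γ n) = cntAt (Nat.card k) φ c (γ 0)) ∧
    ((∀ i < n, joinPart (Nat.card k) (γ i)
        (binSpectrum (g i).natDegree (h i).natDegree (ζ i) (ξ i)) ≤ γ (i + 1)) →
      ∀ c, (γ n).count ((Nat.card k : A) ^ (c + n)) = (γ 0).count ((Nat.card k : A) ^ c)) := by
  induction n with
  | zero =>
    refine ⟨?_, fun c => rfl, fun _ c => rfl⟩
    intro x hx
    rw [Finset.prod_range_zero, mul_one]
    exact hM x hx
  | succ n ih =>
    have hq := coprime_card hℓ hk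
    have hn : n < n + 1 := Nat.lt_succ_self n
    obtain ⟨ih1, ih2, ih3⟩ := ih (hgh.mono hn.le) (fun i hi => hζ i (by omega))
      (fun i hi => hξ i (by omega)) fun i hi => hs i (by omega)
    have hsn := hs n (by omega)
    have hsn' := hs (n + 1) le_rfl
    have hbin : IsSpectrum (binForm (g n * h n)) (((Nat.card k : A) ^ 0) ::ₘ
        (unity' (g n).natDegree (ζ n) + unity' (h n).natDegree (ξ n))) := by
      rw [pow_zero]
      exact spectrum_binForm (hgh.irr n hn).1 (hgh.irr n hn).2 (hgh.monic n hn).1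
        (hgh.monic n hn).2 (hgh.ne n hn) (hζ n hn) (hξ n hn)
    have hhom : (towerForm F (fun i => binForm (g i * h i)) n).IsHomogeneous (ℓ ^ a) :=
      towerForm_homogeneous hF n (fun i hi => bin_homogeneous hgh (hi.trans hn))
    have hbh := bin_homogeneous hgh hn
    have hpos : 0 < (g n).natDegree * (h n).natDegree :=
      Nat.mul_pos (hgh.irr n hn).1.natDegree_pos (hgh.irr n hn).2.natDegree_pos
    have h1 : ∀ b ∈ unity' (g n).natDegree (ζ n) + unity' (h n).natDegree (ξ n),
        ¬ IsQPower (Nat.card k) φ b := fun b hb => unit_not hℓ φ (hζ n hn) (hξ n hn)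
          ((hgh.cop n hn).coprime_dvd_right (dvd_mul_left _ _)) hb
    have h2 : ∀ x ∈ γ n,
        ∀ b ∈ unity' (g n).natDegree (ζ n) + unity' (h n).natDegree (ξ n),
          ¬ IsQPower (Nat.card k) φ (x * b) := fun x hx b hb =>
      no_interaction hℓ hk φ (ih1 x hx) (unit_pow (hζ n hn) (hξ n hn) hb) hpos
        (prod_coprime hgh hn) (h1 b hb)
    obtain ⟨hc1, hc2⟩ := cond_of_simple (c' := 0) φ hℓ hq h1 h2
    refine ⟨?_, ?_, ?_⟩
    · intro x hx
      rw [Finset.prod_range_succ, ← mul_assoc]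
      set N := M * ∏ i ∈ Finset.range n, ((g i).natDegree * (h i).natDegree) with hN
      set m := (g n).natDegree * (h n).natDegree with hm
      rcases gen_mem hℓ hk hhom hbh hsn hbin hsn' φ x hx with h4 | h4 | ⟨y, hy, b, hb, j, hz⟩
      · exact Or.inl h4
      · exact Or.inr (h4.pow φ _)
      · rcases ih1 y hy with h3 | ⟨e, he⟩
        · left
          rw [hz, h3, zero_mul, mul_zero]
        · right
          have hb1 : b ^ m = 1 := by
            rcases Multiset.mem_cons.1 hb with rfl | hb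
            · rw [pow_zero, one_pow]
            · exact unit_pow (hζ n hn) (hξ n hn) hb
          refine ⟨j * (N * m) + e * m, ?_⟩
          have h5 : φ b ^ (N * m) = 1 := by
            rw [mul_comm, pow_mul, ← map_pow, hb1, map_one, one_pow]
          have h6 : φ y ^ (N * m) = (Nat.card k : Ω) ^ (e * m) := by
            rw [pow_mul, ← map_pow, he, ← pow_mul]
          rw [map_pow, hz, mul_pow, mul_pow, h5, h6, mul_one, ← pow_mul, ← pow_add]
    · intro c
      rw [← ih2, ← hc2 (c + n)]
      exact formula_zero hℓ hk hhom hbh hsn hbin hsn' φ hc1 (c + n)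
    · intro hle c
      rw [← ih3 (fun i hi => hle i (by omega)) c]
      have hq0 : (Nat.card k : A) ≠ 0 := Nat.cast_ne_zero.2 Nat.card_pos.ne'
      rw [← count_of_simple (c' := 0) φ hq0 h2 (c + n)]
      refine formula_exact hℓ hk hhom hbh hsn hbin hsn' φ hc1 ?_ (c + n)
      have h3 := hle n hn
      rw [pow_zero]
      exact h3

end chain

end Pool.Agent.H856.JN
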