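import Pool.Agent.H856.JN.Pts

/-!
The hypersurface `F(x) + G(y) = 0` as a torsor, outside of `F = G = 0`.
-/

set_option autoImplicit false
set_option linter.unusedSectionVars false

open Function MvPolynomial

namespace Pool.Agent.H856.JN

/-- the form `F(x) + G(y)` -/
noncomputable def joinForm {k ι ι' : Type} [Field k] (F : MvPolynomial ι k)
    (G : MvPolynomial ι' k) : MvPolynomial (ι ⊕ ι') k :=
  rename Sum.inl F + rename Sum.inr G

section evals

variable {k L : Type} [Field k] [Field L] [Algebra k L] {ι ι' : Type}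

theorem aeval_joinForm (F : MvPolynomial ι k) (G : MvPolynomial ι' k) (w : ι ⊕ ι' → L) :
    aeval w (joinForm F G) = aeval (w ∘ Sum.inl) F + aeval (w ∘ Sum.inr) G := by
  rw [joinForm, map_add, aeval_rename, aeval_rename]

theorem aeval_smul {d : ℕ} {F : MvPolynomial ι k} (hF : F.IsHomogeneous d) (c : L) (v : ι → L) :
    aeval (c • v) F = c ^ d * aeval v F := by
  rw [aeval_def, aeval_def, eval₂_eq, eval₂_eq, Finset.mul_sum]
  refine Finset.sum_congr rfl fun m hm => ?_
  have h1 : m.sum (fun _ e => e) = d := by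
    have h2 := hF (mem_support_iff.1 hm)
    rw [Finsupp.weight_apply] at h2
    simpa using h2
  have h2 : ∏ i ∈ m.support, (c • v) i ^ m i = c ^ d * ∏ i ∈ m.support, v i ^ m i := by
    rw [← h1, Finsupp.sum, ← Finset.prod_pow_eq_pow_sum, ← Finset.prod_mul_distrib]
    refine Finset.prod_congr rfl fun i _ => ?_
    rw [Pi.smul_apply, smul_eq_mul, mul_pow]
  rw [h2]
  ring

theorem aeval_zero_of {d : ℕ} (hd : 0 < d) {F : MvPolynomial ι k} (hF : F.IsHomogeneous d) :
    aeval (0 : ι → L) F = 0 := by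
  have h := aeval_smul hF (0 : L) (0 : ι → L)
  rw [zero_smul, zero_pow hd.ne', zero_mul] at h
  exact h

variable [Finite k]

theorem aeval_fr (F : MvPolynomial ι k) (v : ι → L) :
    aeval (fun i => v i ^ Nat.card k) F = (aeval v F) ^ Nat.card k := by
  have h := MvPolynomial.comp_aeval_apply (f := v) (fr k L) F
  simp only [fr_apply] at h
  exact h.symm

end evals

section torsor

variable {k K : Type} [Field k] [Finite k] [Field K] [Algebra k K] {ι ι' : Type}
  {d : ℕ} (hd : 0 < d) {F : MvPolynomial ι k} (hF : F.IsHomogeneous d)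
  {G : MvPolynomial ι' k} (hG : G.IsHomogeneous d)

/-- the open cone `F ≠ 0` -/
def DF (K : Type) [Field K] [Algebra k K] (F : MvPolynomial ι k) (v : ι → K) : Prop :=
  aeval v F ≠ 0

/-- the cone `F(x) + G(y) = 0`, `F(x) ≠ 0` -/
def DT (K : Type) [Field K] [Algebra k K] (F : MvPolynomial ι k) (G : MvPolynomial ι' k)
    (w : ι ⊕ ι' → K) : Prop :=
  aeval (w ∘ Sum.inl) F + aeval (w ∘ Sum.inr) G = 0 ∧ aeval (w ∘ Sum.inl) F ≠ 0

include hd hF in
theorem isCone_DF : IsCone k (DF K F) where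
  ne v hv := by
    rintro rfl
    exact hv (aeval_zero_of hd hF)
  smul c hc v hv := by
    unfold DF at *
    rw [aeval_smul hF]
    exact mul_ne_zero (pow_ne_zero _ hc) hv
  fr v hv := by
    unfold DF at *
    rw [aeval_fr]
    exact pow_ne_zero _ hv

include hd hF hG in
theorem isCone_DT : IsCone k (DT K F G) where
  ne v hv := by
    rintro rfl
    exact hv.2 (aeval_zero_of hd hF)
  smul c hc w hw := by
    have h1 : (c • w) ∘ Sum.inl = c • (w ∘ Sum.inl) := rfl
    have h2 : (c • w) ∘ Sum.inr = c • (w ∘ Sum.inr) := rfl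
    unfold DT at *
    rw [h1, h2, aeval_smul hF, aeval_smul hG, ← mul_add, hw.1, mul_zero]
    exact ⟨rfl, mul_ne_zero (pow_ne_zero _ hc) hw.2⟩
  fr w hw := by
    have h1 : (fun i => w i ^ Nat.card k) ∘ (Sum.inl : ι → ι ⊕ ι') =
      fun i => (w ∘ Sum.inl) i ^ Nat.card k := rfl
    have h2 : (fun i => w i ^ Nat.card k) ∘ (Sum.inr : ι' → ι ⊕ ι') =
      fun i => (w ∘ Sum.inr) i ^ Nat.card k := rfl
    unfold DT at *
    rw [h1, h2, aeval_fr, aeval_fr]
    refine ⟨?_, pow_ne_zero _ hw.2⟩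
    rw [← fr_apply (k := k), ← fr_apply (k := k), ← map_add, hw.1, map_zero]

theorem DT_right {w : ι ⊕ ι' → K} (hw : DT K F G w) : aeval (w ∘ Sum.inr) G ≠ 0 := by
  intro h0
  have := hw.1
  rw [h0, add_zero] at this
  exact hw.2 this

/-- the projection -/
def prj (F : MvPolynomial ι k) (G : MvPolynomial ι' k) :
    PQ (DT K F G) → PQ (DF K F) × PQ (DF K G) :=
  fun P => (Quotient.map (fun w => ⟨w.1 ∘ Sum.inl, w.2.2⟩)
      (by
        rintro v w ⟨c, hc, h⟩
        exact ⟨c, hc, congrArg (fun u : ι ⊕ ι' → K => u ∘ Sum.inl) h⟩) P,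
    Quotient.map (fun w => ⟨w.1 ∘ Sum.inr, DT_right w.2⟩)
      (by
        rintro v w ⟨c, hc, h⟩
        exact ⟨c, hc, congrArg (fun u : ι ⊕ ι' → K => u ∘ Sum.inr) h⟩) P)

include hG in
theorem DT_act {z : K} (hz : z ^ d = 1) {w : ι ⊕ ι' → K} (hw : DT K F G w) :
    DT K F G (Sum.elim (w ∘ Sum.inl) (z • (w ∘ Sum.inr))) := by
  unfold DT at *
  rw [Sum.elim_comp_inl, Sum.elim_comp_inr, aeval_smul hG, hz, one_mul]
  exact hw

/-- the action of the roots of unity -/
def act : rootsOfUnity d K → PQ (DT K F G) → PQ (DT K F G) := fun z =>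
  Quotient.map (fun w => ⟨Sum.elim (w.1 ∘ Sum.inl) (((z : Kˣ) : K) • (w.1 ∘ Sum.inr)),
      DT_act hG ((mem_rootsOfUnity' _ _).1 z.2) w.2⟩)
    (by
      rintro v w ⟨c, hc, h⟩
      refine ⟨c, hc, ?_⟩
      funext i
      rcases i with i | i
      · exact congrFun h (Sum.inl i)
      · have h2 : c * v.1 (Sum.inr i) = w.1 (Sum.inr i) := congrFun h (Sum.inr i)
        show c * (((z : Kˣ) : K) * v.1 (Sum.inr i)) = ((z : Kˣ) : K) * w.1 (Sum.inr i)
        rw [← h2]
        ring)

theorem act_mk (z : rootsOfUnity d K) (w : {w // DT K F G w}) :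
    act hG z (Quotient.mk (pr _) w) = Quotient.mk (pr _)
      ⟨Sum.elim (w.1 ∘ Sum.inl) (((z : Kˣ) : K) • (w.1 ∘ Sum.inr)),
        DT_act hG ((mem_rootsOfUnity' _ _).1 z.2) w.2⟩ := rfl

theorem prj_mk (w : {w // DT K F G w}) : prj F G (Quotient.mk (pr _) w) =
    (Quotient.mk (pr _) ⟨w.1 ∘ Sum.inl, w.2.2⟩,
      Quotient.mk (pr _) ⟨w.1 ∘ Sum.inr, DT_right w.2⟩) := rfl

theorem ne_zero_comp (hd : 0 < d) (hF : F.IsHomogeneous d) {w : ι ⊕ ι' → K} (hw : DT K F G w) :
    ∃ i, w (Sum.inl i) ≠ 0 := by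
  by_contra hne
  push Not at hne
  have : w ∘ Sum.inl = 0 := funext hne
  apply hw.2
  rw [this]
  exact aeval_zero_of hd hF

theorem ne_zero_comp' (hd : 0 < d) (hG : G.IsHomogeneous d) {w : ι ⊕ ι' → K}
    (hw : DT K F G w) : ∃ i, w (Sum.inr i) ≠ 0 := by
  by_contra hne
  push Not at hne
  have : w ∘ Sum.inr = 0 := funext hne
  apply DT_right hw
  rw [this]
  exact aeval_zero_of hd hG

theorem isTorsor [IsAlgClosed K] : IsTorsor (Nat.card k) (frq (isCone_DT (K := K) hd hF hG))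
    (Prod.map (frq (isCone_DF (K := K) hd hF)) (frq (isCone_DF (K := K) hd hG))) (prj F G)
    (act hG) where
  comm P := by
    induction P using Quotient.ind with
    | _ w => rfl
  surj := by
    rintro ⟨P, Q⟩
    induction P using Quotient.ind with
    | _ v =>
    induction Q using Quotient.ind with
    | _ v' =>
    obtain ⟨z, hz⟩ := IsAlgClosed.exists_pow_nat_eq (-(aeval v.1 F) / aeval v'.1 G) hd
    have hz0 : z ≠ 0 := by
      rintro rfl
      rw [zero_pow hd.ne'] at hz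
      exact div_ne_zero (neg_ne_zero.2 v.2) v'.2 hz.symm
    have hw : DT K F G (Sum.elim v.1 (z • v'.1)) := by
      unfold DT
      rw [Sum.elim_comp_inl, Sum.elim_comp_inr, aeval_smul hG, hz]
      refine ⟨?_, v.2⟩
      rw [div_mul_cancel₀ _ v'.2, add_neg_cancel]
    refine ⟨Quotient.mk (pr _) ⟨_, hw⟩, ?_⟩
    rw [prj_mk]
    refine Prod.ext ?_ ?_
    · refine congrArg (Quotient.mk (pr _)) (Subtype.ext ?_)
      exact Sum.elim_comp_inl v.1 (z • v'.1)
    · refine Quotient.sound ⟨z⁻¹, inv_ne_zero hz0, ?_⟩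
      show z⁻¹ • (Sum.elim v.1 (z • v'.1) ∘ Sum.inr) = v'.1
      rw [Sum.elim_comp_inr, smul_smul, inv_mul_cancel₀ hz0, one_smul]
  one P := by
    induction P using Quotient.ind with
    | _ w =>
    rw [act_mk]
    refine congrArg _ (Subtype.ext ?_)
    funext i
    rcases i with i | i
    · rfl
    · show ((1 : Kˣ) : K) * w.1 (Sum.inr i) = w.1 (Sum.inr i)
      rw [Units.val_one, one_mul]
  mul z z' P := by
    induction P using Quotient.ind with
    | _ w =>
    rw [act_mk, act_mk, act_mk]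
    refine congrArg _ (Subtype.ext ?_)
    funext i
    rcases i with i | i
    · rfl
    · show (((z : Kˣ) * (z' : Kˣ) : Kˣ) : K) * w.1 (Sum.inr i) =
        ((z : Kˣ) : K) * (((z' : Kˣ) : K) * w.1 (Sum.inr i))
      rw [Units.val_mul, mul_assoc]
  fib z P := by
    induction P using Quotient.ind with
    | _ w =>
    rw [act_mk, prj_mk, prj_mk]
    refine Prod.ext ?_ ?_
    · refine congrArg (Quotient.mk (pr _)) (Subtype.ext ?_)
      exact Sum.elim_comp_inl (w.1 ∘ Sum.inl) (((z : Kˣ) : K) • (w.1 ∘ Sum.inr))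
    · refine Quotient.sound ⟨((z : Kˣ) : K)⁻¹, inv_ne_zero (Units.ne_zero _), ?_⟩
      show ((z : Kˣ) : K)⁻¹ • (Sum.elim (w.1 ∘ Sum.inl) (((z : Kˣ) : K) • (w.1 ∘ Sum.inr)) ∘
        Sum.inr) = w.1 ∘ Sum.inr
      rw [Sum.elim_comp_inr, smul_smul, inv_mul_cancel₀ (Units.ne_zero _), one_smul]
  trans P Q hPQ := by
    induction P using Quotient.ind with
    | _ v =>
    induction Q using Quotient.ind with
    | _ w =>
    rw [prj_mk, prj_mk] at hPQ
    obtain ⟨c, hc, h1⟩ := Quotient.exact (congrArg Prod.fst hPQ)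
    obtain ⟨c', hc', h2⟩ := Quotient.exact (congrArg Prod.snd hPQ)
    change c • (v.1 ∘ Sum.inl) = w.1 ∘ Sum.inl at h1
    change c' • (v.1 ∘ Sum.inr) = w.1 ∘ Sum.inr at h2
    have h3 : (c' / c) ^ d = 1 := by
      have h4 := w.2.1
      rw [← h1, ← h2, aeval_smul hF, aeval_smul hG, eq_neg_of_add_eq_zero_right v.2.1] at h4
      have h5 : (c ^ d - c' ^ d) * aeval (v.1 ∘ Sum.inl) F = 0 := by linear_combination h4
      rcases mul_eq_zero.1 h5 with h6 | h6
      · rw [div_pow, sub_eq_zero.1 h6, div_self (pow_ne_zero _ hc')]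
      · exact absurd h6 v.2.2
    refine ⟨⟨Units.mk0 (c' / c) (div_ne_zero hc' hc), ?_⟩, ?_⟩
    · rw [mem_rootsOfUnity', Units.val_mk0]; exact h3
    · rw [act_mk]
      refine Quotient.sound ⟨c, hc, ?_⟩
      funext i
      rcases i with i | i
      · exact congrFun h1 i
      · show c * ((c' / c) * v.1 (Sum.inr i)) = w.1 (Sum.inr i)
        rw [← mul_assoc, mul_div_cancel₀ _ hc]
        exact congrFun h2 i
  free z P hP := by
    induction P using Quotient.ind with
    | _ w =>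
    rw [act_mk] at hP
    obtain ⟨c, hc, h⟩ := Quotient.exact hP
    obtain ⟨i, hi⟩ := ne_zero_comp hd hF w.2
    obtain ⟨j, hj⟩ := ne_zero_comp' hd hG w.2
    have h1 : c * w.1 (Sum.inl i) = w.1 (Sum.inl i) := congrFun h (Sum.inl i)
    have h2 : c * (((z : Kˣ) : K) * w.1 (Sum.inr j)) = w.1 (Sum.inr j) := congrFun h (Sum.inr j)
    have h3 : c = 1 := mul_right_cancel₀ hi (by rw [h1, one_mul])
    rw [h3, one_mul] at h2
    have h4 : ((z : Kˣ) : K) = 1 := mul_right_cancel₀ hj (by rw [h2, one_mul])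
    exact Subtype.ext (Units.ext h4)
  frob z P := by
    induction P using Quotient.ind with
    | _ w =>
    rw [act_mk, frq_mk, frq_mk, act_mk]
    refine congrArg _ (Subtype.ext ?_)
    funext i
    rcases i with i | i
    · rfl
    · show (((z : Kˣ) : K) * w.1 (Sum.inr i)) ^ Nat.card k =
        (((z ^ Nat.card k : rootsOfUnity d K) : Kˣ) : K) * w.1 (Sum.inr i) ^ Nat.card k
      rw [mul_pow]
      push_cast
      rfl

end torsor

end Pool.Agent.H856.JN
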