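import Pool.Agent.H856.JN.Spec

/-!
The eigenvalues of the join `F(x) + G(y)` modulo `ℓ`.
-/

set_option autoImplicit false
set_option linter.unusedSectionVars false
set_option linter.style.haveILetI false

open Function MvPolynomial

namespace Pool.Agent.H856.JN

section numbers

variable {k : Type} [Field k] [Finite k] (K : Type) [Field K] [Algebra k K] [IsAlgClosed K]
  {ι ι' : Type} [Fintype ι] [Fintype ι'] [Nonempty ι] [Nonempty ι'] {A : Type} [CommRing A]
  [IsDomain A] [CharZero A] {d : ℕ} (hd : 0 < d)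

theorem q_sub_one_ne (k : Type) [Field k] [Finite k] (A : Type) [CommRing A] [IsDomain A]
    [CharZero A] {n : ℕ} (hn : 0 < n) : ((Nat.card k : A) ^ n - 1) ≠ 0 := by
  have h1 := one_lt_q (k := k) hn
  rw [sub_ne_zero]
  exact_mod_cast h1.ne'

theorem spec_ext {F : MvPolynomial ι k} {α : Multiset A} (hα : IsSpectrum F α) {n : ℕ}
    (hn : 0 < n) : (zeros F (ext k K n) : A) = ((Nat.card k : A) ^ n) ^ (Fintype.card ι - 1) +
      ((Nat.card k : A) ^ n - 1) * ps α n := by
  have hfin : Finite (ext k K n) := finite_ext hn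
  have h1 := hα (ext k K n)
  rw [card_ext hn, finrank_ext hn] at h1
  rw [h1]
  push_cast
  rfl

theorem Np_DF {F : MvPolynomial ι k} (hF : F.IsHomogeneous d) {α : Multiset A}
    (hα : IsSpectrum F α) {n : ℕ} (hn : 0 < n) :
    (Np (frq (isCone_DF (K := K) hd hF)) n : A) =
      ((Nat.card k : A) ^ n) ^ (Fintype.card ι - 1) - ps α n := by
  have h1 := card_fixed (isCone_DF (K := K) hd hF) hn
  have h2 := card_total (K := K) hn F
  rw [h1] at h2
  have h3 := congrArg (Nat.cast (R := A)) h2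
  rw [Nat.cast_add, Nat.cast_mul, Nat.cast_sub (one_lt_q hn).le, spec_ext K hα hn] at h3
  push_cast at h3
  have h4 := q_sub_one_ne k A hn
  obtain ⟨N, hN⟩ : ∃ N, Fintype.card ι = N + 1 :=
    ⟨Fintype.card ι - 1, (Nat.sub_add_cancel Fintype.card_pos).symm⟩
  rw [hN, Nat.add_sub_cancel] at h3 ⊢
  refine mul_right_cancel₀ h4 ?_
  linear_combination h3

theorem Np_DT {F : MvPolynomial ι k} (hF : F.IsHomogeneous d) {G : MvPolynomial ι' k}
    (hG : G.IsHomogeneous d) {α β γ : Multiset A}
    (hα : IsSpectrum F α) (hβ : IsSpectrum G β) (hγ : IsSpectrum (joinForm F G) γ) {n : ℕ}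
    (hn : 0 < n) :
    (Np (frq (isCone_DT (K := K) hd hF hG)) n : A) + (Nat.card k : A) ^ n * (ps α n * ps β n) =
      (Np (frq (isCone_DF (K := K) hd hF)) n : A) * (Np (frq (isCone_DF (K := K) hd hG)) n : A) +
        ps γ n := by
  have h1 := card_fixed (isCone_DT (K := K) hd hF hG) hn
  have h2 := card_join (K := K) hn F G
  rw [h1] at h2
  have h3 := congrArg (Nat.cast (R := A)) h2
  rw [Nat.cast_add, Nat.cast_mul, Nat.cast_sub (one_lt_q hn).le, Nat.cast_mul,
    spec_ext K hα hn, spec_ext K hβ hn, spec_ext K hγ hn] at h3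
  rw [Np_DF K hd hF hα hn, Np_DF K hd hG hβ hn]
  push_cast at h3
  have h4 := q_sub_one_ne k A hn
  obtain ⟨N, hN⟩ : ∃ N, Fintype.card ι = N + 1 :=
    ⟨Fintype.card ι - 1, (Nat.sub_add_cancel Fintype.card_pos).symm⟩
  obtain ⟨M, hM⟩ : ∃ M, Fintype.card ι' = M + 1 :=
    ⟨Fintype.card ι' - 1, (Nat.sub_add_cancel Fintype.card_pos).symm⟩
  rw [Fintype.card_sum, hN, hM, show N + 1 + (M + 1) - 1 = N + M + 1 by omega] at h3
  rw [Nat.add_sub_cancel] at h3
  rw [Nat.add_sub_cancel] at h3
  rw [hN, hM, Nat.add_sub_cancel, Nat.add_sub_cancel]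
  refine mul_right_cancel₀ h4 ?_
  linear_combination h3

end numbers

section series

variable {k : Type} [Field k] [Finite k] {ι ι' : Type} [Fintype ι] [Fintype ι'] [Nonempty ι]
  [Nonempty ι'] {A : Type} [CommRing A] [IsDomain A] [CharZero A] {ℓ a : ℕ} (hℓ : ℓ.Prime)
  (hk : (ℓ : k) ≠ 0) {F : MvPolynomial ι k} (hF : F.IsHomogeneous (ℓ ^ a))
  {G : MvPolynomial ι' k} (hG : G.IsHomogeneous (ℓ ^ a)) {α β ρ : Multiset A}
  (hα : IsSpectrum F α) (hβ : IsSpectrum G β)
  (hρ : IsSpectrum (joinForm F G) ((mprod α β).map (fun x => (Nat.card k : A) * x) + ρ))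
  {Ω : Type} [Field Ω] [CharP Ω ℓ] (φ : A →+* Ω)

include hℓ hk in
theorem coprime_card : Nat.Coprime (Nat.card k) ℓ := by
  rw [Nat.coprime_comm, Nat.Prime.coprime_iff_not_dvd hℓ]
  intro h
  apply hk
  letI := Fintype.ofFinite k
  obtain ⟨p, hp⟩ := CharP.exists k
  obtain ⟨m, hpp, hm⟩ := FiniteField.card k p
  rw [Nat.card_eq_fintype_card, hm] at h
  have h1 : ℓ ∣ p := hℓ.dvd_of_dvd_pow h
  rw [(Nat.prime_dvd_prime_iff_eq hℓ hpp).1 h1]
  exact CharP.cast_eq_zero k p

include hℓ hk hF hG hα hβ hρ in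
/-- the identity of the characteristic polynomials -/
theorem identity : Em (ρ.map φ) * (∏ i ∈ Finset.range (ℓ ^ a - 1),
      (Em ((α.map φ).map fun x => (Nat.card k : Ω) ^ (i + 1 + (Fintype.card ι' - 1)) * x) *
      Em ((β.map φ).map fun x => (Nat.card k : Ω) ^ (i + 1 + (Fintype.card ι - 1)) * x))) =
    ∏ i ∈ Finset.range (ℓ ^ a - 1),
      (Em {(Nat.card k : Ω) ^ (i + 1 + ((Fintype.card ι - 1) + (Fintype.card ι' - 1)))} *
      Em ((mprod (α.map φ) (β.map φ)).map fun x => (Nat.card k : Ω) ^ (i + 1) * x)) := by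
  set K := AlgebraicClosure k with hK
  have hd : 0 < ℓ ^ a := pow_pos hℓ.pos a
  have hT := isTorsor (K := K) hd hF hG
  set τ := frq (isCone_DT (K := K) hd hF hG) with hτ
  set σF := frq (isCone_DF (K := K) hd hF) with hσF
  set σG := frq (isCone_DF (K := K) hd hG) with hσG
  have hUF : IsFSet σF := isFSet_frq _
  have hUG : IsFSet σG := isFSet_frq _
  have hU : IsFSet (Prod.map σF σG) := isFSet_prod hUF hUG
  have hTF : IsFSet τ := isFSet_frq _
  have hlK : NeZero ((ℓ ^ a : ℕ) : K) := by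
    refine ⟨?_⟩
    rw [Nat.cast_pow, ← map_natCast (algebraMap k K)]
    exact pow_ne_zero _ ((map_ne_zero _).2 hk)
  have hl0 : NeZero (ℓ ^ a) := ⟨hd.ne'⟩
  have hμ : Nat.card (rootsOfUnity (ℓ ^ a) K) = ℓ ^ a :=
    HasEnoughRootsOfUnity.natCard_rootsOfUnity K _
  have hcomp := comparison hT hℓ hμ (two_le_card k) (coprime_card hℓ hk) hU Ω
  -- the first relation
  have h1 : Ze A τ = Ze A (Prod.map σF σG) * Em ρ := by
    have hg : gs (fun s => (Np τ s : A)) =
        gs (fun s => (Np (Prod.map σF σG) s : A)) + gs (ps ρ) := by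
      rw [← gs_add]
      refine gs_congr fun s hs => ?_
      have h2 := Np_DT K hd hF hG hα hβ hρ hs
      rw [ps_add, ps_map_mul, ps_mprod] at h2
      rw [Np_prod, Nat.cast_mul]
      linear_combination h2
    have h3 := hTF.ghost A
    rw [hg] at h3
    refine ghost_unique h3 ((hU.ghost A).mul (ghost_Em ρ)) (eul_zero _) ?_ ?_
    · rw [map_mul, Ze, eul_zero, Em_zero, mul_one]
    · rw [map_add, gs_zero, gs_zero, add_zero]
  -- the second relation
  have h2 : Ze A (Prod.map σF σG) *
      (Em (α.map fun x => (Nat.card k : A) ^ (Fintype.card ι' - 1) * x) *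
        Em (β.map fun x => (Nat.card k : A) ^ (Fintype.card ι - 1) * x)) =
      Em {(Nat.card k : A) ^ ((Fintype.card ι - 1) + (Fintype.card ι' - 1))} *
        Em (mprod α β) := by
    have hg : gs (fun s => (Np (Prod.map σF σG) s : A)) +
        (gs (ps (α.map fun x => (Nat.card k : A) ^ (Fintype.card ι' - 1) * x)) +
          gs (ps (β.map fun x => (Nat.card k : A) ^ (Fintype.card ι - 1) * x))) =
        gs (ps {(Nat.card k : A) ^ ((Fintype.card ι - 1) + (Fintype.card ι' - 1))}) +
          gs (ps (mprod α β)) := by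
      rw [← gs_add, ← gs_add, ← gs_add]
      refine gs_congr fun s hs => ?_
      rw [ps_map_mul, ps_map_mul, ps_mprod, Np_prod, Nat.cast_mul, Np_DF K hd hF hα hs,
        Np_DF K hd hG hβ hs]
      have h3 : ps {(Nat.card k : A) ^ ((Fintype.card ι - 1) + (Fintype.card ι' - 1))} s =
          ((Nat.card k : A) ^ s) ^ (Fintype.card ι - 1) *
            ((Nat.card k : A) ^ s) ^ (Fintype.card ι' - 1) := by
        rw [← pow_add, ← pow_mul, mul_comm s, pow_mul]
        simp [ps]
      rw [h3, ← pow_mul, ← pow_mul, ← pow_mul, ← pow_mul, mul_comm s, mul_comm s]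
      ring
    refine ghost_unique ((hU.ghost A).mul ((ghost_Em _).mul (ghost_Em _)))
      (g := Em {(Nat.card k : A) ^ ((Fintype.card ι - 1) + (Fintype.card ι' - 1))} *
        Em (mprod α β)) ?_ ?_ ?_ ?_
    · rw [hg]
      exact (ghost_Em _).mul (ghost_Em _)
    · rw [map_mul, map_mul, Ze, eul_zero, Em_zero, Em_zero]; ring
    · rw [map_mul, Em_zero, Em_zero]; ring
    · rw [map_add, map_add, gs_zero, gs_zero, gs_zero]; ring
  -- reduction
  have hZ : ∀ {S : Type} (σ : S → S), PowerSeries.map φ (Ze A σ) = Ze Ω σ := fun σ =>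
    map_eul φ (Or σ)
  have h3 := congrArg (PowerSeries.map φ) h1
  have h4 := congrArg (PowerSeries.map φ) h2
  rw [map_mul, hZ, hZ, map_Em] at h3
  rw [map_mul, map_mul, map_mul, hZ, map_Em, map_Em, map_Em, map_Em, map_mprod,
    Multiset.map_map, Multiset.map_map, Multiset.map_singleton] at h4
  have h5 : ∀ (γ : Multiset A) (e : ℕ), γ.map (φ ∘ fun x => (Nat.card k : A) ^ e * x) =
      (γ.map φ).map fun x => (Nat.card k : Ω) ^ e * x := by
    intro γ e
    rw [Multiset.map_map]
    refine Multiset.map_congr rfl fun x _ => ?_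
    simp
  rw [h5, h5, map_pow, map_natCast] at h4
  have h6 : Em (ρ.map φ) = ∏ i ∈ Finset.range (ℓ ^ a - 1),
      PowerSeries.rescale ((Nat.card k : Ω) ^ (i + 1)) (Ze Ω (Prod.map σF σG)) := by
    have h7 : Ze Ω (Prod.map σF σG) ≠ 0 := by
      intro h0
      have h8 : PowerSeries.constantCoeff (Ze Ω (Prod.map σF σG)) = 1 := eul_zero _
      rw [h0, map_zero] at h8
      exact zero_ne_one h8
    refine mul_left_cancel₀ h7 ?_
    rw [← h3, hcomp]
    conv_lhs => rw [← Nat.sub_add_cancel hd]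
    rw [Finset.prod_range_succ', pow_zero, PowerSeries.rescale_one, RingHom.id_apply, mul_comm]
  rw [h6, ← Finset.prod_mul_distrib]
  refine Finset.prod_congr rfl fun i _ => ?_
  have h7 := congrArg (PowerSeries.rescale ((Nat.card k : Ω) ^ (i + 1))) h4
  have h8 : ∀ (γ : Multiset Ω) (e : ℕ), (γ.map fun x => (Nat.card k : Ω) ^ e * x).map
      (fun x => (Nat.card k : Ω) ^ (i + 1) * x) =
      γ.map fun x => (Nat.card k : Ω) ^ (i + 1 + e) * x := by
    intro γ e
    rw [Multiset.map_map]
    refine Multiset.map_congr rfl fun x _ => ?_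
    show (Nat.card k : Ω) ^ (i + 1) * ((Nat.card k : Ω) ^ e * x) = _
    rw [← mul_assoc, ← pow_add]
  rw [map_mul, map_mul, map_mul, rescale_Em, rescale_Em, rescale_Em, rescale_Em, h8, h8,
    Multiset.map_singleton, ← pow_add] at h7
  exact h7

end series

section count

open Classical in
/-- counting products -/
theorem countP_mprod {Ω : Type} [CommRing Ω] (α β : Multiset Ω) (P : Ω → Prop)
    (h : ∀ a ∈ α, ∀ b ∈ β, P (a * b) ↔ P a ∧ P b) :
    (mprod α β).countP P = α.countP P * β.countP P := by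
  induction α using Multiset.induction_on with
  | empty => simp [mprod]
  | cons a α ih =>
    rw [mprod_cons, Multiset.countP_add, ih fun x hx => h x (Multiset.mem_cons_of_mem hx)]
    have h1 : (β.map fun b => a * b).countP P = if P a then β.countP P else 0 := by
      rw [Multiset.countP_map, ← Multiset.countP_eq_card_filter]
      split_ifs with hPa
      · refine Multiset.countP_congr rfl fun b hb => ?_
        rw [h a (Multiset.mem_cons_self _ _) b hb, and_iff_right hPa]
      · rw [Multiset.countP_eq_zero]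
        intro b hb hP
        exact hPa ((h a (Multiset.mem_cons_self _ _) b hb).1 hP).1
    rw [h1, Multiset.countP_cons]
    split_ifs <;> ring

end count

end Pool.Agent.H856.JN
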