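import Pool.Agent.H856.JN.Comp

/-!
Points of cones over an algebraic closure of a finite field, modulo multiplication by scalars.
-/

set_option autoImplicit false
set_option linter.unusedSectionVars false
set_option linter.style.haveILetI false

open Function

namespace Pool.Agent.H856.JN

section frob

variable (k K : Type) [Field k] [Finite k] [Field K] [Algebra k K]

/-- the Frobenius endomorphism -/
noncomputable def fr : K →ₐ[k] K :=
  letI := Fintype.ofFinite k
  FiniteField.frobeniusAlgHom k K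

variable {k K}

theorem fr_apply (x : K) : fr k K x = x ^ Nat.card k := by
  letI := Fintype.ofFinite k
  rw [Nat.card_eq_fintype_card]
  rfl

theorem fr_iter (n : ℕ) (x : K) : (fr k K)^[n] x = x ^ Nat.card k ^ n := by
  induction n with
  | zero => simp
  | succ n ih => rw [iterate_succ_apply', ih, fr_apply, ← pow_mul, ← pow_succ]

theorem two_le_card (k : Type) [Field k] [Finite k] : 2 ≤ Nat.card k := Finite.one_lt_card

variable (k K) in
/-- the elements of the extension of degree `n` -/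
noncomputable def ext (n : ℕ) : IntermediateField k K where
  carrier := {x | x ^ Nat.card k ^ n = x}
  mul_mem' {x y} hx hy := by
    show (x * y) ^ Nat.card k ^ n = x * y
    rw [mul_pow, show x ^ Nat.card k ^ n = x from hx, show y ^ Nat.card k ^ n = y from hy]
  add_mem' {x y} hx hy := by
    have h1 : ∀ x : K, x ^ Nat.card k ^ n = ((fr k K) ^ n) x := by
      intro x
      rw [← fr_iter, AlgHom.coe_pow]
    show (x + y) ^ Nat.card k ^ n = x + y
    rw [h1, map_add, ← h1, ← h1, show x ^ Nat.card k ^ n = x from hx,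
      show y ^ Nat.card k ^ n = y from hy]
  algebraMap_mem' c := by
    letI := Fintype.ofFinite k
    show (algebraMap k K c) ^ Nat.card k ^ n = algebraMap k K c
    rw [← map_pow, Nat.card_eq_fintype_card, FiniteField.pow_card_pow]
  inv_mem' x hx := by
    show x⁻¹ ^ Nat.card k ^ n = x⁻¹
    rw [inv_pow, show x ^ Nat.card k ^ n = x from hx]

theorem mem_ext (n : ℕ) (x : K) : x ∈ ext k K n ↔ x ^ Nat.card k ^ n = x := Iff.rfl

theorem pow_eq_self {z : K} {N : ℕ} (hN : 1 ≤ N) (h : z ^ (N - 1) = 1) : z ^ N = z := by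
  obtain ⟨M, rfl⟩ : ∃ M, N = M + 1 := ⟨N - 1, by omega⟩
  rw [Nat.add_sub_cancel] at h
  rw [pow_succ, h, one_mul]

theorem one_lt_q {n : ℕ} (hn : 0 < n) : 1 < Nat.card k ^ n :=
  Nat.one_lt_pow hn.ne' (by have := two_le_card k; omega)

variable (k K) in
theorem cast_q {n : ℕ} (hn : 0 < n) : ((Nat.card k ^ n - 1 : ℕ) : K) ≠ 0 := by
  obtain ⟨p, _⟩ := CharP.exists k
  letI := Fintype.ofFinite k
  have h1 : ((Nat.card k : ℕ) : k) = 0 := by
    rw [Nat.card_eq_fintype_card]
    exact FiniteField.cast_card_eq_zero k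
  have h2 : ((Nat.card k : ℕ) : K) = 0 := by
    rw [← map_natCast (algebraMap k K), h1, map_zero]
  rw [Nat.cast_sub (one_lt_q hn).le, Nat.cast_pow, h2, zero_pow hn.ne', Nat.cast_one, zero_sub]
  exact neg_ne_zero.2 one_ne_zero

variable [IsAlgClosed K]

theorem natCard_roots {n : ℕ} (hn : 0 < n) :
    Nat.card (rootsOfUnity (Nat.card k ^ n - 1) K) = Nat.card k ^ n - 1 := by
  have : NeZero ((Nat.card k ^ n - 1 : ℕ) : K) := ⟨cast_q k K hn⟩
  have : NeZero (Nat.card k ^ n - 1) := ⟨by have := one_lt_q (k := k) hn; omega⟩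
  exact HasEnoughRootsOfUnity.natCard_rootsOfUnity K _

theorem finite_roots {n : ℕ} (hn : 0 < n) :
    Finite (rootsOfUnity (Nat.card k ^ n - 1) K) := by
  refine Nat.finite_of_card_ne_zero ?_
  rw [natCard_roots hn]
  have := one_lt_q (k := k) hn
  omega

theorem card_ext {n : ℕ} (hn : 0 < n) : Nat.card (ext k K n) = Nat.card k ^ n := by
  have h1 := one_lt_q (k := k) hn
  have hne : Nat.card k ^ n ≠ 0 := by omega
  have hne' : Nat.card k ^ n - 1 ≠ 0 := by omega
  have hfin := finite_roots (k := k) (K := K) hn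
  have e : ext k K n ≃ Option (rootsOfUnity (Nat.card k ^ n - 1) K) := by
    classical
    refine ⟨fun x => if h : (x : K) = 0 then none else some ⟨Units.mk0 x h, ?_⟩,
      fun y => y.elim ⟨0, ?_⟩ fun z => ⟨(z : Kˣ), ?_⟩, ?_, ?_⟩
    · rw [mem_rootsOfUnity', Units.val_mk0]
      have h2 := (mem_ext n (x : K)).1 x.2
      have h3 : (x : K) ^ (Nat.card k ^ n - 1) * x = 1 * x := by
        rw [← pow_succ, Nat.sub_add_cancel h1.le, h2, one_mul]
      exact mul_right_cancel₀ h h3
    · rw [mem_ext, zero_pow hne]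
    · rw [mem_ext]
      exact pow_eq_self h1.le ((mem_rootsOfUnity' _ _).1 z.2)
    · intro x
      by_cases h : (x : K) = 0
      · simp only [h, dite_true, Option.elim_none]
        exact Subtype.ext h.symm
      · simp only [h, dite_false, Option.elim_some, Units.val_mk0]
    · intro y
      rcases y with _ | z
      · simp
      · simp
  rw [Nat.card_congr e, Finite.card_option, natCard_roots hn]
  omega

theorem finite_ext {n : ℕ} (hn : 0 < n) : Finite (ext k K n) := by
  refine Nat.finite_of_card_ne_zero ?_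
  rw [card_ext hn]
  have := one_lt_q (k := k) hn
  omega

theorem finrank_ext {n : ℕ} (hn : 0 < n) : Module.finrank k (ext k K n) = n := by
  have hfin := finite_ext (k := k) (K := K) hn
  have h1 := Module.natCard_eq_pow_finrank (K := k) (V := ext k K n)
  rw [card_ext hn] at h1
  exact (Nat.pow_right_injective (two_le_card k) h1).symm

theorem exists_period [Algebra.IsAlgebraic k K] {ι : Type} [Finite ι] (v : ι → K) :
    ∃ n, 0 < n ∧ ∀ i, v i ^ Nat.card k ^ n = v i := by
  set L := IntermediateField.adjoin k (Set.range v) with hL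
  have h1 : FiniteDimensional k L :=
    IntermediateField.finiteDimensional_adjoin fun x _ => Algebra.IsIntegral.isIntegral x
  refine ⟨Module.finrank k L, Module.finrank_pos, fun i => ?_⟩
  have hmem : v i ∈ L := IntermediateField.subset_adjoin k _ ⟨i, rfl⟩
  have hfin : Finite L := Module.finite_of_finite k
  letI := Fintype.ofFinite L
  have h2 := FiniteField.pow_card (⟨v i, hmem⟩ : L)
  rw [← Nat.card_eq_fintype_card, Module.natCard_eq_pow_finrank (K := k) (V := L)] at h2
  exact congrArg Subtype.val h2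

end frob

section cone

variable (k : Type) {K : Type} [Field k] [Finite k] [Field K] [Algebra k K] {ι : Type}

/-- A set of nonzero vectors, stable under multiplication by scalars and under Frobenius. -/
structure IsCone (D : (ι → K) → Prop) : Prop where
  ne : ∀ v, D v → v ≠ 0
  smul : ∀ c : K, c ≠ 0 → ∀ v, D v → D (c • v)
  fr : ∀ v, D v → D (fun i => v i ^ Nat.card k)

/-- proportional vectors -/
def pr (D : (ι → K) → Prop) : Setoid {v // D v} where
  r v w := ∃ c : K, c ≠ 0 ∧ c • v.1 = w.1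
  iseqv := by
    refine ⟨fun v => ⟨1, one_ne_zero, one_smul _ _⟩, ?_, ?_⟩
    · rintro v w ⟨c, hc, h⟩
      exact ⟨c⁻¹, inv_ne_zero hc, by rw [← h, smul_smul, inv_mul_cancel₀ hc, one_smul]⟩
    · rintro u v w ⟨c, hc, h⟩ ⟨c', hc', h'⟩
      exact ⟨c' * c, mul_ne_zero hc' hc, by rw [mul_smul, h, h']⟩

/-- the quotient of the cone -/
abbrev PQ (D : (ι → K) → Prop) : Type := Quotient (pr D)

variable {k} {D : (ι → K) → Prop} (hD : IsCone k D)

/-- Frobenius on the cone -/
noncomputable def frv : {v // D v} → {v // D v} := fun v => ⟨fun i => v.1 i ^ Nat.card k, hD.fr _ v.2⟩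

theorem frv_iter (n : ℕ) (v : {v // D v}) :
    ((frv hD)^[n] v).1 = fun i => v.1 i ^ Nat.card k ^ n := by
  induction n with
  | zero => simp
  | succ n ih =>
    rw [iterate_succ_apply']
    funext i
    show ((frv hD)^[n] v).1 i ^ Nat.card k = _
    rw [ih, ← pow_mul, ← pow_succ]

/-- Frobenius on the quotient -/
noncomputable def frq : PQ D → PQ D := Quotient.map (frv hD) (by
  rintro v w ⟨c, hc, h⟩
  refine ⟨c ^ Nat.card k, pow_ne_zero _ hc, ?_⟩
  funext i
  show c ^ Nat.card k * v.1 i ^ Nat.card k = w.1 i ^ Nat.card k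
  rw [← mul_pow, ← h]
  rfl)

theorem frq_mk (v : {v // D v}) : frq hD (Quotient.mk (pr D) v) = Quotient.mk (pr D) (frv hD v) :=
  rfl

theorem frq_iter (n : ℕ) (v : {v // D v}) :
    (frq hD)^[n] (Quotient.mk (pr D) v) = Quotient.mk (pr D) ((frv hD)^[n] v) := by
  induction n with
  | zero => rfl
  | succ n ih => rw [iterate_succ_apply', iterate_succ_apply', ih, frq_mk]

variable [IsAlgClosed K]

/-- fixed points have fixed representatives -/
theorem exists_fixed_rep {n : ℕ} (hn : 0 < n) (P : PQ D) (hP : (frq hD)^[n] P = P) :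
    ∃ v : {v // D v}, Quotient.mk (pr D) v = P ∧ ∀ i, v.1 i ^ Nat.card k ^ n = v.1 i := by
  induction P using Quotient.ind with
  | _ v =>
  rw [frq_iter] at hP
  obtain ⟨c, hc, h⟩ := Quotient.exact hP
  rw [frv_iter] at h
  have h1 := one_lt_q (k := k) hn
  obtain ⟨z, hz⟩ := IsAlgClosed.exists_pow_nat_eq c (n := Nat.card k ^ n - 1) (by omega)
  have hz0 : z ≠ 0 := by
    rintro rfl
    rw [zero_pow (by omega)] at hz
    exact hc hz.symm
  refine ⟨⟨z • v.1, hD.smul _ hz0 _ v.2⟩, ?_, ?_⟩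
  · refine Quotient.sound ⟨z⁻¹, inv_ne_zero hz0, ?_⟩
    show z⁻¹ • z • v.1 = v.1
    rw [smul_smul, inv_mul_cancel₀ hz0, one_smul]
  · intro i
    show (z * v.1 i) ^ Nat.card k ^ n = z * v.1 i
    have h2 : c * v.1 i ^ Nat.card k ^ n = v.1 i := congrFun h i
    have h3 : z ^ Nat.card k ^ n = c * z := by
      rw [← hz, ← pow_succ, Nat.sub_add_cancel h1.le]
    rw [mul_pow, h3]
    conv_rhs => rw [← h2]
    ring

theorem fixed_mk {n : ℕ} (v : {v // D v}) (hv : ∀ i, v.1 i ^ Nat.card k ^ n = v.1 i) :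
    (frq hD)^[n] (Quotient.mk (pr D) v) = Quotient.mk (pr D) v := by
  rw [frq_iter]
  congr 1
  refine Subtype.ext ?_
  rw [frv_iter]
  funext i
  exact hv i

/-- the number of fixed points -/
theorem card_fixed {n : ℕ} (hn : 0 < n) :
    Nat.card {v : ι → K // D v ∧ ∀ i, v i ^ Nat.card k ^ n = v i} =
      Np (frq hD) n * (Nat.card k ^ n - 1) := by
  have h1 := one_lt_q (k := k) hn
  rw [← natCard_roots (k := k) (K := K) hn]
  unfold Np
  rw [← Nat.card_prod]
  symm
  choose w hw1 hw2 using fun P : {P // (frq hD)^[n] P = P} => exists_fixed_rep hD hn P.1 P.2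
  refine Nat.card_eq_of_bijective
    (fun p : {P // (frq hD)^[n] P = P} × rootsOfUnity (Nat.card k ^ n - 1) K =>
      (⟨((p.2 : Kˣ) : K) • (w p.1).1, hD.smul _ (Units.ne_zero _) _ (w p.1).2, ?_⟩ :
        {v : ι → K // D v ∧ ∀ i, v i ^ Nat.card k ^ n = v i})) ⟨?_, ?_⟩
  · intro i
    show (((p.2 : Kˣ) : K) * (w p.1).1 i) ^ Nat.card k ^ n = ((p.2 : Kˣ) : K) * (w p.1).1 i
    have h2 := (mem_rootsOfUnity' _ _).1 p.2.2
    have h3 : ((p.2 : Kˣ) : K) ^ Nat.card k ^ n = ((p.2 : Kˣ) : K) := pow_eq_self h1.le h2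
    rw [mul_pow, hw2, h3]
  · rintro ⟨P, z⟩ ⟨P', z'⟩ h
    have h2 : ((z : Kˣ) : K) • (w P).1 = ((z' : Kˣ) : K) • (w P').1 := congrArg Subtype.val h
    have h3 : P = P' := by
      refine Subtype.ext ?_
      rw [← hw1 P, ← hw1 P']
      refine Quotient.sound ⟨((z' : Kˣ) : K)⁻¹ * ((z : Kˣ) : K), ?_, ?_⟩
      · exact mul_ne_zero (inv_ne_zero (Units.ne_zero _)) (Units.ne_zero _)
      · rw [mul_smul, h2, smul_smul, inv_mul_cancel₀ (Units.ne_zero _), one_smul]
    subst h3
    have h4 : ((z : Kˣ) : K) = ((z' : Kˣ) : K) := by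
      have h5 : (((z : Kˣ) : K) - ((z' : Kˣ) : K)) • (w P).1 = 0 := by rw [sub_smul, h2, sub_self]
      rcases smul_eq_zero.1 h5 with h6 | h6
      · exact sub_eq_zero.1 h6
      · exact absurd h6 (hD.ne _ (w P).2)
    rw [show z = z' from Subtype.ext (Units.ext h4)]
  · rintro ⟨v, hv, hv'⟩
    have h2 := fixed_mk hD ⟨v, hv⟩ hv'
    set P : {P // (frq hD)^[n] P = P} := ⟨Quotient.mk (pr D) ⟨v, hv⟩, h2⟩ with hP
    obtain ⟨c, hc, h3⟩ := Quotient.exact (hw1 P)
    change c • (w P).1 = v at h3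
    obtain ⟨i, hi⟩ : ∃ i, (w P).1 i ≠ 0 := by
      by_contra hne
      push Not at hne
      exact hD.ne _ (w P).2 (funext hne)
    have h4 : c ^ Nat.card k ^ n = c := by
      have h5 := hv' i
      rw [← h3] at h5
      change (c * (w P).1 i) ^ Nat.card k ^ n = c * (w P).1 i at h5
      rw [mul_pow, hw2] at h5
      exact mul_right_cancel₀ hi h5
    refine ⟨(P, ⟨Units.mk0 c hc, ?_⟩), Subtype.ext h3⟩
    rw [mem_rootsOfUnity', Units.val_mk0]
    have h5 : c ^ (Nat.card k ^ n - 1) * c = 1 * c := by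
      rw [← pow_succ, Nat.sub_add_cancel h1.le, h4, one_mul]
    exact mul_right_cancel₀ hc h5

theorem finite_fixed_vectors [Finite ι] {n : ℕ} (hn : 0 < n) :
    {v : ι → K | ∀ i, v i ^ Nat.card k ^ n = v i}.Finite := by
  have h1 : Finite (ext k K n) := finite_ext hn
  have h2 : {x : K | x ^ Nat.card k ^ n = x}.Finite := Set.toFinite (ext k K n : Set K)
  exact Set.Finite.pi' fun _ => h2

theorem isFSet_frq [Finite ι] [Algebra.IsAlgebraic k K] : IsFSet (frq hD) := by
  constructor
  · intro P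
    induction P using Quotient.ind with
    | _ v =>
    obtain ⟨n, hn, h⟩ := exists_period (k := k) v.1
    exact ⟨n, hn, fixed_mk hD v h⟩
  · intro n hn
    have h1 : {P | (frq hD)^[n] P = P} ⊆ (fun v : {v // D v} => Quotient.mk (pr D) v) ''
        {v | ∀ i, v.1 i ^ Nat.card k ^ n = v.1 i} := by
      intro P hP
      obtain ⟨v, hv, hv'⟩ := exists_fixed_rep hD hn P hP
      exact ⟨v, hv', hv⟩
    refine Set.Finite.subset (Set.Finite.image _ ?_) h1
    exact Set.Finite.preimage Subtype.val_injective.injOn (finite_fixed_vectors (ι := ι) hn)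

end cone

section prod

variable {S T : Type*} {σ : S → S} {τ : T → T}

theorem Np_prod (n : ℕ) : Np (Prod.map σ τ) n = Np σ n * Np τ n := by
  unfold Np
  rw [← Nat.card_prod]
  refine Nat.card_congr ⟨fun p => (⟨p.1.1, ?_⟩, ⟨p.1.2, ?_⟩), fun p => ⟨(p.1.1, p.2.1), ?_⟩,
    fun p => rfl, fun p => rfl⟩
  · have := p.2
    have h := congrFun (Prod.map_iterate σ τ n) p.1
    exact congrArg Prod.fst (h.symm.trans this)
  · have := p.2
    have h := congrFun (Prod.map_iterate σ τ n) p.1
    exact congrArg Prod.snd (h.symm.trans this)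
  · rw [Prod.map_iterate]
    exact Prod.ext p.1.2 p.2.2

theorem isFSet_prod (hσ : IsFSet σ) (hτ : IsFSet τ) : IsFSet (Prod.map σ τ) := by
  constructor
  · rintro ⟨x, y⟩
    obtain ⟨m, hm, hx⟩ := hσ.per x
    obtain ⟨n, hn, hy⟩ := hτ.per y
    refine ⟨m * n, Nat.mul_pos hm hn, ?_⟩
    show (Prod.map σ τ)^[m * n] (x, y) = (x, y)
    rw [Prod.map_iterate]
    exact Prod.ext (hx.mul_const n) (hy.const_mul m)
  · intro n hn
    have h1 : {p | (Prod.map σ τ)^[n] p = p} ⊆ {x | σ^[n] x = x} ×ˢ {y | τ^[n] y = y} := by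
      intro p hp
      have hp' : (Prod.map σ τ)^[n] p = p := hp
      rw [Prod.map_iterate] at hp'
      exact ⟨congrArg Prod.fst hp', congrArg Prod.snd hp'⟩
    exact ((hσ.fin n hn).prod (hτ.fin n hn)).subset h1

end prod

end Pool.Agent.H856.JN
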