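import Pool.Agent.H856.JN.Join

/-!
Spectra of forms; multisets of eigenvalues.
-/

set_option autoImplicit false
set_option linter.unusedSectionVars false

open Function MvPolynomial

namespace Pool.Agent.H856.JN

/-- the number of the zeros of `F` with coordinates in `L` -/
noncomputable def zeros {k ι : Type} [Field k] (F : MvPolynomial ι k) (L : Type) [Field L]
    [Algebra k L] : ℕ :=
  Nat.card {v : ι → L // aeval v F = 0}

/-- `α` is the multiset of the eigenvalues: over every finite extension `L` of `k` of degree `s`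
with `Q` elements, the form `F` in `N` variables has `Q ^ (N - 1) + (Q - 1) ∑ a ^ s` zeros. -/
def IsSpectrum {k ι : Type} [Field k] [Fintype ι] (F : MvPolynomial ι k) {A : Type} [CommRing A]
    (α : Multiset A) : Prop :=
  ∀ (L : Type) [Field L] [Finite L] [Algebra k L],
    (zeros F L : A) = (Nat.card L : A) ^ (Fintype.card ι - 1) +
      ((Nat.card L : A) - 1) * (α.map fun a => a ^ Module.finrank k L).sum

section transfer

variable {k K : Type} [Field k] [Finite k] [Field K] [Algebra k K] [IsAlgClosed K]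
  {ι ι' : Type}

theorem aeval_ext {n : ℕ} (F : MvPolynomial ι k) (v : ι → ext k K n) :
    aeval (fun i => (v i : K)) F = ((aeval v F : ext k K n) : K) := by
  have h := MvPolynomial.comp_aeval_apply (f := v) (IntermediateField.val (ext k K n)) F
  exact h.symm

/-- vectors over the extension of degree `n` and fixed vectors -/
noncomputable def transfer (n : ℕ) (P : (ι → K) → Prop) :
    {v : ι → ext k K n // P fun i => (v i : K)} ≃
      {v : ι → K // P v ∧ ∀ i, v i ^ Nat.card k ^ n = v i} where
  toFun v := ⟨fun i => (v.1 i : K), v.2, fun i => (v.1 i).2⟩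
  invFun v := ⟨fun i => ⟨v.1 i, v.2.2 i⟩, v.2.1⟩
  left_inv _ := rfl
  right_inv _ := rfl

theorem card_total [Fintype ι] {n : ℕ} (hn : 0 < n) (F : MvPolynomial ι k) :
    Nat.card {v : ι → K // DF K F v ∧ ∀ i, v i ^ Nat.card k ^ n = v i} + zeros F (ext k K n) =
      (Nat.card k ^ n) ^ Fintype.card ι := by
  have hfin : Finite (ext k K n) := finite_ext hn
  rw [← Nat.card_congr (transfer (ι := ι) n (DF K F))]
  have h1 : {v : ι → ext k K n // DF K F fun i => (v i : K)} ≃
      {v : ι → ext k K n // ¬ aeval v F = 0} := by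
    refine Equiv.subtypeEquivRight fun v => ?_
    unfold DF
    rw [aeval_ext]
    exact not_congr (by rw [ZeroMemClass.coe_eq_zero])
  rw [Nat.card_congr h1, zeros, add_comm]
  have h2 : Nat.card (ι → ext k K n) = (Nat.card k ^ n) ^ Fintype.card ι := by
    rw [Nat.card_fun, card_ext hn, Nat.card_eq_fintype_card (α := ι)]
  rw [← h2]
  classical
  rw [← Nat.card_sum]
  exact Nat.card_congr (Equiv.sumCompl fun v : ι → ext k K n => aeval v F = 0)

theorem card_join [Fintype ι] [Fintype ι'] {n : ℕ} (hn : 0 < n) (F : MvPolynomial ι k)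
    (G : MvPolynomial ι' k) :
    Nat.card {w : ι ⊕ ι' → K // DT K F G w ∧ ∀ i, w i ^ Nat.card k ^ n = w i} +
      zeros F (ext k K n) * zeros G (ext k K n) = zeros (joinForm F G) (ext k K n) := by
  have hfin : Finite (ext k K n) := finite_ext hn
  rw [← Nat.card_congr (transfer (ι := ι ⊕ ι') n (DT K F G))]
  have h1 : {w : ι ⊕ ι' → ext k K n // DT K F G fun i => (w i : K)} ≃
      {w : ι ⊕ ι' → ext k K n // aeval w (joinForm F G) = 0 ∧
        ¬ aeval (w ∘ Sum.inl) F = 0} := by
    refine Equiv.subtypeEquivRight fun w => ?_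
    unfold DT
    rw [aeval_joinForm]
    have h2 : aeval ((fun i => (w i : K)) ∘ Sum.inl) F =
      ((aeval (w ∘ Sum.inl) F : ext k K n) : K) := aeval_ext F (w ∘ Sum.inl)
    have h3 : aeval ((fun i => (w i : K)) ∘ Sum.inr) G =
      ((aeval (w ∘ Sum.inr) G : ext k K n) : K) := aeval_ext G (w ∘ Sum.inr)
    rw [h2, h3]
    constructor
    · rintro ⟨h4, h5⟩
      refine ⟨Subtype.ext h4, fun h6 => h5 ?_⟩
      rw [h6]; rfl
    · rintro ⟨h4, h5⟩
      refine ⟨congrArg Subtype.val h4, fun h6 => h5 (Subtype.ext h6)⟩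
  have h2 : {v : ι → ext k K n // aeval v F = 0} × {v : ι' → ext k K n // aeval v G = 0} ≃
      {w : ι ⊕ ι' → ext k K n // aeval w (joinForm F G) = 0 ∧
        aeval (w ∘ Sum.inl) F = 0} :=
    { toFun := fun p => ⟨Sum.elim p.1.1 p.2.1, by
        rw [aeval_joinForm, Sum.elim_comp_inl, Sum.elim_comp_inr, p.1.2, p.2.2, add_zero],
        by rw [Sum.elim_comp_inl, p.1.2]⟩
      invFun := fun w => (⟨w.1 ∘ Sum.inl, w.2.2⟩, ⟨w.1 ∘ Sum.inr, by
        have h3 := w.2.1
        rw [aeval_joinForm, w.2.2, zero_add] at h3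
        exact h3⟩)
      left_inv := fun p => rfl
      right_inv := fun w => Subtype.ext (Sum.elim_comp_inl_inr w.1) }
  rw [Nat.card_congr h1]
  unfold zeros
  rw [← Nat.card_prod, Nat.card_congr h2, add_comm, ← Nat.card_sum]
  classical
  have e : {w : ι ⊕ ι' → ext k K n // aeval w (joinForm F G) = 0} ≃
      {w : {w : ι ⊕ ι' → ext k K n // aeval w (joinForm F G) = 0} //
        aeval (w.1 ∘ Sum.inl) F = 0} ⊕
      {w : {w : ι ⊕ ι' → ext k K n // aeval w (joinForm F G) = 0} //
        ¬ aeval (w.1 ∘ Sum.inl) F = 0} := (Equiv.sumCompl _).symm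
  rw [Nat.card_congr e]
  refine Nat.card_congr (Equiv.sumCongr ?_ ?_)
  · exact (Equiv.subtypeSubtypeEquivSubtypeInter _
      (fun w : ι ⊕ ι' → ext k K n => aeval (w ∘ Sum.inl) F = 0)).symm
  · exact (Equiv.subtypeSubtypeEquivSubtypeInter _
      (fun w : ι ⊕ ι' → ext k K n => ¬ aeval (w ∘ Sum.inl) F = 0)).symm

end transfer

section mset

variable {R : Type*} [CommRing R]

/-- the products of the elements of two multisets -/
def mprod (α β : Multiset R) : Multiset R := (α ×ˢ β).map fun p => p.1 * p.2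

theorem mprod_cons (a : R) (α β : Multiset R) :
    mprod (a ::ₘ α) β = β.map (fun b => a * b) + mprod α β := by
  unfold mprod
  rw [Multiset.cons_product, Multiset.map_add, Multiset.map_map]
  rfl

theorem ps_map_mul (c : R) (α : Multiset R) (s : ℕ) :
    ps (α.map fun a => c * a) s = c ^ s * ps α s := by
  unfold ps
  rw [Multiset.map_map, ← Multiset.sum_map_mul_left]
  congr 1
  refine Multiset.map_congr rfl fun a _ => ?_
  exact mul_pow c a s

theorem ps_mprod (α β : Multiset R) (s : ℕ) : ps (mprod α β) s = ps α s * ps β s := by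
  induction α using Multiset.induction_on with
  | empty => simp [ps, mprod]
  | cons a α ih =>
    rw [mprod_cons, ps_add, ih, ps_map_mul]
    have : ps (a ::ₘ α) s = a ^ s + ps α s := by simp [ps]
    rw [this]
    ring

theorem map_mprod {R' : Type*} [CommRing R'] (φ : R →+* R') (α β : Multiset R) :
    (mprod α β).map φ = mprod (α.map φ) (β.map φ) := by
  induction α using Multiset.induction_on with
  | empty => simp [mprod]
  | cons a α ih =>
    rw [mprod_cons, Multiset.map_add, ih, Multiset.map_cons, mprod_cons, Multiset.map_map,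
      Multiset.map_map]
    congr 1
    refine Multiset.map_congr rfl fun b _ => ?_
    simp

theorem mem_mprod {α β : Multiset R} {x : R} :
    x ∈ mprod α β ↔ ∃ a ∈ α, ∃ b ∈ β, a * b = x := by
  unfold mprod
  rw [Multiset.mem_map]
  constructor
  · rintro ⟨⟨a, b⟩, h, rfl⟩
    rw [Multiset.mem_product] at h
    exact ⟨a, h.1, b, h.2, rfl⟩
  · rintro ⟨a, ha, b, hb, rfl⟩
    exact ⟨(a, b), Multiset.mem_product.2 ⟨ha, hb⟩, rfl⟩

end mset

section field

variable {Ω : Type*} [Field Ω]

open Classical in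
theorem Em_filter (α : Multiset Ω) : Em α = Em (α.filter (· ≠ 0)) := by
  induction α using Multiset.induction_on with
  | empty => rfl
  | cons a α ih =>
    have h1 : Em (a ::ₘ α) = (1 - PowerSeries.C a * PowerSeries.X) * Em α := by simp [Em]
    by_cases ha : a = 0
    · subst ha
      rw [h1, Multiset.filter_cons_of_neg _ (by simp), ← ih]
      simp
    · rw [Multiset.filter_cons_of_pos (p := fun x => x ≠ 0) _ ha, h1, ih]
      simp [Em]

theorem Em_roots {α : Multiset Ω} (hα : ∀ a ∈ α, a ≠ 0) :
    ∃ p : Polynomial Ω, (p : PowerSeries Ω) = Em α ∧ p ≠ 0 ∧ p.roots = α.map (·⁻¹) := by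
  induction α using Multiset.induction_on with
  | empty => exact ⟨1, by simp [Em], one_ne_zero, by simp⟩
  | cons a α ih =>
    obtain ⟨p, hp1, hp2, hp3⟩ := ih fun b hb => hα b (Multiset.mem_cons_of_mem hb)
    have ha : a ≠ 0 := hα a (Multiset.mem_cons_self _ _)
    have h1 : Em (a ::ₘ α) = (1 - PowerSeries.C a * PowerSeries.X) * Em α := by simp [Em]
    have h2 : (1 - Polynomial.C a * Polynomial.X : Polynomial Ω) =
        Polynomial.C (-a) * (Polynomial.X - Polynomial.C a⁻¹) := by
      rw [mul_sub, ← Polynomial.C_mul, neg_mul, mul_inv_cancel₀ ha]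
      simp only [Polynomial.C_neg, Polynomial.C_1]
      ring
    have h3 : (1 - Polynomial.C a * Polynomial.X : Polynomial Ω) ≠ 0 := by
      rw [h2]
      exact mul_ne_zero (by simpa using ha) (Polynomial.X_sub_C_ne_zero _)
    refine ⟨(1 - Polynomial.C a * Polynomial.X) * p, ?_, mul_ne_zero h3 hp2, ?_⟩
    · rw [h1, ← hp1]
      simp
    · rw [Polynomial.roots_mul (mul_ne_zero h3 hp2), hp3, h2,
        Polynomial.roots_C_mul _ (neg_ne_zero.2 ha), Polynomial.roots_X_sub_C]
      simp

open Classical in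
theorem Em_inj {α β : Multiset Ω} (h : Em α = Em β) :
    α.filter (· ≠ 0) = β.filter (· ≠ 0) := by
  rw [Em_filter α, Em_filter β] at h
  obtain ⟨p, hp1, _, hp3⟩ := Em_roots (α := α.filter (· ≠ 0)) fun a ha =>
    (Multiset.mem_filter.1 ha).2
  obtain ⟨r, hr1, _, hr3⟩ := Em_roots (α := β.filter (· ≠ 0)) fun a ha =>
    (Multiset.mem_filter.1 ha).2
  have h1 : p = r := by
    rw [← Polynomial.coe_inj, hp1, hr1, h]
  rw [h1] at hp3
  have h2 := hp3.symm.trans hr3
  exact Multiset.map_injective inv_injective h2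

open Classical in
/-- the number of elements which satisfy a condition -/
theorem Em_count {α β : Multiset Ω} (h : Em α = Em β) {P : Ω → Prop} (hP : ∀ x, P x → x ≠ 0) :
    α.countP P = β.countP P := by
  have h1 := congrArg (Multiset.countP P) (Em_inj h)
  have h2 : ∀ γ : Multiset Ω, (γ.filter (· ≠ 0)).countP P = γ.countP P := by
    intro γ
    rw [Multiset.countP_filter]
    refine Multiset.countP_congr rfl fun x _ => ?_
    rw [and_iff_left_of_imp (hP x)]
  rwa [h2, h2] at h1

theorem Em_mem {α β : Multiset Ω} (h : Em α = Em β) {x : Ω} (hx : x ∈ α) (hx0 : x ≠ 0) :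
    x ∈ β := by
  classical
  have h1 : x ∈ α.filter (· ≠ 0) := Multiset.mem_filter.2 ⟨hx, hx0⟩
  rw [Em_inj h] at h1
  exact (Multiset.mem_filter.1 h1).1

end field

end Pool.Agent.H856.JN
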