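import Pool.Agent.H856.JN.FSet

/-!
Comparison modulo `ℓ` of the zeta functions along a torsor under a group of `ℓ`-power order.
-/

set_option autoImplicit false

open PowerSeries Function

namespace Pool.Agent.H856.JN

section numbers

/-- `1 + u + ... + u ^ (n - 1)` -/
def Sm (u n : ℕ) : ℕ := ∑ i ∈ Finset.range n, u ^ i

theorem Sm_succ (u n : ℕ) : Sm u (n + 1) = u * Sm u n + 1 := by
  unfold Sm
  rw [Finset.sum_range_succ', Finset.mul_sum, pow_zero]
  congr 1
  exact Finset.sum_congr rfl fun i _ => pow_succ' u i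

theorem Sm_mul_int (u n : ℕ) : ((Sm u n : ℕ) : ℤ) * ((u : ℤ) - 1) = (u : ℤ) ^ n - 1 := by
  unfold Sm
  push_cast
  exact geom_sum_mul (u : ℤ) n

theorem Sm_mul {u : ℕ} (hu : 2 ≤ u) (m n : ℕ) : Sm u (m * n) = Sm u m * Sm (u ^ m) n := by
  have h1 := Sm_mul_int u (m * n)
  have h2 := Sm_mul_int u m
  have h3 := Sm_mul_int (u ^ m) n
  have h4 : ((Sm u (m * n) : ℕ) : ℤ) * ((u : ℤ) - 1) =
      ((Sm u m * Sm (u ^ m) n : ℕ) : ℤ) * ((u : ℤ) - 1) := by
    rw [h1, pow_mul]
    push_cast at h3 ⊢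
    rw [← h3, ← h2]
    ring
  have h5 : (u : ℤ) - 1 ≠ 0 := by omega
  exact_mod_cast mul_right_cancel₀ h5 h4

theorem dvd_Sm {ℓ : ℕ} {u : ℕ} (hu : 2 ≤ u) (h : u ≡ 1 [MOD ℓ]) (a : ℕ) :
    ℓ ^ a ∣ Sm u (ℓ ^ a) := by
  induction a with
  | zero => simp
  | succ a ih =>
    rw [pow_succ, Sm_mul hu]
    refine mul_dvd_mul ih ?_
    have h1 : u ^ ℓ ^ a ≡ 1 [MOD ℓ] := by simpa using h.pow (ℓ ^ a)
    have h2 : Sm (u ^ ℓ ^ a) ℓ ≡ ℓ [MOD ℓ] := by
      unfold Sm
      have h3 : ∀ v : ℕ, v ≡ 1 [MOD ℓ] → ∀ n, (∑ i ∈ Finset.range n, v ^ i) ≡ n [MOD ℓ] := by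
        intro v hv n
        induction n with
        | zero => rfl
        | succ n ih =>
          rw [Finset.sum_range_succ]
          exact ih.add (by simpa using hv.pow n)
      exact h3 _ h1 ℓ
    exact (Nat.modEq_zero_iff_dvd).1 (h2.trans (by simp [Nat.ModEq]))

theorem modEq_of_dvd_Sm {ℓ u n : ℕ} (h : ℓ ∣ Sm u n) : u ^ n ≡ 1 [MOD ℓ] := by
  have h1 := Sm_mul_int u n
  have h2 : (ℓ : ℤ) ∣ (u : ℤ) ^ n - 1 := by
    rw [← h1]
    exact (Int.natCast_dvd_natCast.2 h).mul_right _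
  have h3 : ((1 : ℕ) : ℤ) ≡ ((u ^ n : ℕ) : ℤ) [ZMOD (ℓ : ℤ)] := by
    rw [Int.modEq_iff_dvd]
    push_cast
    exact h2
  exact (Int.natCast_modEq_iff.1 h3).symm

end numbers

section unity

variable {Ω : Type*} [Field Ω]

theorem prod_unity {u : Ω} {h : ℕ} (hu : orderOf u = h) (hh : 0 < h) (Y : Ω⟦X⟧) :
    ∏ i ∈ Finset.range h, (1 - C (u ^ i) * Y) = 1 - Y ^ h := by
  have h1 : IsPrimitiveRoot (C u : Ω⟦X⟧) h := by
    have := IsPrimitiveRoot.orderOf u
    rw [hu] at this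
    exact this.map_of_injective C_injective
  have h2 := X_pow_sub_C_eq_prod h1 (α := Y) hh rfl
  have h3 := congrArg (Polynomial.eval (1 : Ω⟦X⟧)) h2
  rw [Polynomial.eval_prod] at h3
  simp only [Polynomial.eval_sub, Polynomial.eval_pow, Polynomial.eval_X, Polynomial.eval_C,
    one_pow] at h3
  rw [h3]
  refine Finset.prod_congr rfl fun i _ => ?_
  rw [map_pow]

theorem prod_unity' {u : Ω} {h : ℕ} (hu : orderOf u = h) (hh : 0 < h) (c : ℕ) (Y : Ω⟦X⟧) :
    ∏ i ∈ Finset.range (h * c + 1), (1 - C (u ^ i) * Y) = (1 - Y) * (1 - Y ^ h) ^ c := by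
  have hu1 : u ^ h = 1 := by rw [← hu, pow_orderOf_eq_one]
  have h1 : ∀ c, ∏ i ∈ Finset.range (h * c), (1 - C (u ^ i) * Y) = (1 - Y ^ h) ^ c := by
    intro c
    induction c with
    | zero => simp
    | succ c ih =>
      rw [Nat.mul_succ, Finset.prod_range_add, ih, pow_succ]
      congr 1
      rw [← prod_unity hu hh Y]
      refine Finset.prod_congr rfl fun i _ => ?_
      rw [pow_add, pow_mul, hu1, one_pow, one_mul]
  rw [Finset.prod_range_succ, h1, pow_mul, hu1, one_pow, map_one, one_mul, mul_comm]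

end unity

/-- `π` is a torsor under the group `μ`, on which Frobenius is the multiplication by `q`. -/
structure IsTorsor {T U μ : Type*} [CommGroup μ] (q : ℕ) (τ : T → T) (σ : U → U) (π : T → U)
    (act : μ → T → T) : Prop where
  comm : ∀ x, π (τ x) = σ (π x)
  surj : Surjective π
  one : ∀ x, act 1 x = x
  mul : ∀ a b x, act (a * b) x = act a (act b x)
  fib : ∀ a x, π (act a x) = π x
  trans : ∀ x y, π x = π y → ∃ a, act a x = y
  free : ∀ a x, act a x = x → a = 1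
  frob : ∀ a x, τ (act a x) = act (a ^ q) (τ x)

section torsor

variable {T U μ : Type*} [CommGroup μ] {q : ℕ} {τ : T → T} {σ : U → U} {π : T → U}
  {act : μ → T → T} (h : IsTorsor q τ σ π act)

include h

theorem IsTorsor.iter_comm (n : ℕ) (x : T) : π (τ^[n] x) = σ^[n] (π x) := by
  induction n with
  | zero => rfl
  | succ n ih => rw [iterate_succ_apply', iterate_succ_apply', h.comm, ih]

theorem IsTorsor.iter_frob (n : ℕ) (a : μ) (x : T) :
    τ^[n] (act a x) = act (a ^ q ^ n) (τ^[n] x) := by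
  induction n with
  | zero => simp
  | succ n ih => rw [iterate_succ_apply', iterate_succ_apply', ih, h.frob, ← pow_mul, pow_succ]

theorem IsTorsor.iter_Sm {m : ℕ} {x : T} {ξ : μ} (hξ : act ξ x = τ^[m] x) (j : ℕ) :
    τ^[m * j] x = act (ξ ^ Sm (q ^ m) j) x := by
  induction j with
  | zero => simp [Sm, h.one]
  | succ j ih =>
    rw [Nat.mul_succ, Nat.add_comm, iterate_add_apply, ih, h.iter_frob, ← hξ, ← h.mul, ← pow_mul,
      ← pow_succ, Sm_succ, mul_comm (Sm (q ^ m) j)]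

theorem IsTorsor.inj {a b : μ} {x : T} (hab : act a x = act b x) : a = b := by
  have h1 : act (b⁻¹ * a) x = x := by
    rw [h.mul, hab, ← h.mul, inv_mul_cancel, h.one]
  have h2 := h.free _ _ h1
  rw [inv_mul_eq_one] at h2
  exact h2.symm

theorem IsTorsor.iter_fix {m : ℕ} {x : T} {ξ : μ} (hξ : act ξ x = τ^[m] x) (j : ℕ) :
    τ^[m * j] x = x ↔ ξ ^ Sm (q ^ m) j = 1 := by
  rw [h.iter_Sm hξ]
  constructor
  · exact fun h1 => h.free _ _ h1
  · intro h1
    rw [h1, h.one]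

theorem IsTorsor.exists_xi {m : ℕ} {x : T} (hx : minimalPeriod σ (π x) = m) :
    ∃ ξ, act ξ x = τ^[m] x := by
  refine h.trans _ _ ?_
  rw [h.iter_comm, ← hx, iterate_minimalPeriod]

theorem IsTorsor.dvd (x : T) : minimalPeriod σ (π x) ∣ minimalPeriod τ x := by
  refine IsPeriodicPt.minimalPeriod_dvd ?_
  show σ^[minimalPeriod τ x] (π x) = π x
  rw [← h.iter_comm, iterate_minimalPeriod]

/-- the fibres are in bijection with the group -/
noncomputable def IsTorsor.equiv (s : U → T) (hs : ∀ u, π (s u) = u) : U × μ ≃ T where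
  toFun p := act p.2 (s p.1)
  invFun x := (π x, (h.trans (s (π x)) x (hs _)).choose)
  left_inv p := by
    have h1 : π (act p.2 (s p.1)) = p.1 := by rw [h.fib, hs]
    refine Prod.ext h1 ?_
    have h2 := (h.trans (s (π (act p.2 (s p.1)))) (act p.2 (s p.1)) (hs _)).choose_spec
    refine h.inj (x := s p.1) ?_
    conv_lhs => rw [← h1]
    exact h2
  right_inv x := (h.trans (s (π x)) x (hs _)).choose_spec

end torsor

end Pool.Agent.H856.JN
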